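import Pool.Agent.H209.Cx.Super

/-!
# The superalgebra: abstract form
-/

namespace Pool.Agent.H209.Cx

/-- A copy of a normed algebra which is known to be commutative. -/
theorem exists_copy {A : Type} [NormedRing A] [NormedAlgebra ℂ A] [CompleteSpace A]
    (h : ∀ a b : A, a * b = b * a) :
    ∃ (A' : Type) (_ : NormedCommRing A') (_ : NormedAlgebra ℂ A') (_ : CompleteSpace A')
      (E : A ≃ₐ[ℂ] A'), ∀ T, ‖E T‖ = ‖T‖ := by
  refine ⟨A, { (inferInstance : NormedRing A) with mul_comm := h },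
    { (inferInstance : NormedAlgebra ℂ A) with }, inferInstance, AlgEquiv.refl, fun T => rfl⟩

variable {A : Type} [NormedCommRing A] [NormedAlgebra ℂ A]

/-- localisation at an idempotent -/
noncomputable def loc (E : A) (hE : E * E = E) (χ : A →ₐ[ℂ] ℂ) : A →ₐ[ℂ] A where
  toFun T := T * E + algebraMap ℂ A (χ T) * (1 - E)
  map_one' := by rw [map_one, map_one]; ring
  map_mul' S T := by
    rw [map_mul, map_mul]
    linear_combination (-(S * T - S * algebraMap ℂ A (χ T) - T * algebraMap ℂ A (χ S)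
      + algebraMap ℂ A (χ S) * algebraMap ℂ A (χ T))) * hE
  map_zero' := by rw [map_zero, map_zero]; ring
  map_add' S T := by rw [map_add, map_add]; ring
  commutes' c := by
    rw [AlgHom.commutes]
    show algebraMap ℂ A c * E + algebraMap ℂ A c * (1 - E) = _
    ring

lemma loc_apply (E : A) (hE : E * E = E)
    (χ : A →ₐ[ℂ] ℂ) (T : A) : loc E hE χ T = T * E + algebraMap ℂ A (χ T) * (1 - E) := rfl

lemma norm_loc [NormOneClass A] (E : A)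
    (hE : E * E = E) (χ : A →ₐ[ℂ] ℂ) (hχ : ∀ T, ‖χ T‖ ≤ ‖T‖) (hn : ‖E‖ ≤ 4) (T : A) :
    ‖loc E hE χ T‖ ≤ 9 * ‖T‖ := by
  rw [loc_apply]
  refine (norm_add_le _ _).trans ?_
  have h1 : ‖T * E‖ ≤ ‖T‖ * 4 := (norm_mul_le _ _).trans (by gcongr)
  have h2 : ‖algebraMap ℂ A (χ T) * (1 - E)‖ ≤ ‖T‖ * 5 := by
    refine (norm_mul_le _ _).trans ?_
    rw [norm_algebraMap']
    have h3 : ‖(1 : A) - E‖ ≤ 5 := by
      refine (norm_sub_le _ _).trans ?_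
      rw [norm_one]
      linarith
    have := hχ T
    gcongr
  linarith

lemma inv_bound {z : ℂ} (h : 2 / 51 ≤ ‖z‖) : z ≠ 0 ∧ ‖z⁻¹‖ ≤ 51 / 2 := by
  have hpos : 0 < ‖z‖ := by linarith
  refine ⟨norm_pos_iff.1 hpos, ?_⟩
  rw [norm_inv]
  calc ‖z‖⁻¹ ≤ (2 / 51 : ℝ)⁻¹ := by gcongr
    _ = 51 / 2 := by norm_num

section Pieces
variable {S : Type} {E : Set S} {Λ₁ Λ₂ : Type}

/-- the idempotents -/
def Eid (e : A) (E₁ E₂ : S → A) : Option (Bool × E) → A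
  | none => 1 - e
  | some (true, s) => E₁ s
  | some (false, s) => E₂ s

/-- the base points -/
def pt (o : S) : Option (Bool × E) → S
  | none => o
  | some (_, s) => s

/-- the inverses -/
noncomputable def bb (X₁ X₂ : S → ℂ) : Fin 3 → Option (Bool × E) → A
  | 0, some (false, s) => algebraMap ℂ A (X₁ s)⁻¹
  | 1, some (true, s) => algebraMap ℂ A (X₂ s)⁻¹
  | 2, none => 1
  | _, _ => 0

lemma norm_bb [NormOneClass A] (X₁ X₂ : S → ℂ) (h₁ : ∀ s ∈ E, 2 / 51 ≤ ‖X₁ s‖)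
    (h₂ : ∀ s ∈ E, 2 / 51 ≤ ‖X₂ s‖) (j : Fin 3) (i : Option (Bool × E)) :
    ‖(bb X₁ X₂ j i : A)‖ ≤ 51 / 2 := by
  have z0 : ‖(0 : A)‖ ≤ 51 / 2 := by rw [norm_zero]; norm_num
  fin_cases j
  · rcases i with _ | ⟨_ | _, s⟩
    · exact z0
    · show ‖algebraMap ℂ A (X₁ s)⁻¹‖ ≤ _
      rw [norm_algebraMap']
      exact (inv_bound (h₁ s s.2)).2
    · exact z0
  · rcases i with _ | ⟨_ | _, s⟩
    · exact z0
    · exact z0
    · show ‖algebraMap ℂ A (X₂ s)⁻¹‖ ≤ _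
      rw [norm_algebraMap']
      exact (inv_bound (h₂ s s.2)).2
  · rcases i with _ | ⟨_ | _, s⟩
    · show ‖(1 : A)‖ ≤ _
      rw [norm_one]
      norm_num
    · exact z0
    · exact z0

end Pieces

open Classical in
theorem abs_super [NormOneClass A] [CompleteSpace A] {S Λ₁ Λ₂ : Type} (χ : S → (A →ₐ[ℂ] ℂ))
    (hext : ∀ a b, (∀ s, χ s a = χ s b) → a = b) (hχn : ∀ s a, ‖χ s a‖ ≤ ‖a‖)
    (E : Set S) (o : S) (ho : o ∉ E) (p₁ : S → Λ₁) (p₂ : S → Λ₂) (e : A)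
    (he : ∀ t, χ t e = if t ∈ E then 1 else 0) (hen : ‖e‖ ≤ 3) (E₁ E₂ : S → A)
    (hE₁ : ∀ s t, χ t (E₁ s) = if t ∈ E ∧ p₁ t = p₁ s then 1 else 0) (hE₁n : ∀ s, ‖E₁ s‖ ≤ 2)
    (hE₂ : ∀ s t, χ t (E₂ s) = if t ∈ E ∧ p₂ t = p₂ s then 1 else 0) (hE₂n : ∀ s, ‖E₂ s‖ ≤ 2)
    (hP : ∀ a c, 0 ≤ c →
      (∀ s ∈ E, ∃ a', ‖a'‖ ≤ c ∧ ∀ t ∈ E, p₁ t = p₁ s → χ t a = χ t a') →
      (∀ s ∈ E, ∃ a', ‖a'‖ ≤ c ∧ ∀ t ∈ E, p₂ t = p₂ s → χ t a = χ t a') → ‖a * e‖ ≤ 3 * c)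
    (X₁ X₂ : S → ℂ) (T₁ T₂ : A) (h₁ : ∀ t, χ t T₁ = if t ∈ E then X₁ t else 0)
    (h₂ : ∀ t, χ t T₂ = if t ∈ E then X₂ t else 0)
    (hX₁ : ∀ s ∈ E, 2 / 51 ≤ ‖X₁ s‖) (hX₂ : ∀ s ∈ E, 2 / 51 ≤ ‖X₂ s‖)
    (hl₁ : ∀ s ∈ E, ∀ t ∈ E, p₂ t = p₂ s → X₁ t = X₁ s)
    (hl₂ : ∀ s ∈ E, ∀ t ∈ E, p₁ t = p₁ s → X₂ t = X₂ s) :
    ∃ (B : Type) (_ : NormedCommRing B) (_ : NormedAlgebra ℂ B) (_ : CompleteSpace B)
      (ι : A →ₐ[ℂ] B), Isometry ι ∧
      ∃ y : Fin 3 → B, ι T₁ * y 0 + ι T₂ * y 1 + ι (1 - e) * y 2 = 1 := by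
  have k0 : ∀ t, χ t (Eid (E := E) e E₁ E₂ none) = 1 - if t ∈ E then 1 else 0 := by
    intro t
    show χ t (1 - e) = _
    rw [map_sub, map_one, he]
  have k1 : ∀ (s : E) t, χ t (Eid e E₁ E₂ (some (true, s)))
      = if t ∈ E ∧ p₁ t = p₁ s then 1 else 0 := fun s t => hE₁ s t
  have k2 : ∀ (s : E) t, χ t (Eid e E₁ E₂ (some (false, s)))
      = if t ∈ E ∧ p₂ t = p₂ s then 1 else 0 := fun s t => hE₂ s t
  have hE : ∀ i : Option (Bool × E), Eid e E₁ E₂ i * Eid e E₁ E₂ i = Eid e E₁ E₂ i := by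
    intro i
    apply hext
    intro t
    rw [map_mul]
    rcases i with _ | ⟨_ | _, s⟩
    · rw [k0]
      split_ifs <;> simp
    · rw [k2]
      split_ifs <;> simp
    · rw [k1]
      split_ifs <;> simp
  have hEn : ∀ i : Option (Bool × E), ‖Eid e E₁ E₂ i‖ ≤ 4 := by
    intro i
    rcases i with _ | ⟨_ | _, s⟩
    · show ‖1 - e‖ ≤ 4
      refine (norm_sub_le _ _).trans ?_
      rw [norm_one]
      linarith
    · show ‖E₂ s‖ ≤ 4
      linarith [hE₂n s]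
    · show ‖E₁ s‖ ≤ 4
      linarith [hE₁n s]
  obtain ⟨π, hπ, hC⟩ : ∃ π : Option (Bool × E) → (A →ₐ[ℂ] A),
      (∀ i a, π i a = a * Eid e E₁ E₂ i + algebraMap ℂ A (χ (pt o i) a) * (1 - Eid e E₁ E₂ i)) ∧
      ∀ i a, ‖π i a‖ ≤ 9 * ‖a‖ :=
    ⟨fun i => loc (Eid e E₁ E₂ i) (hE i) (χ (pt o i)), fun i a => rfl,
      fun i a => norm_loc _ _ _ (hχn _) (hEn i) a⟩
  have hχπ : ∀ i a t, χ t (π i a) = χ t a * χ t (Eid e E₁ E₂ i)
      + χ (pt o i) a * (1 - χ t (Eid e E₁ E₂ i)) := by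
    intro i a t
    rw [hπ, map_add, map_mul, map_mul, AlgHom.commutes, map_sub, map_one]
    rfl
  have hK : ∀ a c, 0 ≤ c → (∀ i, ‖π i a‖ ≤ c) → ‖a‖ ≤ 7 * c := by
    intro a c hc h
    have e1 : a = a * e + π none a * (1 - e) := by
      rw [hπ]
      have h0 := hE none
      have h00 : Eid (E := E) e E₁ E₂ none = 1 - e := rfl
      rw [h00] at h0 ⊢
      linear_combination (-(a - algebraMap ℂ _ (χ (pt (E := E) o none) a))) * h0
    have e2 : ‖π none a * (1 - e)‖ ≤ c * 4 := by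
      refine (norm_mul_le _ _).trans ?_
      have h3 := h none
      have h4 : ‖1 - e‖ ≤ 4 := hEn none
      gcongr
    have e3 : ‖a * e‖ ≤ 3 * c := by
      apply hP a c hc
      · intro s hs
        refine ⟨π (some (true, ⟨s, hs⟩)) a, h _, fun t ht hst => ?_⟩
        rw [hχπ, k1, if_pos ⟨ht, hst⟩, mul_one, sub_self, mul_zero, add_zero]
      · intro s hs
        refine ⟨π (some (false, ⟨s, hs⟩)) a, h _, fun t ht hst => ?_⟩
        rw [hχπ, k2, if_pos ⟨ht, hst⟩, mul_one, sub_self, mul_zero, add_zero]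
    have e6 : ‖a‖ ≤ ‖a * e‖ + ‖π none a * (1 - e)‖ := by
      conv_lhs => rw [e1]
      exact norm_add_le _ _
    linarith
  have hsum : ∀ i, ∑ j, π i ((![T₁, T₂, 1 - e] : Fin 3 → A) j) * bb X₁ X₂ j i = 1 := by
    intro i
    rw [Fin.sum_univ_three]
    rcases i with _ | ⟨_ | _, s⟩
    · show π none T₁ * 0 + π none T₂ * 0 + π none (1 - e) * 1 = 1
      rw [mul_zero, mul_zero, zero_add, zero_add, mul_one]
      apply hext
      intro t
      rw [hχπ, k0, map_one, map_sub, map_sub, map_one, map_one, he, he]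
      show _ + (1 - if o ∈ E then 1 else 0) * _ = _
      rw [if_neg ho]
      split_ifs <;> simp
    · show π _ T₁ * algebraMap ℂ _ (X₁ s)⁻¹ + π _ T₂ * 0 + π _ (1 - e) * 0 = 1
      rw [mul_zero, mul_zero, add_zero, add_zero]
      apply hext
      intro t
      have hs0 := (inv_bound (hX₁ s s.2)).1
      rw [map_mul, hχπ, k2, map_one, AlgHom.commutes, h₁, h₁]
      show ((if t ∈ E then X₁ t else 0) * (if t ∈ E ∧ p₂ t = p₂ s then 1 else 0)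
        + (if (s : S) ∈ E then X₁ s else 0)
          * (1 - (if t ∈ E ∧ p₂ t = p₂ s then 1 else 0))) * (X₁ s)⁻¹ = 1
      rw [if_pos s.2]
      by_cases ht : t ∈ E ∧ p₂ t = p₂ s
      · rw [if_pos ht, if_pos ht.1, hl₁ s s.2 t ht.1 ht.2, mul_one, sub_self, mul_zero, add_zero,
          mul_inv_cancel₀ hs0]
      · rw [if_neg ht, mul_zero, zero_add, sub_zero, mul_one, mul_inv_cancel₀ hs0]
    · show π _ T₁ * 0 + π _ T₂ * algebraMap ℂ _ (X₂ s)⁻¹ + π _ (1 - e) * 0 = 1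
      rw [mul_zero, mul_zero, add_zero, zero_add]
      apply hext
      intro t
      have hs0 := (inv_bound (hX₂ s s.2)).1
      rw [map_mul, hχπ, k1, map_one, AlgHom.commutes, h₂, h₂]
      show ((if t ∈ E then X₂ t else 0) * (if t ∈ E ∧ p₁ t = p₁ s then 1 else 0)
        + (if (s : S) ∈ E then X₂ s else 0)
          * (1 - (if t ∈ E ∧ p₁ t = p₁ s then 1 else 0))) * (X₂ s)⁻¹ = 1
      rw [if_pos s.2]
      by_cases ht : t ∈ E ∧ p₁ t = p₁ s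
      · rw [if_pos ht, if_pos ht.1, hl₂ s s.2 t ht.1 ht.2, mul_one, sub_self, mul_zero, add_zero,
          mul_inv_cancel₀ hs0]
      · rw [if_neg ht, mul_zero, zero_add, sub_zero, mul_one, mul_inv_cancel₀ hs0]
  obtain ⟨B, i1, i2, i3, ι, hι, y, hy⟩ := super π 9 7 (by norm_num) (by norm_num) hC hK
    ![T₁, T₂, 1 - e] (bb X₁ X₂) (51 / 2) (norm_bb X₁ X₂ hX₁ hX₂) hsum
  refine ⟨B, i1, i2, i3, ι, hι, y, ?_⟩
  rw [Fin.sum_univ_three] at hy
  exact hy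

/-- a character vanishing on three elements -/
theorem exists_char [CompleteSpace A] (x y z : A)
    (h : ∀ a b c, a * x + b * y + c * z ≠ 1) :
    ∃ φ : A →ₐ[ℂ] ℂ, φ x = 0 ∧ φ y = 0 ∧ φ z = 0 := by
  have hne : Ideal.span ({x, y, z} : Set A) ≠ ⊤ := by
    intro h'
    rw [Ideal.eq_top_iff_one, Ideal.span, Submodule.mem_span_triple] at h'
    obtain ⟨a, b, c, hR⟩ := h'
    exact h a b c hR
  obtain ⟨M, hM, hle⟩ := Ideal.exists_le_maximal _ hne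
  have hmem : ∀ T ∈ ({x, y, z} : Set A), M.toCharacterSpace T = 0 := by
    intro T hT
    exact Ideal.toCharacterSpace_apply_eq_zero_of_mem M (hle (Ideal.subset_span hT))
  exact ⟨WeakDual.CharacterSpace.toAlgHom M.toCharacterSpace, hmem x (by simp),
    hmem y (by simp), hmem z (by simp)⟩

end Pool.Agent.H209.Cx
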