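import Pool.Agent.H209.Cx.Dens

/-!
# The grid of bi-affine characters of the Cantor group
-/

namespace Pool.Agent.H209.Cx

open MeasureTheory
open scoped ENNReal ComplexConjugate

set_option linter.unusedSectionVars false

/-- index of a coordinate -/
def code (N i j : ℕ) : ℕ := Nat.pair N (Nat.pair i j)

lemma code_inj {N i j M k l : ℕ} : code N i j = code M k l ↔ N = M ∧ i = k ∧ j = l := by
  unfold code
  rw [Nat.pair_eq_pair, Nat.pair_eq_pair]

/-- test points -/
def uu (N i j : ℕ) : CG := Pi.single (code N i j) 1

lemma uu_apply (N i j M k l : ℕ) :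
    uu N i j (code M k l) = if N = M ∧ i = k ∧ j = l then 1 else 0 := by
  unfold uu
  rw [Pi.single_apply]
  refine if_congr ?_ rfl rfl
  rw [code_inj]
  constructor
  · rintro ⟨h1, h2, h3⟩
    exact ⟨h1.symm, h2.symm, h3.symm⟩
  · rintro ⟨h1, h2, h3⟩
    exact ⟨h1.symm, h2.symm, h3.symm⟩

/-- extension of a vector by a leading `1` and trailing zeros -/
def ex {N : ℕ} (v : Fin N → ZMod 2) (i : ℕ) : ZMod 2 :=
  if i = 0 then 1 else if h : i - 1 < N then v ⟨i - 1, h⟩ else 0

lemma ex_zero {N : ℕ} (v : Fin N → ZMod 2) : ex v 0 = 1 := by simp [ex]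

lemma ex_succ {N : ℕ} (v : Fin N → ZMod 2) (i : Fin N) : ex v (i + 1) = v i := by
  simp [ex]

lemma ex_large {N : ℕ} (v : Fin N → ZMod 2) (i : ℕ) (h : N + 1 ≤ i) : ex v i = 0 := by
  unfold ex
  rw [if_neg (by omega), dif_neg (by omega)]

lemma ex_inj {N : ℕ} {v w : Fin N → ZMod 2} (h : ex v = ex w) : v = w := by
  ext i : 1
  rw [← ex_succ v, ← ex_succ w, h]

lemma ex_add3 {N : ℕ} (v w z : Fin N → ZMod 2) : ex (v + w + z) = ex v + ex w + ex z := by
  ext i : 1
  simp only [ex, Pi.add_apply]
  split_ifs
  · decide
  · rfl
  · simp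

/-- The bi-affine characters. -/
def eC (N : ℕ) (v w : Fin N → ZMod 2) : CG →ₜ+ ZMod 2 where
  toFun x := ∑ i ∈ Finset.range (N + 1), ∑ j ∈ Finset.range (N + 1),
    ex v i * ex w j * x (code N i j)
  map_zero' := by simp
  map_add' x y := by
    simp only [Pi.add_apply, mul_add, Finset.sum_add_distrib]
  continuous_toFun := by
    refine continuous_finsetSum _ fun i _ => continuous_finsetSum _ fun j _ => ?_
    exact (continuous_of_discreteTopology (f := fun z : ZMod 2 => ex v i * ex w j * z)).comp
      (continuous_apply (code N i j))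

lemma eC_apply (N : ℕ) (v w : Fin N → ZMod 2) (x : CG) :
    eC N v w x = ∑ i ∈ Finset.range (N + 1), ∑ j ∈ Finset.range (N + 1),
      ex v i * ex w j * x (code N i j) := rfl

lemma eC_uu (N : ℕ) (v w : Fin N → ZMod 2) (M i j : ℕ) :
    eC N v w (uu M i j) = if M = N then ex v i * ex w j else 0 := by
  rw [eC_apply]
  simp only [uu_apply]
  split_ifs with h
  · subst h
    simp only [true_and]
    by_cases hi : i < M + 1
    · by_cases hj : j < M + 1
      · rw [Finset.sum_eq_single i, Finset.sum_eq_single j]
        · simp
        · intro b _ hb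
          rw [if_neg (fun h => hb h.2.symm), mul_zero]
        · intro h
          exact absurd (Finset.mem_range.2 hj) h
        · intro b _ hb
          refine Finset.sum_eq_zero fun c _ => ?_
          rw [if_neg (fun h => hb h.1.symm), mul_zero]
        · intro h
          exact absurd (Finset.mem_range.2 hi) h
      · rw [ex_large w j (by omega), mul_zero]
        refine Finset.sum_eq_zero fun b _ => Finset.sum_eq_zero fun c hc => ?_
        rw [Finset.mem_range] at hc
        rw [if_neg (fun h => hj (by omega)), mul_zero]
    · rw [ex_large v i (by omega), zero_mul]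
      refine Finset.sum_eq_zero fun b hb => Finset.sum_eq_zero fun c _ => ?_
      rw [Finset.mem_range] at hb
      rw [if_neg (fun h => hi (by omega)), mul_zero]
  · refine Finset.sum_eq_zero fun b _ => Finset.sum_eq_zero fun c _ => ?_
    rw [if_neg (fun h' => h h'.1), mul_zero]

/-- The set of bi-affine characters. -/
def EE : Set (CG →ₜ+ ZMod 2) := {s | ∃ N, ∃ v w : Fin N → ZMod 2, s = eC N v w}

lemma eC_mem (N : ℕ) (v w : Fin N → ZMod 2) : eC N v w ∈ EE := ⟨N, v, w, rfl⟩

lemma zero_notMem : (0 : CG →ₜ+ ZMod 2) ∉ EE := by
  rintro ⟨N, v, w, h⟩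
  have h1 : (0 : ZMod 2) = eC N v w (uu N 0 0) := by rw [← h]; rfl
  rw [eC_uu, if_pos rfl, ex_zero, ex_zero] at h1
  exact absurd h1 (by decide)

/-- direction one: fixed second vector -/
def p₁ (s : CG →ₜ+ ZMod 2) : ℕ → ℕ → ZMod 2 := fun N j => s (uu N 0 j)

/-- direction two: fixed first vector -/
def p₂ (s : CG →ₜ+ ZMod 2) : ℕ → ℕ → ZMod 2 := fun N i => s (uu N i 0)

lemma p₁_eC (N : ℕ) (v w : Fin N → ZMod 2) (M j : ℕ) :
    p₁ (eC N v w) M j = if M = N then ex w j else 0 := by
  unfold p₁
  rw [eC_uu, ex_zero, one_mul]

lemma p₂_eC (N : ℕ) (v w : Fin N → ZMod 2) (M j : ℕ) :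
    p₂ (eC N v w) M j = if M = N then ex v j else 0 := by
  unfold p₂
  rw [eC_uu, ex_zero, mul_one]

lemma p₁_add (s t : CG →ₜ+ ZMod 2) : p₁ (s + t) = p₁ s + p₁ t := rfl

lemma p₂_add (s t : CG →ₜ+ ZMod 2) : p₂ (s + t) = p₂ s + p₂ t := rfl

lemma p₁_eq {N M : ℕ} {v w : Fin N → ZMod 2} {v' w' : Fin M → ZMod 2}
    (h : p₁ (eC N v w) = p₁ (eC M v' w')) : N = M := by
  have h1 := congrFun (congrFun h N) 0
  rw [p₁_eC, p₁_eC, if_pos rfl, ex_zero] at h1
  by_contra hne
  rw [if_neg hne] at h1
  exact absurd h1 (by decide)

lemma p₂_eq {N M : ℕ} {v w : Fin N → ZMod 2} {v' w' : Fin M → ZMod 2}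
    (h : p₂ (eC N v w) = p₂ (eC M v' w')) : N = M := by
  have h1 := congrFun (congrFun h N) 0
  rw [p₂_eC, p₂_eC, if_pos rfl, ex_zero] at h1
  by_contra hne
  rw [if_neg hne] at h1
  exact absurd h1 (by decide)

lemma p₁_eq' {N : ℕ} {v w v' w' : Fin N → ZMod 2}
    (h : p₁ (eC N v w) = p₁ (eC N v' w')) : w = w' := by
  apply ex_inj
  ext j : 1
  have h1 := congrFun (congrFun h N) j
  rwa [p₁_eC, p₁_eC, if_pos rfl, if_pos rfl] at h1

lemma p₂_eq' {N : ℕ} {v w v' w' : Fin N → ZMod 2}
    (h : p₂ (eC N v w) = p₂ (eC N v' w')) : v = v' := by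
  apply ex_inj
  ext j : 1
  have h1 := congrFun (congrFun h N) j
  rwa [p₂_eC, p₂_eC, if_pos rfl, if_pos rfl] at h1

lemma p₁_same {N : ℕ} (v w v' : Fin N → ZMod 2) : p₁ (eC N v w) = p₁ (eC N v' w) := by
  ext M j : 2
  rw [p₁_eC, p₁_eC]

lemma p₂_same {N : ℕ} (v w w' : Fin N → ZMod 2) : p₂ (eC N v w) = p₂ (eC N v w') := by
  ext M j : 2
  rw [p₂_eC, p₂_eC]

lemma zz (a : ZMod 2) : a = 0 ∨ a = 1 := by revert a; decide

lemma zadd (a b : ZMod 2) : a + b = 0 ↔ a = b := by revert a b; decide

/-- The algebraic core: rank-one matrices over the field with two elements. -/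
lemma rank_one (a a' c c' b b' d d' : ℕ → ZMod 2)
    (ha : a 0 = 1) (ha' : a' 0 = 1) (hc : c 0 = 1) (hc' : c' 0 = 1)
    (hb : b 0 = 1) (hb' : b' 0 = 1) (hd : d 0 = 1) (hd' : d' 0 = 1)
    (h : ∀ i j, a i * b j + a' i * b' j = c i * d j + c' i * d' j)
    (hne : ¬ (a = a' ∧ b = b')) :
    (a = c ∧ b = d ∧ a' = c' ∧ b' = d') ∨ (a = c' ∧ b = d' ∧ a' = c ∧ b' = d) ∨
      (b = b' ∧ d = d' ∧ b = d) ∨ (a = a' ∧ c = c' ∧ a = c) := by
  have hB : ∀ j, b j + b' j = d j + d' j := by
    intro j
    have := h 0 j
    rwa [ha, ha', hc, hc', one_mul, one_mul, one_mul, one_mul] at this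
  have hA : ∀ i, a i + a' i = c i + c' i := by
    intro i
    have := h i 0
    rwa [hb, hb', hd, hd', mul_one, mul_one, mul_one, mul_one] at this
  have key : ∀ i j, (a i + c i) * (b j + b' j) = (a i + a' i) * (b j + d j) := by
    intro i j
    have h1 := h i j
    have h2 := hA i
    have h3 := hB j
    revert h1 h2 h3
    generalize a i = x1
    generalize a' i = x2
    generalize c i = x3
    generalize c' i = x4
    generalize b j = y1
    generalize b' j = y2
    generalize d j = y3
    generalize d' j = y4
    revert x1 x2 x3 x4 y1 y2 y3 y4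
    decide
  by_cases hbb : b = b'
  · have haa : a ≠ a' := fun h' => hne ⟨h', hbb⟩
    obtain ⟨i, hi⟩ := Function.ne_iff.1 haa
    have hi1 : a i + a' i = 1 := by
      rcases zz (a i + a' i) with h | h
      · exact absurd ((zadd _ _).1 h) hi
      · exact h
    right; right; left
    have hbd : b = d := by
      ext j : 1
      have := key i j
      rw [hi1, hbb, zmod2_add_self, mul_zero, one_mul] at this
      rw [hbb]
      exact (zadd _ _).1 this.symm
    refine ⟨hbb, ?_, hbd⟩
    ext j : 1
    have := hB j
    rw [← hbb, zmod2_add_self] at this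
    exact (zadd _ _).1 this.symm
  · obtain ⟨j, hj⟩ := Function.ne_iff.1 hbb
    have hj1 : b j + b' j = 1 := by
      rcases zz (b j + b' j) with h | h
      · exact absurd ((zadd _ _).1 h) hj
      · exact h
    by_cases haa : a = a'
    · right; right; right
      have hac : a = c := by
        ext i : 1
        have := key i j
        rw [hj1, haa, zmod2_add_self, zero_mul, mul_one] at this
        rw [haa]
        exact (zadd _ _).1 this
      refine ⟨haa, ?_, hac⟩
      ext i : 1
      have := hA i
      rw [← haa, zmod2_add_self] at this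
      exact (zadd _ _).1 this.symm
    · obtain ⟨i, hi⟩ := Function.ne_iff.1 haa
      have hi1 : a i + a' i = 1 := by
        rcases zz (a i + a' i) with h | h
        · exact absurd ((zadd _ _).1 h) hi
        · exact h
      have k1 : ∀ k, a k + c k = (a k + a' k) * (b j + d j) := by
        intro k
        have := key k j
        rwa [hj1, mul_one] at this
      have k2 : ∀ k, b k + d k = (a i + c i) * (b k + b' k) := by
        intro k
        have := key i k
        rw [hi1, one_mul] at this
        exact this.symm
      have k3 : a i + c i = b j + d j := by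
        have := k1 i
        rwa [hi1, one_mul] at this
      rcases zz (b j + d j) with h0 | h1
      · left
        have e1 : a = c := by
          ext k : 1
          have := k1 k
          rw [h0, mul_zero] at this
          exact (zadd _ _).1 this
        have e2 : b = d := by
          ext k : 1
          have := k2 k
          rw [k3, h0, zero_mul] at this
          exact (zadd _ _).1 this
        refine ⟨e1, e2, ?_, ?_⟩
        · ext k : 1
          have := hA k
          rw [e1] at this
          exact add_left_cancel this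
        · ext k : 1
          have := hB k
          rw [e2] at this
          exact add_left_cancel this
      · right; left
        have e1 : a' = c := by
          ext k : 1
          have := k1 k
          rw [h1, mul_one] at this
          exact (add_left_cancel this).symm
        have e2 : b' = d := by
          ext k : 1
          have := k2 k
          rw [k3, h1, one_mul] at this
          exact (add_left_cancel this).symm
        refine ⟨?_, ?_, e1, e2⟩
        · ext k : 1
          have := hA k
          rw [e1, add_comm] at this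
          exact add_left_cancel this
        · ext k : 1
          have := hB k
          rw [e2, add_comm] at this
          exact add_left_cancel this

lemma grid_EE : Grid EE p₁ p₂ where
  inj := by
    rintro _ ⟨N, v, w, rfl⟩ _ ⟨M, v', w', rfl⟩ h1 h2
    obtain rfl := p₁_eq h1
    rw [p₁_eq' h1, p₂_eq' h2]
  quad := by
    rintro _ ⟨N1, v1, w1, rfl⟩ _ ⟨N2, v2, w2, rfl⟩ _ ⟨N3, v3, w3, rfl⟩ _ ⟨N4, v4, w4, rfl⟩ he hne
    have hev : ∀ M i j, (if M = N1 then ex v1 i * ex w1 j else 0)
        + (if M = N2 then ex v2 i * ex w2 j else 0)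
        = (if M = N3 then ex v3 i * ex w3 j else 0)
        + (if M = N4 then ex v4 i * ex w4 j else 0) := by
      intro M i j
      have h := congrArg (fun s : CG →ₜ+ ZMod 2 => s (uu M i j)) he
      simp only [ContinuousAddMonoidHom.add_apply] at h
      rwa [eC_uu, eC_uu, eC_uu, eC_uu] at h
    have h00 : ∀ M, (if M = N1 then (1 : ZMod 2) else 0) + (if M = N2 then 1 else 0)
        = (if M = N3 then 1 else 0) + (if M = N4 then 1 else 0) := by
      intro M
      have := hev M 0 0
      simpa only [ex_zero, mul_one] using this
    by_cases h12 : N1 = N2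
    · subst h12
      have h34 : N3 = N4 := by
        by_contra h34
        have := h00 N3
        rw [zmod2_add_self, if_pos rfl, if_neg h34] at this
        exact absurd this (by decide)
      subst h34
      have h13 : N1 = N3 := by
        by_contra h13
        apply hne
        have h5 : ∀ i j, ex v1 i * ex w1 j = ex v2 i * ex w2 j := by
          intro i j
          have := hev N1 i j
          rw [if_pos rfl, if_pos rfl, if_neg h13, if_neg h13, add_zero] at this
          exact (zadd _ _).1 this
        have e1 : v1 = v2 := by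
          apply ex_inj
          ext i : 1
          have := h5 i 0
          rwa [ex_zero, ex_zero, mul_one, mul_one] at this
        have e2 : w1 = w2 := by
          apply ex_inj
          ext j : 1
          have := h5 0 j
          rwa [ex_zero, ex_zero, one_mul, one_mul] at this
        rw [e1, e2]
      subst h13
      have h5 : ∀ i j, ex v1 i * ex w1 j + ex v2 i * ex w2 j
          = ex v3 i * ex w3 j + ex v4 i * ex w4 j := by
        intro i j
        have := hev N1 i j
        simpa only [if_true] using this
      have hne' : ¬ (ex v1 = ex v2 ∧ ex w1 = ex w2) := by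
        rintro ⟨h6, h7⟩
        apply hne
        rw [ex_inj h6, ex_inj h7]
      rcases rank_one _ _ _ _ _ _ _ _ (ex_zero v1) (ex_zero v2) (ex_zero v3) (ex_zero v4)
        (ex_zero w1) (ex_zero w2) (ex_zero w3) (ex_zero w4) h5 hne' with
        ⟨h6, h7, h8, h9⟩ | ⟨h6, h7, h8, h9⟩ | ⟨h6, h7, h8⟩ | ⟨h6, h7, h8⟩
      · left
        rw [ex_inj h6, ex_inj h7, ex_inj h8, ex_inj h9]
        exact ⟨rfl, rfl⟩
      · right; left
        rw [ex_inj h6, ex_inj h7, ex_inj h8, ex_inj h9]
        exact ⟨rfl, rfl⟩
      · right; right; left
        have e6 := ex_inj h6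
        have e7 := ex_inj h7
        have e8 := ex_inj h8
        subst e6
        subst e7
        subst e8
        exact ⟨p₁_same _ _ _, p₁_same _ _ _, p₁_same _ _ _⟩
      · right; right; right
        have e6 := ex_inj h6
        have e7 := ex_inj h7
        have e8 := ex_inj h8
        subst e6
        subst e7
        subst e8
        exact ⟨p₂_same _ _ _, p₂_same _ _ _, p₂_same _ _ _⟩
    · have h34 : N3 ≠ N4 := by
        rintro rfl
        have := h00 N1
        rw [zmod2_add_self, if_pos rfl, if_neg h12] at this
        exact absurd this (by decide)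
      have hcase : (N1 = N3 ∧ N2 = N4) ∨ (N1 = N4 ∧ N2 = N3) := by
        have a1 := h00 N1
        have a2 := h00 N2
        rw [if_pos rfl, if_neg h12] at a1
        rw [if_neg (Ne.symm h12), if_pos rfl] at a2
        by_cases b1 : N1 = N3
        · left
          refine ⟨b1, ?_⟩
          by_contra b2
          have b3 : N2 ≠ N3 := fun h => h12 (b1.trans h.symm)
          rw [if_neg b2, if_neg b3] at a2
          exact absurd a2 (by decide)
        · right
          have b2 : N1 = N4 := by
            by_contra b2
            rw [if_neg b1, if_neg b2] at a1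
            exact absurd a1 (by decide)
          refine ⟨b2, ?_⟩
          by_contra b3
          have b4 : N2 ≠ N4 := fun h => h12 (b2.trans h.symm)
          rw [if_neg b3, if_neg b4] at a2
          exact absurd a2 (by decide)
      rcases hcase with ⟨rfl, rfl⟩ | ⟨rfl, rfl⟩
      · left
        have c1 : ∀ i j, ex v1 i * ex w1 j = ex v3 i * ex w3 j := by
          intro i j
          have := hev N1 i j
          rwa [if_pos rfl, if_neg h12, if_pos rfl, if_neg h12, add_zero, add_zero] at this
        have c2 : ∀ i j, ex v2 i * ex w2 j = ex v4 i * ex w4 j := by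
          intro i j
          have := hev N2 i j
          rwa [if_neg (Ne.symm h12), if_pos rfl, if_neg (Ne.symm h12), if_pos rfl, zero_add,
            zero_add] at this
        have e1 : v1 = v3 := by
          apply ex_inj
          ext i : 1
          have := c1 i 0
          rwa [ex_zero, ex_zero, mul_one, mul_one] at this
        have e2 : w1 = w3 := by
          apply ex_inj
          ext j : 1
          have := c1 0 j
          rwa [ex_zero, ex_zero, one_mul, one_mul] at this
        have e3 : v2 = v4 := by
          apply ex_inj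
          ext i : 1
          have := c2 i 0
          rwa [ex_zero, ex_zero, mul_one, mul_one] at this
        have e4 : w2 = w4 := by
          apply ex_inj
          ext j : 1
          have := c2 0 j
          rwa [ex_zero, ex_zero, one_mul, one_mul] at this
        rw [e1, e2, e3, e4]
        exact ⟨rfl, rfl⟩
      · right; left
        have c1 : ∀ i j, ex v1 i * ex w1 j = ex v4 i * ex w4 j := by
          intro i j
          have := hev N1 i j
          rwa [if_pos rfl, if_neg h12, if_neg h12, if_pos rfl, add_zero, zero_add] at this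
        have c2 : ∀ i j, ex v2 i * ex w2 j = ex v3 i * ex w3 j := by
          intro i j
          have := hev N2 i j
          rwa [if_neg (Ne.symm h12), if_pos rfl, if_pos rfl, if_neg (Ne.symm h12), zero_add,
            add_zero] at this
        have e1 : v1 = v4 := by
          apply ex_inj
          ext i : 1
          have := c1 i 0
          rwa [ex_zero, ex_zero, mul_one, mul_one] at this
        have e2 : w1 = w4 := by
          apply ex_inj
          ext j : 1
          have := c1 0 j
          rwa [ex_zero, ex_zero, one_mul, one_mul] at this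
        have e3 : v2 = v3 := by
          apply ex_inj
          ext i : 1
          have := c2 i 0
          rwa [ex_zero, ex_zero, mul_one, mul_one] at this
        have e4 : w2 = w3 := by
          apply ex_inj
          ext j : 1
          have := c2 0 j
          rwa [ex_zero, ex_zero, one_mul, one_mul] at this
        rw [e1, e2, e3, e4]
        exact ⟨rfl, rfl⟩
  cl₁ := by
    rintro _ ⟨N, v, w, rfl⟩ _ ⟨M, v', w', rfl⟩ _ ⟨K, v'', w'', rfl⟩ h1 h2
    obtain rfl := p₁_eq h1
    obtain rfl := p₁_eq h2
    obtain rfl := p₁_eq' h1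
    obtain rfl := p₁_eq' h2
    have h3 : eC N v w + eC N v' w + eC N v'' w = eC N (v + v' + v'') w := by
      ext x
      show eC N v w x + eC N v' w x + eC N v'' w x = eC N (v + v' + v'') w x
      simp only [eC_apply, ex_add3, ← Finset.sum_add_distrib]
      refine Finset.sum_congr rfl fun i _ => Finset.sum_congr rfl fun j _ => ?_
      simp only [Pi.add_apply]
      ring
    rw [h3]
    exact ⟨eC_mem _ _ _, p₁_same _ _ _⟩
  cl₂ := by
    rintro _ ⟨N, v, w, rfl⟩ _ ⟨M, v', w', rfl⟩ _ ⟨K, v'', w'', rfl⟩ h1 h2
    obtain rfl := p₂_eq h1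
    obtain rfl := p₂_eq h2
    obtain rfl := p₂_eq' h1
    obtain rfl := p₂_eq' h2
    have h3 : eC N v w + eC N v w' + eC N v w'' = eC N v (w + w' + w'') := by
      ext x
      show eC N v w x + eC N v w' x + eC N v w'' x = eC N v (w + w' + w'') x
      simp only [eC_apply, ex_add3, ← Finset.sum_add_distrib]
      refine Finset.sum_congr rfl fun i _ => Finset.sum_congr rfl fun j _ => ?_
      simp only [Pi.add_apply]
      ring
    rw [h3]
    exact ⟨eC_mem _ _ _, p₂_same _ _ _⟩

end Pool.Agent.H209.Cx
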