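import Mathlib

/-!
# A cross theorem
-/

namespace Pool.Agent.H209.Cx

open Complex Filter Asymptotics Set
open scoped Topology Real

/-- bounded functions on a vertical strip -/
lemma strip_max (f : ℂ → ℂ) (hf : Differentiable ℂ f) (a b K C : ℝ) (_hab : a ≤ b)
    (hK : ∀ z : ℂ, a ≤ z.re → z.re ≤ b → ‖f z‖ ≤ K)
    (ha : ∀ z : ℂ, z.re = a → ‖f z‖ ≤ C) (hb : ∀ z : ℂ, z.re = b → ‖f z‖ ≤ C)
    (z : ℂ) (hza : a ≤ z.re) (hzb : z.re ≤ b) : ‖f z‖ ≤ C := by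
  rcases _hab.eq_or_lt with hab | hab
  · exact ha z (le_antisymm (by rw [hab]; exact hzb) hza)
  refine PhragmenLindelof.vertical_strip (a := a) (b := b) hf.diffContOnCl ?_ ha hb hza hzb
  refine ⟨0, by have : 0 < b - a := by linarith
                positivity, 0, ?_⟩
  have h1 : (fun z : ℂ => Real.exp (0 * Real.exp (0 * |z.im|))) = fun _ => (1 : ℝ) := by
    ext z; simp
  rw [h1]
  refine IsBigO.of_bound K ?_
  rw [Filter.eventually_inf_principal]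
  refine Filter.Eventually.of_forall fun z hz => ?_
  rw [norm_one, mul_one]
  exact hK z (le_of_lt hz.1) (le_of_lt hz.2)

/-- The conformal parametrisation. -/
noncomputable def th (l : ℂ) : ℂ := 1 / 2 - 4 / 17 * Complex.cosh l

lemma th_neg (l : ℂ) : th (-l) = th l := by unfold th; rw [Complex.cosh_neg]

lemma differentiable_th : Differentiable ℂ th := by
  unfold th
  fun_prop

lemma norm_cosh_le (l : ℂ) : ‖Complex.cosh l‖ ≤ Real.exp |l.re| := by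
  have h : Complex.cosh l = (Complex.exp l + Complex.exp (-l)) / 2 := rfl
  rw [h, norm_div]
  have h1 : ‖Complex.exp l + Complex.exp (-l)‖ ≤ Real.exp |l.re| + Real.exp |l.re| := by
    refine (norm_add_le _ _).trans ?_
    rw [Complex.norm_exp, Complex.norm_exp, Complex.neg_re]
    gcongr
    · exact le_abs_self _
    · exact neg_le_abs _
  simp only [Complex.norm_ofNat]
  linarith

lemma norm_th_le (l : ℂ) (ρ : ℝ) (h : |l.re| ≤ ρ) : ‖th l‖ ≤ 1 + Real.exp ρ := by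
  unfold th
  refine (norm_sub_le _ _).trans ?_
  rw [norm_mul]
  have h1 := norm_cosh_le l
  have h2 : Real.exp |l.re| ≤ Real.exp ρ := Real.exp_le_exp.2 h
  have h3 : ‖(1 / 2 : ℂ)‖ = 1 / 2 := by simp
  have h4 : ‖(4 / 17 : ℂ)‖ = 4 / 17 := by simp
  rw [h3, h4]
  have h5 := norm_nonneg (Complex.cosh l)
  nlinarith [Real.exp_pos ρ]

section
variable (P : ℂ → ℂ → ℂ) (hP : Differentiable ℂ fun q : ℂ × ℂ => P q.1 q.2) (M : ℝ)
  (h1 : ∀ l₁ l₂ : ℂ, l₁.re = Real.log 2 → l₂.re = 0 → ‖P (th l₁) (th l₂)‖ ≤ M)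
  (h2 : ∀ l₁ l₂ : ℂ, l₁.re = 0 → l₂.re = Real.log 2 → ‖P (th l₁) (th l₂)‖ ≤ M)

include hP in
lemma bdd_strip (ρ : ℝ) : ∃ K, ∀ l₁ l₂ : ℂ, |l₁.re| ≤ ρ → |l₂.re| ≤ ρ →
    ‖P (th l₁) (th l₂)‖ ≤ K := by
  have hc : IsCompact (Metric.closedBall (0 : ℂ) (1 + Real.exp ρ) ×ˢ
      Metric.closedBall (0 : ℂ) (1 + Real.exp ρ)) :=
    (isCompact_closedBall _ _).prod (isCompact_closedBall _ _)
  obtain ⟨K, hK⟩ := hc.exists_bound_of_continuousOn hP.continuous.continuousOn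
  refine ⟨K, fun l₁ l₂ h1 h2 => hK (th l₁, th l₂) ⟨?_, ?_⟩⟩
  · rw [Metric.mem_closedBall, dist_zero_right]; exact norm_th_le _ _ h1
  · rw [Metric.mem_closedBall, dist_zero_right]; exact norm_th_le _ _ h2

include hP h1 h2 in
lemma cross1 (l₁ l₂ : ℂ) (e1 : l₁.re = Real.log 2 / 2) (e2 : l₂.re = Real.log 2 / 2) :
    ‖P (th l₁) (th l₂)‖ ≤ M := by
  have hl : 0 < Real.log 2 := Real.log_pos (by norm_num)
  generalize Real.log 2 = L at *
  obtain ⟨K, hK⟩ := bdd_strip P hP L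
  set f : ℂ → ℂ := fun z => P (th (L * z + l₁.im * I)) (th (L * (1 - z) + l₂.im * I))
    with hf
  have hd : Differentiable ℂ f := by
    have : f = (fun q : ℂ × ℂ => P q.1 q.2) ∘ fun z =>
      (th (L * z + l₁.im * I), th (L * (1 - z) + l₂.im * I)) := rfl
    rw [this]
    refine hP.comp (Differentiable.prodMk ?_ ?_)
    · exact differentiable_th.comp (by fun_prop)
    · exact differentiable_th.comp (by fun_prop)
  have r1 : ∀ z : ℂ, (L * z + l₁.im * I : ℂ).re = L * z.re := by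
    intro z; simp
  have r2 : ∀ z : ℂ, (L * (1 - z) + l₂.im * I : ℂ).re = L * (1 - z.re) := by
    intro z; simp
  have := strip_max f hd 0 1 K M zero_le_one
    (fun z hz0 hz1 => hK _ _ (by rw [r1, abs_of_nonneg (by positivity)]; nlinarith)
      (by rw [r2, abs_of_nonneg (mul_nonneg hl.le (by linarith))]; nlinarith))
    (fun z hz => h2 _ _ (by rw [r1, hz, mul_zero]) (by rw [r2, hz]; ring))
    (fun z hz => h1 _ _ (by rw [r1, hz, mul_one]) (by rw [r2, hz]; ring))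
    (1 / 2) (by norm_num) (by norm_num)
  have e3 : (L * (1 / 2) + l₁.im * I : ℂ) = l₁ := by
    apply Complex.ext
    · rw [e1, r1]; simp; ring
    · simp
  have e4 : (L * (1 - 1 / 2) + l₂.im * I : ℂ) = l₂ := by
    apply Complex.ext
    · rw [e2, r2]; simp; ring
    · simp
  simp only [hf] at this
  rwa [e3, e4] at this

include hP h1 h2 in
lemma cross2 (l₁ l₂ : ℂ) (e1 : |l₁.re| = Real.log 2 / 2) (e2 : |l₂.re| = Real.log 2 / 2) :
    ‖P (th l₁) (th l₂)‖ ≤ M := by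
  have key : ∀ l : ℂ, |l.re| = Real.log 2 / 2 → ∃ l' : ℂ, l'.re = Real.log 2 / 2 ∧ th l' = th l := by
    intro l hl
    rcases abs_choice l.re with h | h
    · exact ⟨l, by rw [← h, hl], rfl⟩
    · exact ⟨-l, by rw [neg_re, ← h, hl], th_neg l⟩
  obtain ⟨l₁', a1, a2⟩ := key l₁ e1
  obtain ⟨l₂', b1, b2⟩ := key l₂ e2
  rw [← a2, ← b2]
  exact cross1 P hP M h1 h2 l₁' l₂' a1 b1

include hP h1 h2 in
lemma cross3 (l₁ l₂ : ℂ) (e1 : |l₁.re| ≤ Real.log 2 / 2) (e2 : |l₂.re| ≤ Real.log 2 / 2) :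
    ‖P (th l₁) (th l₂)‖ ≤ M := by
  have hl : 0 < Real.log 2 := Real.log_pos (by norm_num)
  obtain ⟨K, hK⟩ := bdd_strip P hP (Real.log 2 / 2)
  have step : ∀ l₂ : ℂ, |l₂.re| = Real.log 2 / 2 → ∀ l₁ : ℂ, |l₁.re| ≤ Real.log 2 / 2 →
      ‖P (th l₁) (th l₂)‖ ≤ M := by
    intro l₂ h l₁ h'
    have hd : Differentiable ℂ fun z => P (th z) (th l₂) := by
      have : (fun z => P (th z) (th l₂)) = (fun q : ℂ × ℂ => P q.1 q.2) ∘ fun z =>
        (th z, th l₂) := rfl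
      rw [this]
      exact hP.comp (Differentiable.prodMk differentiable_th (by fun_prop))
    refine strip_max _ hd (-(Real.log 2 / 2)) (Real.log 2 / 2) K M (by linarith)
      (fun z a b => hK _ _ (abs_le.2 ⟨a, b⟩) h.le)
      (fun z hz => cross2 P hP M h1 h2 _ _ (by rw [hz, abs_neg, abs_of_pos (by positivity)]) h)
      (fun z hz => cross2 P hP M h1 h2 _ _ (by rw [hz, abs_of_pos (by positivity)]) h)
      l₁ (abs_le.1 h').1 (abs_le.1 h').2
  have hd : Differentiable ℂ fun z => P (th l₁) (th z) := by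
    have : (fun z => P (th l₁) (th z)) = (fun q : ℂ × ℂ => P q.1 q.2) ∘ fun z =>
      (th l₁, th z) := rfl
    rw [this]
    exact hP.comp (Differentiable.prodMk (by fun_prop) differentiable_th)
  exact strip_max _ hd (-(Real.log 2 / 2)) (Real.log 2 / 2) K M (by linarith)
    (fun z a b => hK _ _ e1 (abs_le.2 ⟨a, b⟩))
    (fun z hz => step _ (by rw [hz, abs_neg, abs_of_pos (by positivity)]) _ e1)
    (fun z hz => step _ (by rw [hz, abs_of_pos (by positivity)]) _ e1)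
    l₂ (abs_le.1 e2).1 (abs_le.1 e2).2

end

/-- solving `cosh l = s` for small `s` -/
lemma exists_cosh (s : ℂ) (hs : ‖s‖ ≤ 1 / 3) : ∃ l : ℂ, Complex.cosh l = s ∧ |l.re| ≤ Real.log 2 / 2 := by
  obtain ⟨c, hc⟩ := IsAlgClosed.exists_pow_nat_eq (s ^ 2 - 1) (n := 2) (by norm_num)
  set u := s + c with hu
  have h1 : u * (s - c) = 1 := by rw [hu]; ring_nf; rw [hc]; ring
  have hu0 : u ≠ 0 := left_ne_zero_of_mul_eq_one h1
  have h2 : u⁻¹ = s - c := inv_eq_of_mul_eq_one_right h1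
  have h3 : u + u⁻¹ = 2 * s := by rw [h2, hu]; ring
  refine ⟨Complex.log u, ?_, ?_⟩
  · have : Complex.cosh (Complex.log u) = (Complex.exp (Complex.log u) +
        Complex.exp (-Complex.log u)) / 2 := rfl
    rw [this, Complex.exp_neg, Complex.exp_log hu0, h3]
    ring
  · rw [Complex.log_re]
    have hpos : 0 < ‖u‖ := norm_pos_iff.2 hu0
    have hq : ‖u + u⁻¹‖ ≤ 2 / 3 := by
      rw [h3, norm_mul]
      simp only [Complex.norm_ofNat]
      linarith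
    have hs2 : Real.sqrt 2 * Real.sqrt 2 = 2 := Real.mul_self_sqrt (by norm_num)
    have hs2pos : 0 < Real.sqrt 2 := by positivity
    have hlog : Real.log 2 / 2 = Real.log (Real.sqrt 2) := by
      rw [Real.log_sqrt (by norm_num)]
    have b1 : ‖u‖ - ‖u‖⁻¹ ≤ 2 / 3 := by
      have := norm_sub_norm_le u (-u⁻¹)
      rw [norm_neg, norm_inv, sub_neg_eq_add] at this
      linarith
    have b2 : ‖u‖⁻¹ - ‖u‖ ≤ 2 / 3 := by
      have := norm_sub_norm_le u⁻¹ (-u)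
      rw [norm_neg, norm_inv, sub_neg_eq_add, add_comm] at this
      linarith
    have hlt : (2 / 3 : ℝ) * Real.sqrt 2 < 1 := by
      have : Real.sqrt 2 < 3 / 2 := by
        rw [Real.sqrt_lt' (by norm_num)]; norm_num
      linarith
    have c1 : ‖u‖ ≤ Real.sqrt 2 := by
      by_contra hcon
      push Not at hcon
      have h5 : ‖u‖ * ‖u‖⁻¹ = 1 := mul_inv_cancel₀ hpos.ne'
      have h6 : (‖u‖ - ‖u‖⁻¹) * ‖u‖ = ‖u‖ * ‖u‖ - 1 := by
        rw [sub_mul, mul_comm ‖u‖⁻¹, h5]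
      have h7 : ‖u‖ * ‖u‖ - 1 ≤ 2 / 3 * ‖u‖ := by
        rw [← h6]; gcongr
      nlinarith [mul_pos (sub_pos.2 hcon) (sub_pos.2 hcon), mul_pos (sub_pos.2 hcon) hs2pos]
    have c2 : ‖u‖⁻¹ ≤ Real.sqrt 2 := by
      by_contra hcon
      push Not at hcon
      have hipos : 0 < ‖u‖⁻¹ := inv_pos.2 hpos
      have h5 : ‖u‖ * ‖u‖⁻¹ = 1 := mul_inv_cancel₀ hpos.ne'
      have h6 : (‖u‖⁻¹ - ‖u‖) * ‖u‖⁻¹ = ‖u‖⁻¹ * ‖u‖⁻¹ - 1 := by
        rw [sub_mul, h5]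
      have h7 : ‖u‖⁻¹ * ‖u‖⁻¹ - 1 ≤ 2 / 3 * ‖u‖⁻¹ := by
        rw [← h6]; gcongr
      nlinarith [mul_pos (sub_pos.2 hcon) (sub_pos.2 hcon), mul_pos (sub_pos.2 hcon) hs2pos]
    rw [abs_le, hlog]
    constructor
    · rw [neg_le, ← Real.log_inv]
      exact Real.log_le_log (inv_pos.2 hpos) c2
    · exact Real.log_le_log hpos c1

/-- **Cross theorem** in the form needed. -/
theorem cross (P : ℂ → ℂ → ℂ) (hP : Differentiable ℂ fun q : ℂ × ℂ => P q.1 q.2) (M : ℝ)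
    (h1 : ∀ l₁ l₂ : ℂ, l₁.re = Real.log 2 → l₂.re = 0 → ‖P (th l₁) (th l₂)‖ ≤ M)
    (h2 : ∀ l₁ l₂ : ℂ, l₁.re = 0 → l₂.re = Real.log 2 → ‖P (th l₁) (th l₂)‖ ≤ M)
    (t₁ t₂ : ℂ) (e1 : ‖t₁ - 1 / 2‖ ≤ 4 / 51) (e2 : ‖t₂ - 1 / 2‖ ≤ 4 / 51) : ‖P t₁ t₂‖ ≤ M := by
  have key : ∀ t : ℂ, ‖t - 1 / 2‖ ≤ 4 / 51 → ∃ l : ℂ, th l = t ∧ |l.re| ≤ Real.log 2 / 2 := by
    intro t ht
    obtain ⟨l, hl, hl'⟩ := exists_cosh (-(17 / 4) * (t - 1 / 2)) (by
      rw [norm_mul]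
      have : ‖(-(17 / 4) : ℂ)‖ = 17 / 4 := by rw [norm_neg]; simp
      rw [this]
      linarith)
    refine ⟨l, ?_, hl'⟩
    unfold th
    rw [hl]
    ring
  obtain ⟨l₁, a1, a2⟩ := key t₁ e1
  obtain ⟨l₂, b1, b2⟩ := key t₂ e2
  rw [← a1, ← b1]
  exact cross3 P hP M h1 h2 l₁ l₂ a2 b2

end Pool.Agent.H209.Cx
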