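import Pool.Agent.H209.Cx.LpPart

/-!
# Density of the trigonometric polynomials in `L⁴` of the Cantor group
-/

namespace Pool.Agent.H209.Cx

open MeasureTheory
open scoped ENNReal ComplexConjugate

set_option linter.unusedSectionVars false

/-- The Cantor group. -/
abbrev CG : Type := ℕ → ZMod 2

/-- coordinate character -/
noncomputable def ev (k : ℕ) : CG →ₜ+ ZMod 2 where
  toFun x := x k
  map_zero' := rfl
  map_add' _ _ := rfl
  continuous_toFun := continuous_apply k

lemma ev_apply (k : ℕ) (x : CG) : ev k x = x k := rfl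

lemma cC_mul {G : Type*} [AddCommGroup G] [TopologicalSpace G] [CompactSpace G]
    (s t : G →ₜ+ ZMod 2) : cC s * cC t = cC (s + t) := by
  ext x
  show chi s x * chi t x = chi (s + t) x
  rw [chi_add]

lemma star_cC {G : Type*} [AddCommGroup G] [TopologicalSpace G] [CompactSpace G]
    (s : G →ₜ+ ZMod 2) : star (cC s) = cC s := by
  ext x
  show conj (chi s x) = chi s x
  exact conj_chi s x

/-- The trigonometric polynomials as a star subalgebra. -/
noncomputable def trigAlg : StarSubalgebra ℂ C(CG, ℂ) where
  carrier := Set.range (evC (G := CG))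
  mul_mem' := by
    rintro _ _ ⟨a, rfl⟩ ⟨b, rfl⟩
    induction a using Finsupp.induction_linear with
    | zero => exact ⟨0, by simp⟩
    | add a a' ha ha' =>
      obtain ⟨c, hc⟩ := ha
      obtain ⟨c', hc'⟩ := ha'
      exact ⟨c + c', by rw [map_add, map_add, add_mul, hc, hc']⟩
    | single s x =>
      induction b using Finsupp.induction_linear with
      | zero => exact ⟨0, by simp⟩
      | add b b' hb hb' =>
        obtain ⟨c, hc⟩ := hb
        obtain ⟨c', hc'⟩ := hb'
        exact ⟨c + c', by rw [map_add, map_add, mul_add, hc, hc']⟩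
      | single t y =>
        refine ⟨Finsupp.single (s + t) (x * y), ?_⟩
        rw [evC_single, evC_single, evC_single, smul_mul_smul_comm, cC_mul]
  one_mem' := ⟨Finsupp.single 0 1, by
    rw [evC_single, one_smul]
    ext x
    exact chi_zero x⟩
  add_mem' := by
    rintro _ _ ⟨a, rfl⟩ ⟨b, rfl⟩
    exact ⟨a + b, map_add _ _ _⟩
  zero_mem' := ⟨0, map_zero _⟩
  algebraMap_mem' c := ⟨Finsupp.single 0 c, by
    rw [evC_single]
    ext x
    show c * chi 0 x = c
    rw [chi_zero, mul_one]⟩
  star_mem' := by
    rintro _ ⟨a, rfl⟩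
    induction a using Finsupp.induction_linear with
    | zero => exact ⟨0, by simp⟩
    | add a a' ha ha' =>
      obtain ⟨c, hc⟩ := ha
      obtain ⟨c', hc'⟩ := ha'
      exact ⟨c + c', by rw [map_add, map_add, star_add, hc, hc']⟩
    | single s x =>
      refine ⟨Finsupp.single s (conj x), ?_⟩
      rw [evC_single, evC_single, star_smul, star_cC]
      rfl

lemma trigAlg_sep : trigAlg.SeparatesPoints := by
  intro x y hxy
  obtain ⟨k, hk⟩ := Function.ne_iff.1 hxy
  refine ⟨cC (ev k), ⟨cC (ev k), ⟨Finsupp.single (ev k) 1, by rw [evC_single, one_smul]⟩, rfl⟩, ?_⟩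
  show sgn (x k) ≠ sgn (y k)
  intro h
  apply hk
  have : sgn (x k + y k) = 1 := by rw [sgn_add, h, sgn_mul_self]
  by_contra hne
  have h2 : x k + y k ≠ 0 := by
    intro h3
    apply hne
    have h4 := zmod2_add_self (y k)
    calc x k = x k + (y k + y k) := by rw [h4, add_zero]
      _ = y k := by rw [← add_assoc, h3, zero_add]
  rw [sgn_ne_one h2] at this
  norm_num at this

lemma dense_evC : DenseRange (evC (G := CG)) := by
  have h1 := ContinuousMap.starSubalgebra_topologicalClosure_eq_top_of_separatesPoints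
    trigAlg trigAlg_sep
  intro f
  have h2 : f ∈ (trigAlg.topologicalClosure : StarSubalgebra ℂ C(CG, ℂ)) := by
    rw [h1]; exact StarSubalgebra.mem_top
  exact h2

theorem dense_evL [MeasurableSpace CG] [BorelSpace CG] (μ : Measure CG) [IsProbabilityMeasure μ] :
    DenseRange (evL μ) := by
  have h1 : DenseRange (ContinuousMap.toLp 4 μ ℂ : C(CG, ℂ) → Lp ℂ 4 μ) :=
    ContinuousMap.toLp_denseRange ℂ μ ℂ (by norm_num)
  exact h1.comp dense_evC (ContinuousMap.toLp 4 μ ℂ).continuous

end Pool.Agent.H209.Cx
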