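import Pool.Agent.H209.Cx.Nonb
import Pool.Agent.H209.Cx.AbsSuper

/-!
# A character outside the cortex
-/

namespace Pool.Agent.H209.Cx

open MeasureTheory
open scoped ENNReal

set_option linter.unusedSectionVars false

variable [MeasurableSpace CG] [BorelSpace CG] (μ : Measure CG) [IsProbabilityMeasure μ]
  [μ.IsAddLeftInvariant]

lemma isClosed_mult : IsClosed ((Multipliers μ 4 : Subalgebra ℂ (Lp ℂ 4 μ →L[ℂ] Lp ℂ 4 μ)) :
    Set (Lp ℂ 4 μ →L[ℂ] Lp ℂ 4 μ)) := by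
  have h : ((Multipliers μ 4 : Subalgebra ℂ (Lp ℂ 4 μ →L[ℂ] Lp ℂ 4 μ)) :
    Set (Lp ℂ 4 μ →L[ℂ] Lp ℂ 4 μ)) = ⋂ g, ⋂ f, {T | translation μ 4 g (T f) = T (translation μ 4 g f)} := by
    ext T
    simp only [Set.mem_iInter]
    exact mem_multipliers μ T
  rw [h]
  refine isClosed_iInter fun g => isClosed_iInter fun f => isClosed_eq ?_ ?_
  · exact (translation μ 4 g).continuous.comp (ContinuousLinearMap.apply ℂ _ f).continuous
  · exact (ContinuousLinearMap.apply ℂ _ (translation μ 4 g f)).continuous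

lemma complete_mult : CompleteSpace (Multipliers μ 4) :=
  (isClosed_mult μ).completeSpace_coe

lemma nontriv : Nontrivial (Lp ℂ 4 μ) := ⟨⟨cL μ 0, 0, cL_ne_zero μ 0⟩⟩

lemma norm_one_mult : ‖(1 : Multipliers μ 4)‖ = 1 := by
  have := nontriv μ
  show ‖(1 : Lp ℂ 4 μ →L[ℂ] Lp ℂ 4 μ)‖ = 1
  exact norm_one

/-- the symbol at a point as a character -/
noncomputable def symHom (s : CG →ₜ+ ZMod 2) : Multipliers μ 4 →ₐ[ℂ] ℂ where
  toFun T := sym μ (dense_evL μ) T s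
  map_one' := by rw [sym_one]; rfl
  map_mul' S T := by rw [sym_mul]; rfl
  map_zero' := by
    have h := sym_add μ (dense_evL μ) 0 0
    rw [add_zero] at h
    have h2 := congrFun h s
    rw [Pi.add_apply] at h2
    have h3 : sym μ (dense_evL μ) 0 s + 0 = sym μ (dense_evL μ) 0 s + sym μ (dense_evL μ) 0 s := by
      rw [add_zero]; exact h2
    exact (add_left_cancel h3).symm
  map_add' S T := by rw [sym_add]; rfl
  commutes' c := by rw [sym_algebraMap]; rfl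

lemma symHom_apply (s : CG →ₜ+ ZMod 2) (T : Multipliers μ 4) :
    symHom μ s T = sym μ (dense_evL μ) T s := rfl

lemma X₁_line {s t : CG →ₜ+ ZMod 2} (hs : s ∈ EE) (ht : t ∈ EE) (h : p₂ t = p₂ s) :
    X₁ aa t = X₁ aa s := by
  obtain ⟨N, v, w, rfl⟩ := hs
  obtain ⟨M, v', w', rfl⟩ := ht
  obtain rfl := p₂_eq h
  rw [X₁_eC, X₁_eC, p₂_eq' h]

lemma X₂_line {s t : CG →ₜ+ ZMod 2} (hs : s ∈ EE) (ht : t ∈ EE) (h : p₁ t = p₁ s) :
    X₂ aa t = X₂ aa s := by
  obtain ⟨N, v, w, rfl⟩ := hs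
  obtain ⟨M, v', w', rfl⟩ := ht
  obtain rfl := p₁_eq h
  rw [X₂_eC, X₂_eC, p₁_eq' h]

lemma aux_im (N k : ℕ) : 2 / 51 ≤ ‖(N : ℂ)⁻¹ * k - aa‖ := by
  have h1 := Complex.abs_im_le_norm ((N : ℂ)⁻¹ * k - aa)
  have h2 : ((N : ℂ)⁻¹ * k - aa).im = -(2 / 51) := by
    have h3 : (N : ℂ)⁻¹ * k = (((N : ℝ)⁻¹ * k : ℝ) : ℂ) := by push_cast; rfl
    rw [h3, Complex.sub_im, Complex.ofReal_im, zero_sub]
    congr 1
    unfold aa
    simp
  rw [h2, abs_neg, abs_of_pos (by norm_num)] at h1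
  exact h1

lemma norm_X₁ {s : CG →ₜ+ ZMod 2} (hs : s ∈ EE) : 2 / 51 ≤ ‖X₁ aa s‖ := by
  obtain ⟨N, v, w, rfl⟩ := hs
  rw [X₁_eC]
  exact aux_im _ _

lemma norm_X₂ {s : CG →ₜ+ ZMod 2} (hs : s ∈ EE) : 2 / 51 ≤ ‖X₂ aa s‖ := by
  obtain ⟨N, v, w, rfl⟩ := hs
  rw [X₂_eC]
  exact aux_im _ _

open Classical in
/-- restatement of the grid theorem for elements of the algebra -/
lemma grid_alg (e : Multipliers μ 4) (he : sym μ (dense_evL μ) e = ind (· ∈ EE))
    (a : Multipliers μ 4) (c : ℝ) (hc : 0 ≤ c)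
    (h1 : ∀ s ∈ EE, ∃ a' : Multipliers μ 4, ‖a'‖ ≤ c ∧
      ∀ t ∈ EE, p₁ t = p₁ s → symHom μ t a = symHom μ t a')
    (h2 : ∀ s ∈ EE, ∃ a' : Multipliers μ 4, ‖a'‖ ≤ c ∧
      ∀ t ∈ EE, p₂ t = p₂ s → symHom μ t a = symHom μ t a') : ‖a * e‖ ≤ 3 * c := by
  refine norm_le_of_bound μ (dense_evL μ) (a * e) (3 * c) (by positivity) ?_
  intro f
  have e4 : sym μ (dense_evL μ) (a * e) = ind (· ∈ EE) * sym μ (dense_evL μ) a := by
    rw [sym_mul, he, mul_comm]
  rw [e4]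
  refine propM' μ EE p₁ p₂ grid_EE _ c hc ?_ ?_ f
  · intro f hf1 hf2
    rcases f.support.eq_empty_or_nonempty with h0 | ⟨s, hs⟩
    · rw [Finsupp.support_eq_empty] at h0
      subst h0
      simp
    · obtain ⟨a', ha', h⟩ := h1 s (hf1 s hs)
      have e5 : mulF (sym μ (dense_evL μ) a) f = mulF (sym μ (dense_evL μ) a') f :=
        mulF_congr _ _ f fun t ht => h t (hf1 t ht) (hf2 t ht s hs)
      rw [e5]
      refine (le_norm_bound μ (dense_evL μ) _ f).trans ?_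
      exact mul_le_mul_of_nonneg_right ha' (norm_nonneg _)
  · intro f hf1 hf2
    rcases f.support.eq_empty_or_nonempty with h0 | ⟨s, hs⟩
    · rw [Finsupp.support_eq_empty] at h0
      subst h0
      simp
    · obtain ⟨a', ha', h⟩ := h2 s (hf1 s hs)
      have e5 : mulF (sym μ (dense_evL μ) a) f = mulF (sym μ (dense_evL μ) a') f :=
        mulF_congr _ _ f fun t ht => h t (hf1 t ht) (hf2 t ht s hs)
      rw [e5]
      refine (le_norm_bound μ (dense_evL μ) _ f).trans ?_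
      exact mul_le_mul_of_nonneg_right ha' (norm_nonneg _)

/-- An isometric copy of the multiplier algebra as a commutative Banach algebra. -/
theorem exists_model : ∃ (A : Type) (_ : NormedCommRing A) (_ : NormedAlgebra ℂ A)
    (_ : CompleteSpace A) (F : Multipliers μ 4 →ₐ[ℂ] A) (F' : A →ₐ[ℂ] Multipliers μ 4),
    (∀ T, F' (F T) = T) ∧ (∀ a, F (F' a) = a) ∧ (∀ T : Multipliers μ 4, ‖F T‖ = ‖T‖) := by
  have := complete_mult μ
  obtain ⟨A, i1, i2, i3, E, hE⟩ := exists_copy (mult_comm μ (dense_evL μ))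
  exact ⟨A, i1, i2, i3, E.toAlgHom, E.symm.toAlgHom, E.symm_apply_apply, E.apply_symm_apply, hE⟩

open Classical in
/-- **Main theorem.** -/
theorem main : ∃ φ : Multipliers μ 4 →ₐ[ℂ] ℂ,
    ∃ (B : Type) (_ : NormedCommRing B) (_ : NormedAlgebra ℂ B) (_ : CompleteSpace B)
      (ι : Multipliers μ 4 →ₐ[ℂ] B), Isometry ι ∧ ∀ ψ : B →ₐ[ℂ] ℂ, ψ.comp ι ≠ φ := by
  obtain ⟨T₁, h₁⟩ := exists_x₁ μ aa
  obtain ⟨T₂, h₂⟩ := exists_x₂ μ aa
  obtain ⟨e, he, hen⟩ := exists_e μ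
  have hl₁ := fun s => exists_line μ p₁ p₂ grid_EE (p₁ s)
  have hl₂ := fun s => exists_line μ p₂ p₁ grid_EE.symm (p₂ s)
  choose E₁ hE₁ hE₁n using hl₁
  choose E₂ hE₂ hE₂n using hl₂
  obtain ⟨A, i1, i2, i3, F, F', hF'F, hFF', hF⟩ := exists_model μ
  have hone : NormOneClass A := ⟨by
    rw [← map_one F, hF]
    exact norm_one_mult μ⟩
  have hFs : ∀ a : A, ‖F' a‖ = ‖a‖ := by
    intro a
    rw [← hF, hFF']
  obtain ⟨χ, hχ, hχ'⟩ : ∃ χ : (CG →ₜ+ ZMod 2) → (A →ₐ[ℂ] ℂ),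
      (∀ s T, χ s (F T) = sym μ (dense_evL μ) T s) ∧
      (∀ s a, χ s a = sym μ (dense_evL μ) (F' a) s) :=
    ⟨fun s => (symHom μ s).comp F', fun s T => by
      show symHom μ s (F' (F T)) = _
      rw [hF'F]
      rfl, fun s a => rfl⟩
  obtain ⟨B, j1, j2, j3, ι, hι, y, hy⟩ := abs_super χ
    (by
      intro a b h
      have : F' a = F' b := by
        apply sym_ext μ (dense_evL μ)
        funext s
        rw [← hχ', ← hχ']
        exact h s
      rw [← hFF' a, ← hFF' b, this])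
    (by
      intro s a
      rw [hχ', ← hFs]
      exact norm_sym_le μ (dense_evL μ) _ s)
    EE 0 zero_notMem p₁ p₂ (F e)
    (by
      intro t
      rw [hχ, he]
      rfl)
    (by rw [hF]; exact hen)
    (fun s => F (E₁ s)) (fun s => F (E₂ s))
    (by
      intro s t
      rw [hχ, hE₁]
      rfl)
    (by intro s; rw [hF]; exact hE₁n s)
    (by
      intro s t
      rw [hχ, hE₂]
      rfl)
    (by intro s; rw [hF]; exact hE₂n s)
    (by
      intro a c hc q1 q2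
      have q3 : ‖F' a * e‖ ≤ 3 * c := by
        refine grid_alg μ e he (F' a) c hc ?_ ?_
        · intro s hs
          obtain ⟨a', ha', h⟩ := q1 s hs
          refine ⟨F' a', by rw [hFs]; exact ha', fun t ht hst => ?_⟩
          rw [symHom_apply, symHom_apply, ← hχ', ← hχ']
          exact h t ht hst
        · intro s hs
          obtain ⟨a', ha', h⟩ := q2 s hs
          refine ⟨F' a', by rw [hFs]; exact ha', fun t ht hst => ?_⟩
          rw [symHom_apply, symHom_apply, ← hχ', ← hχ']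
          exact h t ht hst
      rw [← hF, map_mul, hFF'] at q3
      exact q3)
    (X₁ aa) (X₂ aa) (F T₁) (F T₂)
    (by
      intro t
      rw [hχ, h₁, Pi.mul_apply]
      unfold ind
      split_ifs <;> simp)
    (by
      intro t
      rw [hχ, h₂, Pi.mul_apply]
      unfold ind
      split_ifs <;> simp)
    (fun s hs => norm_X₁ hs) (fun s hs => norm_X₂ hs)
    (fun s hs t ht h => X₁_line hs ht h) (fun s hs t ht h => X₂_line hs ht h)
  obtain ⟨φ, f1, f2, f3⟩ := exists_char (F T₁) (F T₂) (1 - F e) (by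
    intro a b c hR
    apply no_bezout μ (F' a) (F' b)
    intro N v w
    have h5 := congrArg (χ (eC N v w)) hR
    rw [map_add, map_add, map_mul, map_mul, map_mul, map_sub, map_one, hχ, hχ, hχ,
      h₁, h₂, he, Pi.mul_apply, Pi.mul_apply] at h5
    unfold ind at h5
    rw [if_pos (eC_mem N v w), X₁_eC, X₂_eC, hχ', hχ'] at h5
    rw [← h5]
    ring)
  refine ⟨φ.comp F, B, j1, j2, j3, ι.comp F, ?_, fun ψ hψ => ?_⟩
  · refine AddMonoidHomClass.isometry_of_norm _ fun T => ?_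
    show ‖ι (F T)‖ = ‖T‖
    rw [(AddMonoidHomClass.isometry_iff_norm ι).1 hι, hF]
  have g : ∀ a, ψ (ι a) = φ a := fun a => by
    have h6 : ψ (ι (F (F' a))) = φ (F (F' a)) := DFunLike.congr_fun hψ (F' a)
    rwa [hFF'] at h6
  have h9 := congrArg ψ hy
  rw [map_add, map_add, map_mul, map_mul, map_mul, map_one, g, g, g, f1, f2, f3] at h9
  simp at h9

end Pool.Agent.H209.Cx
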