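import Pool.Agent.H209.Cx.Mult
import Pool.Agent.H209.Cx.Cross

/-!
# The line functionals
-/

namespace Pool.Agent.H209.Cx

open MeasureTheory
open scoped ENNReal ComplexConjugate

set_option linter.unusedSectionVars false

lemma sum_prod {R : Type*} [CommSemiring R] {N : ℕ} (A B : Fin N → R) :
    ∑ v : Fin N → ZMod 2, ∏ i, (if v i = 0 then A i else B i) = ∏ i, (A i + B i) := by
  have h : ∀ i, A i + B i = ∑ a : ZMod 2, if a = 0 then A i else B i := by
    intro i
    rw [show (Finset.univ : Finset (ZMod 2)) = {0, 1} from rfl, Finset.sum_pair (by decide)]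
    simp
  simp_rw [h]
  rw [Finset.prod_univ_sum, Fintype.piFinset_univ]

/-- product weights -/
noncomputable def bw {N : ℕ} (x y : ℂ) (v : Fin N → ZMod 2) : ℂ := ∏ i, if v i = 0 then x else y

lemma sum_bw {N : ℕ} (x y : ℂ) : ∑ v : Fin N → ZMod 2, bw x y v = (x + y) ^ N := by
  unfold bw
  rw [sum_prod (fun _ => x) (fun _ => y), Finset.prod_const, Finset.card_univ, Fintype.card_fin]

lemma bw_mul {N : ℕ} (x y x' y' : ℂ) (v : Fin N → ZMod 2) :
    bw x y v * bw x' y' v = bw (x * x') (y * y') v := by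
  unfold bw
  rw [← Finset.prod_mul_distrib]
  refine Finset.prod_congr rfl fun i _ => ?_
  split_ifs <;> rfl

lemma conj_bw {N : ℕ} (x y : ℂ) (v : Fin N → ZMod 2) : conj (bw x y v) = bw (conj x) (conj y) v := by
  unfold bw
  rw [map_prod]
  refine Finset.prod_congr rfl fun i _ => ?_
  split_ifs <;> rfl

lemma bw_smul {N : ℕ} (q x y : ℂ) (v : Fin N → ZMod 2) :
    bw (q * x) (q * y) v = q ^ N * bw x y v := by
  rw [← bw_mul]
  congr 1
  unfold bw
  simp

lemma bw_eq {N : ℕ} (x y : ℂ) (v : Fin N → ZMod 2) : bw x y v = y ^ wt v * x ^ (N - wt v) := by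
  unfold bw wt
  rw [Finset.prod_ite, Finset.prod_const, Finset.prod_const, mul_comm]
  congr 2
  have := Finset.card_filter_add_card_filter_not (s := (Finset.univ : Finset (Fin N))) (fun i => v i = 0)
  rw [Finset.card_univ, Fintype.card_fin] at this
  have h2 : (Finset.univ.filter fun i : Fin N => v i ≠ 0)
    = (Finset.univ.filter fun i : Fin N => ¬ v i = 0) := rfl
  rw [h2]
  omega

lemma wt_le {N : ℕ} (v : Fin N → ZMod 2) : wt v ≤ N := by
  unfold wt
  exact (Finset.card_filter_le _ _).trans (by simp)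

variable {G : Type*} [AddCommGroup G] [TopologicalSpace G]
  [IsTopologicalAddGroup G] [CompactSpace G] [MeasurableSpace G] [BorelSpace G]
  (μ : Measure G) [IsProbabilityMeasure μ] [μ.IsAddLeftInvariant]

section Line

variable {N : ℕ} (c0 : G →ₜ+ ZMod 2) (d : Fin N → (G →ₜ+ ZMod 2))
  (c : (Fin N → ZMod 2) → (G →ₜ+ ZMod 2)) (hc : ∀ v x, c v x = c0 x + ∑ i, v i * d i x)
  (hinj : Function.Injective c)

include hc in
lemma chi_line (v : Fin N → ZMod 2) (x : G) :
    chi (c v) x = chi c0 x * ∏ i, (if v i = 0 then 1 else chi (d i) x) := by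
  unfold chi
  rw [hc, sgn_add, sgn_sum]
  congr 1
  refine Finset.prod_congr rfl fun i _ => ?_
  split_ifs with h
  · rw [h, zero_mul, sgn_zero]
  · rcases zz (v i) with h' | h'
    · exact absurd h' h
    · rw [h', one_mul]

include hc in
lemma tp_line (α β : ℂ) (x : G) :
    ∑ v, bw α β v * chi (c v) x = chi c0 x * ∏ i, (α + β * chi (d i) x) := by
  rw [← sum_prod (fun _ => α) (fun i => β * chi (d i) x), Finset.mul_sum]
  refine Finset.sum_congr rfl fun v _ => ?_
  rw [chi_line c0 d c hc, mul_left_comm]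
  congr 1
  unfold bw
  rw [← Finset.prod_mul_distrib]
  refine Finset.prod_congr rfl fun i _ => ?_
  split_ifs
  · rw [mul_one]
  · rfl

include hinj in
lemma integral_line (a b : (Fin N → ZMod 2) → ℂ) :
    ∫ x, (∑ v, a v * chi (c v) x) * conj (∑ v, b v * chi (c v) x) ∂μ = ∑ v, a v * conj (b v) := by
  classical
  rw [integral_sum_sum]
  refine Finset.sum_congr rfl fun v _ => ?_
  rw [Finset.sum_eq_single v]
  · simp
  · intro w _ hw
    rw [if_neg (fun h => hw (hinj h).symm), mul_zero]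
  · intro h
    exact absurd (Finset.mem_univ v) h

/-- pointwise relation between the function and its dual function -/
lemma factor (z : ℂ) (hz : ‖z‖ = 1 / 2) (ξ : ℂ) (hξ : ξ = 1 ∨ ξ = -1) :
    (1 + z / 4) / 2 + (1 - z / 4) / 2 * ξ
      = (‖(1 + z) / 2 + (1 - z) / 2 * ξ‖ : ℂ) ^ 2 * ((1 + z) / 2 + (1 - z) / 2 * ξ) := by
  rcases hξ with rfl | rfl
  · have : (1 + z) / 2 + (1 - z) / 2 * 1 = 1 := by ring
    rw [this, norm_one]
    push_cast
    ring
  · have : (1 + z) / 2 + (1 - z) / 2 * -1 = z := by ring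
    rw [this, hz]
    push_cast
    ring

lemma chi_cases (s : G →ₜ+ ZMod 2) (x : G) : chi s x = 1 ∨ chi s x = -1 := by
  unfold chi sgn
  split_ifs
  · exact Or.inl rfl
  · exact Or.inr rfl

lemma dual_pt (z : ℂ) (hz : ‖z‖ = 1 / 2) (x : G) :
    chi c0 x * ∏ i, ((1 + z / 4) / 2 + (1 - z / 4) / 2 * chi (d i) x)
      = (‖chi c0 x * ∏ i, ((1 + z) / 2 + (1 - z) / 2 * chi (d i) x)‖ : ℂ) ^ 2
        * (chi c0 x * ∏ i, ((1 + z) / 2 + (1 - z) / 2 * chi (d i) x)) := by
  have h1 : ∏ i, ((1 + z / 4) / 2 + (1 - z / 4) / 2 * chi (d i) x)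
      = ∏ i, ((‖(1 + z) / 2 + (1 - z) / 2 * chi (d i) x‖ : ℂ) ^ 2
        * ((1 + z) / 2 + (1 - z) / 2 * chi (d i) x)) :=
    Finset.prod_congr rfl fun i _ => factor z hz _ (chi_cases _ _)
  rw [h1, norm_mul, norm_chi, one_mul, norm_prod, Finset.prod_mul_distrib, Finset.prod_pow]
  push_cast
  ring

lemma young (u w ρ : ℝ) (hρ : 0 < ρ) :
    u * w ^ 3 ≤ (u ^ 4 + 3 * ρ ^ 4 * w ^ 4) / (4 * ρ ^ 3) := by
  rw [le_div_iff₀ (by positivity)]
  have h := mul_nonneg (sq_nonneg (u - ρ * w)) (show 0 ≤ (u + ρ * w) ^ 2 + 2 * (ρ * w) ^ 2 by positivity)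
  nlinarith

include hc hinj in
/-- **The line functional.** -/
theorem line_func (hd : DenseRange (evL μ)) (T : Multipliers μ 4) (ρ : ℝ) (hρ : 0 < ρ)
    (hT : ‖T‖ ≤ ρ) (l : ℂ) (hl : l.re = Real.log 2) :
    ‖∑ v, sym μ hd T (c v) * bw (1 - th l) (th l) v‖ ≤ ρ := by
  classical
  set z : ℂ := Complex.exp l / 4 with hzdef
  have hz : ‖z‖ = 1 / 2 := by
    rw [hzdef, norm_div, Complex.norm_exp, hl, Real.exp_log (by norm_num)]
    norm_num
  have hzz : z * conj z = 1 / 4 := by
    rw [Complex.mul_conj, Complex.normSq_eq_norm_sq, hz]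
    push_cast
    norm_num
  have hz0 : z ≠ 0 := by
    intro h
    rw [h, norm_zero] at hz
    norm_num at hz
  have hcz : conj z = Complex.exp (-l) := by
    apply mul_left_cancel₀ hz0
    rw [hzz, hzdef, div_mul_eq_mul_div, ← Complex.exp_add, add_neg_cancel, Complex.exp_zero]
  have hcosh : Complex.cosh l = (4 * z + conj z) / 2 := by
    rw [hcz, hzdef]
    have : Complex.cosh l = (Complex.exp l + Complex.exp (-l)) / 2 := rfl
    rw [this]
    ring
  have hq1 : (1 - z) / 2 * conj ((1 - z / 4) / 2) = 17 / 32 * th l := by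
    unfold th
    rw [hcosh]
    simp only [map_div₀, map_sub, map_one, map_ofNat]
    linear_combination (1 / 16 : ℂ) * hzz
  have hq0 : (1 + z) / 2 * conj ((1 + z / 4) / 2) = 17 / 32 * (1 - th l) := by
    unfold th
    rw [hcosh]
    simp only [map_div₀, map_add, map_one, map_ofNat]
    linear_combination (1 / 16 : ℂ) * hzz
  -- the test functions
  set Tf : Finset (G →ₜ+ ZMod 2) := Finset.univ.map ⟨c, hinj⟩ with hTf
  set A : (G →ₜ+ ZMod 2) → ℂ := Function.extend c (bw ((1 + z) / 2) ((1 - z) / 2)) 0 with hA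
  have hAc : ∀ v, A (c v) = bw ((1 + z) / 2) ((1 - z) / 2) v := fun v => hinj.extend_apply _ _ v
  set r := sym μ hd T with hr
  have hF : ∀ x, tp A Tf x = ∑ v, bw ((1 + z) / 2) ((1 - z) / 2) v * chi (c v) x := by
    intro x
    unfold tp
    rw [hTf, Finset.sum_map]
    refine Finset.sum_congr rfl fun v _ => ?_
    show A (c v) * chi (c v) x = _
    rw [hAc]
  have hRF : ∀ x, tp (r * A) Tf x
      = ∑ v, (r (c v) * bw ((1 + z) / 2) ((1 - z) / 2) v) * chi (c v) x := by
    intro x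
    unfold tp
    rw [hTf, Finset.sum_map]
    refine Finset.sum_congr rfl fun v _ => ?_
    show r (c v) * A (c v) * chi (c v) x = _
    rw [hAc]
  set Gf : G → ℂ := fun x => ∑ v, bw ((1 + z / 4) / 2) ((1 - z / 4) / 2) v * chi (c v) x with hGf
  have hGF : ∀ x, Gf x = (‖tp A Tf x‖ : ℂ) ^ 2 * tp A Tf x := by
    intro x
    rw [hF, hGf]
    simp only
    rw [tp_line c0 d c hc, tp_line c0 d c hc]
    exact dual_pt c0 d z hz x
  have hbound : I4 μ (r * A) Tf ≤ ρ ^ 4 * I4 μ A Tf := by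
    rw [← norm_evL_rs, ← norm_evL_rs, ← mulF_rs, ← mul_pow]
    have := le_norm_bound μ hd T (rs A Tf)
    have h2 : ‖T‖ * ‖evL μ (rs A Tf)‖ ≤ ρ * ‖evL μ (rs A Tf)‖ := by gcongr
    have h3 := this.trans h2
    gcongr
  have hI1 : ∫ x, tp A Tf x * conj (Gf x) ∂μ = (17 / 32 : ℂ) ^ N := by
    have h1 : ∫ x, tp A Tf x * conj (Gf x) ∂μ
        = ∑ v : Fin N → ZMod 2, bw ((1 + z) / 2) ((1 - z) / 2) v
            * conj (bw ((1 + z / 4) / 2) ((1 - z / 4) / 2) v) := by
      rw [← integral_line μ c hinj]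
      refine integral_congr_ae (Filter.Eventually.of_forall fun x => ?_)
      simp only [hF, hGf]
    rw [h1]
    simp_rw [conj_bw, bw_mul]
    rw [sum_bw, hq0, hq1]
    congr 1
    ring
  have hI2 : ∫ x, tp (r * A) Tf x * conj (Gf x) ∂μ
      = (17 / 32 : ℂ) ^ N * ∑ v, r (c v) * bw (1 - th l) (th l) v := by
    have h1 : ∫ x, tp (r * A) Tf x * conj (Gf x) ∂μ
        = ∑ v, (r (c v) * bw ((1 + z) / 2) ((1 - z) / 2) v)
            * conj (bw ((1 + z / 4) / 2) ((1 - z / 4) / 2) v) := by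
      rw [← integral_line μ c hinj]
      refine integral_congr_ae (Filter.Eventually.of_forall fun x => ?_)
      simp only [hRF, hGf]
    rw [h1, Finset.mul_sum]
    refine Finset.sum_congr rfl fun v _ => ?_
    rw [conj_bw, mul_assoc, bw_mul, hq0, hq1, bw_smul]
    ring
  have hI4 : I4 μ A Tf = (17 / 32 : ℝ) ^ N := by
    have h1 : ((I4 μ A Tf : ℝ) : ℂ) = (17 / 32 : ℂ) ^ N := by
      rw [← hI1]
      unfold I4
      rw [← integral_complex_ofReal]
      refine integral_congr_ae (Filter.Eventually.of_forall fun x => ?_)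
      simp only
      rw [hGF]
      unfold sq
      have h2 := Complex.mul_conj (tp A Tf x)
      rw [Complex.normSq_eq_norm_sq] at h2
      simp only [map_mul, map_pow, Complex.conj_ofReal]
      push_cast at h2 ⊢
      linear_combination (-(‖tp A Tf x‖ : ℂ) ^ 2) * h2
    have h2 : ((I4 μ A Tf : ℝ) : ℂ) = (((17 / 32 : ℝ) ^ N : ℝ) : ℂ) := by
      rw [h1]; push_cast; rfl
    exact_mod_cast h2
  have hcA := continuous_tp A Tf
  have hcrA := continuous_tp (r * A) Tf
  have hmain : ‖∫ x, tp (r * A) Tf x * conj (Gf x) ∂μ‖ ≤ ρ * I4 μ A Tf := by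
    have h1 : ‖∫ x, tp (r * A) Tf x * conj (Gf x) ∂μ‖
        ≤ ∫ x, (sq (r * A) Tf x ^ 2 + 3 * ρ ^ 4 * sq A Tf x ^ 2) / (4 * ρ ^ 3) ∂μ := by
      refine norm_integral_le_of_norm_le ?_ (Filter.Eventually.of_forall fun x => ?_)
      · apply integrable_of_cont
        have := continuous_sq A Tf
        have := continuous_sq (r * A) Tf
        fun_prop
      · rw [norm_mul, RCLike.norm_conj, hGF, norm_mul, norm_pow, Complex.norm_real, norm_norm]
        have := young ‖tp (r * A) Tf x‖ ‖tp A Tf x‖ ρ hρ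
        unfold sq
        calc ‖tp (r * A) Tf x‖ * (‖tp A Tf x‖ ^ 2 * ‖tp A Tf x‖)
            = ‖tp (r * A) Tf x‖ * ‖tp A Tf x‖ ^ 3 := by ring
          _ ≤ _ := this
          _ = _ := by ring
    refine h1.trans ?_
    rw [integral_div, integral_add, integral_const_mul]
    · show (I4 μ (r * A) Tf + 3 * ρ ^ 4 * I4 μ A Tf) / (4 * ρ ^ 3) ≤ _
      rw [div_le_iff₀ (by positivity)]
      nlinarith
    · exact integrable_of_cont μ _ ((continuous_sq _ _).pow 2)
    · exact (integrable_of_cont μ _ ((continuous_sq _ _).pow 2)).const_mul _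
  rw [hI2, norm_mul, hI4] at hmain
  have h17 : ‖(17 / 32 : ℂ) ^ N‖ = (17 / 32 : ℝ) ^ N := by
    rw [norm_pow]
    congr 1
    simp
  rw [h17, mul_comm ρ] at hmain
  exact le_of_mul_le_mul_left hmain (by positivity)

end Line

end Pool.Agent.H209.Cx
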