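import Pool.Agent.H209.Cx.Trig

/-!
# The `L⁴` inequalities for trigonometric polynomials on a grid of characters
-/

namespace Pool.Agent.H209.Cx

open MeasureTheory
open scoped ENNReal ComplexConjugate

set_option linter.unusedSectionVars false

variable {G : Type*} [AddCommGroup G] [TopologicalSpace G]
  [IsTopologicalAddGroup G] [CompactSpace G] [MeasurableSpace G] [BorelSpace G]
  (μ : Measure G) [IsProbabilityMeasure μ] [μ.IsAddLeftInvariant]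

/-- Trigonometric polynomial. -/
noncomputable def tp (a : (G →ₜ+ ZMod 2) → ℂ) (T : Finset (G →ₜ+ ZMod 2)) (x : G) : ℂ :=
  ∑ s ∈ T, a s * chi s x

lemma continuous_tp (a : (G →ₜ+ ZMod 2) → ℂ) (T : Finset (G →ₜ+ ZMod 2)) :
    Continuous (tp a T) :=
  continuous_finsetSum _ fun s _ => continuous_const.mul (continuous_chi s)

/-- squared modulus -/
noncomputable def sq (a : (G →ₜ+ ZMod 2) → ℂ) (T : Finset (G →ₜ+ ZMod 2)) (x : G) : ℝ :=
  ‖tp a T x‖ ^ 2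

lemma continuous_sq (a : (G →ₜ+ ZMod 2) → ℂ) (T : Finset (G →ₜ+ ZMod 2)) :
    Continuous (sq a T) := (continuous_tp a T).norm.pow 2

/-- squared ℓ² norm of the coefficients -/
noncomputable def ms (a : (G →ₜ+ ZMod 2) → ℂ) (T : Finset (G →ₜ+ ZMod 2)) : ℝ :=
  ∑ s ∈ T, ‖a s‖ ^ 2

lemma ms_nonneg (a : (G →ₜ+ ZMod 2) → ℂ) (T : Finset (G →ₜ+ ZMod 2)) : 0 ≤ ms a T :=
  Finset.sum_nonneg fun _ _ => by positivity

section
variable [DecidableEq (G →ₜ+ ZMod 2)]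

/-- sum over the off-diagonal pairs in a set of pairs -/
noncomputable def off (a : (G →ₜ+ ZMod 2) → ℂ) (Q : Finset ((G →ₜ+ ZMod 2) × (G →ₜ+ ZMod 2)))
    (x : G) : ℂ :=
  ∑ q ∈ Q, (a q.1 * conj (a q.2)) * chi (q.1 + q.2) x

lemma continuous_off (a : (G →ₜ+ ZMod 2) → ℂ)
    (Q : Finset ((G →ₜ+ ZMod 2) × (G →ₜ+ ZMod 2))) : Continuous (off a Q) :=
  continuous_finsetSum _ fun _ _ => continuous_const.mul (continuous_chi _)

lemma sq_eq (a : (G →ₜ+ ZMod 2) → ℂ) (T : Finset (G →ₜ+ ZMod 2)) (x : G) :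
    (sq a T x : ℂ) = ms a T + off a T.offDiag x := by
  have h1 : (sq a T x : ℂ) = tp a T x * conj (tp a T x) := by
    rw [Complex.mul_conj, sq, Complex.normSq_eq_norm_sq]
  rw [h1]
  unfold tp off ms
  rw [map_sum, Finset.sum_mul_sum, ← Finset.sum_product', ← Finset.diag_union_offDiag,
    Finset.sum_union (Finset.disjoint_diag_offDiag T)]
  congr 1
  · rw [Finset.sum_diag]
    push_cast
    refine Finset.sum_congr rfl fun s _ => ?_
    rw [map_mul, conj_chi]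
    have : a s * chi s x * (conj (a s) * chi s x) = (a s * conj (a s)) * (chi s x * chi s x) := by
      ring
    rw [this, chi_mul_self, mul_one, Complex.mul_conj, Complex.normSq_eq_norm_sq]
    push_cast
    ring
  · refine Finset.sum_congr rfl fun q _ => ?_
    rw [map_mul, conj_chi, chi_add]
    ring

/-- The mean zero part of the squared modulus. -/
noncomputable def hh (a : (G →ₜ+ ZMod 2) → ℂ) (T : Finset (G →ₜ+ ZMod 2)) (x : G) : ℝ :=
  sq a T x - ms a T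

lemma continuous_hh (a : (G →ₜ+ ZMod 2) → ℂ) (T : Finset (G →ₜ+ ZMod 2)) :
    Continuous (hh a T) := (continuous_sq a T).sub continuous_const

lemma hh_eq (a : (G →ₜ+ ZMod 2) → ℂ) (T : Finset (G →ₜ+ ZMod 2)) (x : G) :
    (hh a T x : ℂ) = off a T.offDiag x := by
  unfold hh
  push_cast
  rw [sq_eq]
  ring

lemma integral_off_off (a b : (G →ₜ+ ZMod 2) → ℂ)
    (Q Q' : Finset ((G →ₜ+ ZMod 2) × (G →ₜ+ ZMod 2))) :
    ∫ x, off a Q x * conj (off b Q' x) ∂μ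
      = ∑ q ∈ Q, ∑ q' ∈ Q', (a q.1 * conj (a q.2)) * conj (b q'.1 * conj (b q'.2)) *
        (if q.1 + q.2 = q'.1 + q'.2 then 1 else 0) :=
  integral_sum_sum μ Q Q' _ _ _ _

lemma integral_off (a : (G →ₜ+ ZMod 2) → ℂ)
    (Q : Finset ((G →ₜ+ ZMod 2) × (G →ₜ+ ZMod 2))) (hQ : ∀ q ∈ Q, q.1 ≠ q.2) :
    ∫ x, off a Q x ∂μ = 0 := by
  unfold off
  rw [integral_finsetSum]
  · refine Finset.sum_eq_zero fun q hq => ?_
    rw [integral_const_mul, integral_chi, if_neg, mul_zero]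
    rw [add_eq_zero_iff]
    exact hQ q hq
  · intro q _
    exact (integrable_of_cont μ _ (continuous_chi _)).const_mul _

lemma integral_hh (a : (G →ₜ+ ZMod 2) → ℂ) (T : Finset (G →ₜ+ ZMod 2)) :
    ∫ x, hh a T x ∂μ = 0 := by
  have h : ((∫ x, hh a T x ∂μ : ℝ) : ℂ) = 0 := by
    rw [← integral_complex_ofReal]
    simp_rw [hh_eq]
    exact integral_off μ a _ fun q hq => (Finset.mem_offDiag.1 hq).2.2
  exact_mod_cast h

lemma integral_sq (a : (G →ₜ+ ZMod 2) → ℂ) (T : Finset (G →ₜ+ ZMod 2)) :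
    ∫ x, sq a T x ∂μ = ms a T := by
  have h1 := integral_hh μ a T
  unfold hh at h1
  rw [integral_sub (integrable_of_cont μ _ (continuous_sq a T)) (integrable_const _)] at h1
  simp at h1
  linarith

lemma integral_hh_mul (a : (G →ₜ+ ZMod 2) → ℂ) (T T' : Finset (G →ₜ+ ZMod 2))
    (h : ∀ s ∈ T, ∀ t ∈ T, ∀ u ∈ T', ∀ v ∈ T', s ≠ t → s + t ≠ u + v) :
    ∫ x, hh a T x * hh a T' x ∂μ = 0 := by
  have h1 : ((∫ x, hh a T x * hh a T' x ∂μ : ℝ) : ℂ) = 0 := by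
    rw [← integral_complex_ofReal]
    have : ∀ x, ((hh a T x * hh a T' x : ℝ) : ℂ) = off a T.offDiag x * conj (off a T'.offDiag x) := by
      intro x
      rw [← hh_eq, ← hh_eq, Complex.conj_ofReal]
      push_cast
      ring
    simp_rw [this]
    rw [integral_off_off]
    refine Finset.sum_eq_zero fun q hq => Finset.sum_eq_zero fun q' hq' => ?_
    rw [if_neg, mul_zero]
    obtain ⟨h1, h2, h3⟩ := Finset.mem_offDiag.1 hq
    obtain ⟨h4, h5, h6⟩ := Finset.mem_offDiag.1 hq'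
    exact h _ h1 _ h2 _ h4 _ h5 h3
  exact_mod_cast h1

lemma integral_sq_sq (a : (G →ₜ+ ZMod 2) → ℂ) (T : Finset (G →ₜ+ ZMod 2)) :
    ∫ x, sq a T x ^ 2 ∂μ = ∫ x, hh a T x ^ 2 ∂μ + ms a T ^ 2 := by
  have h0 : ∀ x, sq a T x ^ 2 = hh a T x ^ 2 + (2 * ms a T * hh a T x + ms a T ^ 2) := by
    intro x; unfold hh; ring
  have i1 : Integrable (fun x => hh a T x ^ 2) μ :=
    integrable_of_cont μ _ ((continuous_hh a T).pow 2)
  have i2 : Integrable (fun x => 2 * ms a T * hh a T x) μ :=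
    (integrable_of_cont μ _ (continuous_hh a T)).const_mul (2 * ms a T)
  have i3 : Integrable (fun _ : G => ms a T ^ 2) μ := integrable_const _
  have i4 : Integrable (fun x => 2 * ms a T * hh a T x + ms a T ^ 2) μ := i2.add i3
  simp_rw [h0]
  rw [integral_add i1 i4, integral_add i2 i3, integral_const_mul, integral_hh]
  simp

lemma integral_hh_sq_le (a : (G →ₜ+ ZMod 2) → ℂ) (T : Finset (G →ₜ+ ZMod 2)) :
    ∫ x, hh a T x ^ 2 ∂μ ≤ ∫ x, sq a T x ^ 2 ∂μ := by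
  rw [integral_sq_sq]
  nlinarith [sq_nonneg (ms a T)]

lemma ms_sq_le (a : (G →ₜ+ ZMod 2) → ℂ) (T : Finset (G →ₜ+ ZMod 2)) :
    ms a T ^ 2 ≤ ∫ x, sq a T x ^ 2 ∂μ := by
  rw [integral_sq_sq]
  have : 0 ≤ ∫ x, hh a T x ^ 2 ∂μ := integral_nonneg fun x => sq_nonneg _
  linarith

/-- Sums over orthogonal families of lines. -/
lemma integral_sum_hh_sq {Λ : Type*} [DecidableEq Λ] (a : (G →ₜ+ ZMod 2) → ℂ) (L : Finset Λ)
    (T : Λ → Finset (G →ₜ+ ZMod 2))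
    (h : ∀ ℓ ∈ L, ∀ ℓ' ∈ L, ℓ ≠ ℓ' →
      ∀ s ∈ T ℓ, ∀ t ∈ T ℓ, ∀ u ∈ T ℓ', ∀ v ∈ T ℓ', s ≠ t → s + t ≠ u + v) :
    ∫ x, (∑ ℓ ∈ L, hh a (T ℓ) x) ^ 2 ∂μ = ∑ ℓ ∈ L, ∫ x, hh a (T ℓ) x ^ 2 ∂μ := by
  have h1 : ∀ x, (∑ ℓ ∈ L, hh a (T ℓ) x) ^ 2 =
      ∑ ℓ ∈ L, ∑ ℓ' ∈ L, hh a (T ℓ) x * hh a (T ℓ') x := by
    intro x
    rw [pow_two, Finset.sum_mul_sum]
  simp_rw [h1]
  have hi : ∀ ℓ ℓ', Integrable (fun x => hh a (T ℓ) x * hh a (T ℓ') x) μ := fun ℓ ℓ' =>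
    integrable_of_cont μ _ ((continuous_hh a _).mul (continuous_hh a _))
  rw [integral_finsetSum _ fun ℓ _ => integrable_finsetSum _ fun ℓ' _ => hi ℓ ℓ']
  refine Finset.sum_congr rfl fun ℓ hℓ => ?_
  rw [integral_finsetSum _ fun ℓ' _ => hi ℓ ℓ', Finset.sum_eq_single ℓ]
  · simp_rw [pow_two]
  · intro ℓ' hℓ' hne
    exact integral_hh_mul μ a _ _ (h ℓ hℓ ℓ' hℓ' (Ne.symm hne))
  · intro h; exact absurd hℓ h

end

end Pool.Agent.H209.Cx
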