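import Pool.Agent.H209.Cx.Grid

/-!
# The two `L⁴` inequalities for lines
-/

namespace Pool.Agent.H209.Cx

open MeasureTheory
open scoped ENNReal ComplexConjugate

set_option linter.unusedSectionVars false

variable {G : Type*} [AddCommGroup G] [TopologicalSpace G]
  [IsTopologicalAddGroup G] [CompactSpace G] [MeasurableSpace G] [BorelSpace G]
  (μ : Measure G) [IsProbabilityMeasure μ] [μ.IsAddLeftInvariant]
  [DecidableEq (G →ₜ+ ZMod 2)]

lemma tp_cube (a : (G →ₜ+ ZMod 2) → ℂ) (T : Finset (G →ₜ+ ZMod 2)) (x : G) :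
    tp a T x * conj (tp a T x) * tp a T x
      = ∑ q ∈ (T ×ˢ T) ×ˢ T, (a q.1.1 * conj (a q.1.2) * a q.2) * chi (q.1.1 + q.1.2 + q.2) x := by
  rw [Finset.sum_product, Finset.sum_product]
  unfold tp
  rw [map_sum, Finset.sum_mul_sum, Finset.sum_mul]
  refine Finset.sum_congr rfl fun s _ => ?_
  rw [Finset.sum_mul]
  refine Finset.sum_congr rfl fun t _ => ?_
  rw [Finset.mul_sum]
  refine Finset.sum_congr rfl fun u _ => ?_
  rw [map_mul, conj_chi, chi_add, chi_add]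
  ring

lemma integral_cross (a : (G →ₜ+ ZMod 2) → ℂ) (T R : Finset (G →ₜ+ ZMod 2))
    (h : ∀ s ∈ T, ∀ t ∈ T, ∀ u ∈ T, s + t + u ∉ R) :
    ∫ x, sq a T x * (tp a T x * conj (tp a R x)).re ∂μ = 0 := by
  have h1 : ∫ x, (tp a T x * conj (tp a T x) * tp a T x) * conj (tp a R x) ∂μ = 0 := by
    simp_rw [tp_cube]
    have h2 := integral_sum_sum μ ((T ×ˢ T) ×ˢ T) R
      (fun q => (a q.1.1 * conj (a q.1.2) * a q.2)) a (fun q => q.1.1 + q.1.2 + q.2) id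
    unfold tp
    simp only [id] at h2
    rw [h2]
    refine Finset.sum_eq_zero fun q hq => Finset.sum_eq_zero fun v hv => ?_
    rw [if_neg, mul_zero]
    intro he
    rw [Finset.mem_product, Finset.mem_product] at hq
    exact h _ hq.1.1 _ hq.1.2 _ hq.2 (he ▸ hv)
  have hi : Integrable (fun x => (tp a T x * conj (tp a T x) * tp a T x) * conj (tp a R x)) μ := by
    apply integrable_of_cont
    have h1 := continuous_tp a T
    have h2 := continuous_tp a R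
    fun_prop
  have h3 := integral_re (𝕜 := ℂ) hi
  have h4 : ∀ x, RCLike.re ((tp a T x * conj (tp a T x) * tp a T x) * conj (tp a R x))
      = sq a T x * (tp a T x * conj (tp a R x)).re := by
    intro x
    have : (tp a T x * conj (tp a T x) * tp a T x) * conj (tp a R x)
        = ((sq a T x : ℝ) : ℂ) * (tp a T x * conj (tp a R x)) := by
      rw [Complex.mul_conj, sq, Complex.normSq_eq_norm_sq]
      ring
    rw [this]
    simp
  simp_rw [h4] at h3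
  rw [h3, h1]
  simp

lemma integral_proj (a : (G →ₜ+ ZMod 2) → ℂ) (T S : Finset (G →ₜ+ ZMod 2)) (hTS : T ⊆ S)
    (h : ∀ s ∈ T, ∀ t ∈ T, ∀ u ∈ T, s + t + u ∈ S → s + t + u ∈ T) :
    ∫ x, sq a T x ^ 2 ∂μ ≤ ∫ x, sq a T x * sq a S x ∂μ := by
  have h0 : ∀ x, tp a S x = tp a T x + tp a (S \ T) x := by
    intro x
    unfold tp
    rw [add_comm, Finset.sum_sdiff hTS]
  have h1 : ∀ x, sq a T x * sq a S x = sq a T x ^ 2 + (sq a T x * sq a (S \ T) x +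
      2 * (sq a T x * (tp a T x * conj (tp a (S \ T) x)).re)) := by
    intro x
    have : sq a S x = sq a T x + sq a (S \ T) x + 2 * (tp a T x * conj (tp a (S \ T) x)).re := by
      unfold sq
      rw [h0, ← Complex.normSq_eq_norm_sq, ← Complex.normSq_eq_norm_sq, ← Complex.normSq_eq_norm_sq,
        Complex.normSq_add]
    rw [this]
    ring
  have c1 := continuous_tp a T
  have c2 := continuous_tp a (S \ T)
  have c3 := continuous_sq a T
  have c4 := continuous_sq a (S \ T)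
  have i1 : Integrable (fun x => sq a T x ^ 2) μ := integrable_of_cont μ _ (by fun_prop)
  have i2 : Integrable (fun x => sq a T x * sq a (S \ T) x) μ :=
    integrable_of_cont μ _ (by fun_prop)
  have i3 : Integrable (fun x => 2 * (sq a T x * (tp a T x * conj (tp a (S \ T) x)).re)) μ :=
    integrable_of_cont μ _ (by fun_prop)
  have i4 : Integrable (fun x => sq a T x * sq a (S \ T) x +
      2 * (sq a T x * (tp a T x * conj (tp a (S \ T) x)).re)) μ := i2.add i3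
  simp_rw [h1]
  rw [integral_add i1 i4, integral_add i2 i3, integral_const_mul, integral_cross]
  · have : 0 ≤ ∫ x, sq a T x * sq a (S \ T) x ∂μ := integral_nonneg fun x => by
      unfold sq; positivity
    linarith
  · intro s hs t ht u hu hn
    rw [Finset.mem_sdiff] at hn
    exact hn.2 (h s hs t ht u hu hn.1)

/-- First inequality: the sum of the fourth powers of the projections to the lines of one
direction. -/
theorem lineA {Λ : Type*} [DecidableEq Λ] (a : (G →ₜ+ ZMod 2) → ℂ)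
    (S : Finset (G →ₜ+ ZMod 2)) (L : Finset Λ) (T : Λ → Finset (G →ₜ+ ZMod 2))
    (hTS : ∀ ℓ ∈ L, T ℓ ⊆ S) (hdisj : ∀ ℓ ∈ L, ∀ ℓ' ∈ L, ℓ ≠ ℓ' → Disjoint (T ℓ) (T ℓ'))
    (hcl : ∀ ℓ ∈ L, ∀ s ∈ T ℓ, ∀ t ∈ T ℓ, ∀ u ∈ T ℓ, s + t + u ∈ S → s + t + u ∈ T ℓ)
    (hor : ∀ ℓ ∈ L, ∀ ℓ' ∈ L, ℓ ≠ ℓ' →
      ∀ s ∈ T ℓ, ∀ t ∈ T ℓ, ∀ u ∈ T ℓ', ∀ v ∈ T ℓ', s ≠ t → s + t ≠ u + v) :
    ∑ ℓ ∈ L, ∫ x, sq a (T ℓ) x ^ 2 ∂μ ≤ 3 * ∫ x, sq a S x ^ 2 ∂μ := by
  set X := ∑ ℓ ∈ L, ∫ x, sq a (T ℓ) x ^ 2 ∂μ with hX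
  set Y := ∫ x, sq a S x ^ 2 ∂μ with hY
  have cS := continuous_sq a S
  have cT := fun ℓ => continuous_sq a (T ℓ)
  have cH := fun ℓ => continuous_hh a (T ℓ)
  have h1 : X ≤ ∑ ℓ ∈ L, ∫ x, sq a (T ℓ) x * sq a S x ∂μ :=
    Finset.sum_le_sum fun ℓ hℓ => integral_proj μ a (T ℓ) S (hTS ℓ hℓ) (hcl ℓ hℓ)
  have h2 : ∑ ℓ ∈ L, ∫ x, sq a (T ℓ) x * sq a S x ∂μ
      = ∫ x, (∑ ℓ ∈ L, hh a (T ℓ) x) * sq a S x ∂μ + (∑ ℓ ∈ L, ms a (T ℓ)) * ms a S := by
    have e1 : ∀ ℓ, ∫ x, sq a (T ℓ) x * sq a S x ∂μ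
        = ∫ x, hh a (T ℓ) x * sq a S x ∂μ + ms a (T ℓ) * ms a S := by
      intro ℓ
      have e2 : ∀ x, sq a (T ℓ) x * sq a S x = hh a (T ℓ) x * sq a S x + ms a (T ℓ) * sq a S x := by
        intro x; unfold hh; ring
      simp_rw [e2]
      have i1 : Integrable (fun x => hh a (T ℓ) x * sq a S x) μ :=
        integrable_of_cont μ _ ((cH ℓ).mul cS)
      have i2 : Integrable (fun x => ms a (T ℓ) * sq a S x) μ :=
        (integrable_of_cont μ _ cS).const_mul _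
      rw [integral_add i1 i2, integral_const_mul, integral_sq]
    simp_rw [e1]
    rw [Finset.sum_add_distrib, ← Finset.sum_mul]
    congr 1
    simp_rw [Finset.sum_mul]
    rw [integral_finsetSum]
    intro ℓ _
    exact integrable_of_cont μ _ ((cH ℓ).mul cS)
  have h3 : ∫ x, (∑ ℓ ∈ L, hh a (T ℓ) x) * sq a S x ∂μ ≤ X / 2 + Y / 2 := by
    have c5 : Continuous fun x => ∑ ℓ ∈ L, hh a (T ℓ) x := continuous_finsetSum _ fun ℓ _ => cH ℓ
    have i1 : Integrable (fun x => (∑ ℓ ∈ L, hh a (T ℓ) x) ^ 2 / 2) μ :=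
      integrable_of_cont μ _ ((c5.pow 2).div_const 2)
    have i2 : Integrable (fun x => sq a S x ^ 2 / 2) μ :=
      integrable_of_cont μ _ ((cS.pow 2).div_const 2)
    calc ∫ x, (∑ ℓ ∈ L, hh a (T ℓ) x) * sq a S x ∂μ
        ≤ ∫ x, ((∑ ℓ ∈ L, hh a (T ℓ) x) ^ 2 / 2 + sq a S x ^ 2 / 2) ∂μ := by
          apply integral_mono
          · exact integrable_of_cont μ _ (c5.mul cS)
          · exact i1.add i2
          · intro x
            show (∑ ℓ ∈ L, hh a (T ℓ) x) * sq a S x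
              ≤ (∑ ℓ ∈ L, hh a (T ℓ) x) ^ 2 / 2 + sq a S x ^ 2 / 2
            nlinarith [sq_nonneg ((∑ ℓ ∈ L, hh a (T ℓ) x) - sq a S x)]
      _ = (∫ x, (∑ ℓ ∈ L, hh a (T ℓ) x) ^ 2 ∂μ) / 2 + Y / 2 := by
          rw [integral_add i1 i2, integral_div, integral_div]
      _ ≤ X / 2 + Y / 2 := by
          rw [integral_sum_hh_sq μ a L T hor]
          have : ∑ ℓ ∈ L, ∫ x, hh a (T ℓ) x ^ 2 ∂μ ≤ X :=
            Finset.sum_le_sum fun ℓ _ => integral_hh_sq_le μ a (T ℓ)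
          linarith
  have h4 : (∑ ℓ ∈ L, ms a (T ℓ)) ≤ ms a S := by
    unfold ms
    rw [← Finset.sum_biUnion]
    · apply Finset.sum_le_sum_of_subset_of_nonneg
      · intro s hs
        rw [Finset.mem_biUnion] at hs
        obtain ⟨ℓ, hℓ, hs⟩ := hs
        exact hTS ℓ hℓ hs
      · intro s _ _; positivity
    · intro ℓ hℓ ℓ' hℓ' hne
      exact hdisj ℓ hℓ ℓ' hℓ' hne
  have h5 : (∑ ℓ ∈ L, ms a (T ℓ)) * ms a S ≤ Y := by
    have := ms_sq_le μ a S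
    calc (∑ ℓ ∈ L, ms a (T ℓ)) * ms a S ≤ ms a S * ms a S :=
          mul_le_mul_of_nonneg_right h4 (ms_nonneg a S)
      _ = ms a S ^ 2 := by ring
      _ ≤ Y := this
  linarith

lemma off_lines {Λ : Type*} [DecidableEq Λ] (a : (G →ₜ+ ZMod 2) → ℂ)
    (S : Finset (G →ₜ+ ZMod 2)) (p : (G →ₜ+ ZMod 2) → Λ) (x : G) :
    off a (S.offDiag.filter (fun q => p q.1 = p q.2)) x
      = ∑ ℓ ∈ S.image p, off a (S.filter (fun s => p s = ℓ)).offDiag x := by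
  unfold off
  rw [← Finset.sum_biUnion]
  · refine Finset.sum_congr ?_ fun _ _ => rfl
    ext q
    simp only [Finset.mem_filter, Finset.mem_offDiag, Finset.mem_biUnion, Finset.mem_image]
    constructor
    · rintro ⟨⟨h1, h2, h3⟩, h4⟩
      exact ⟨p q.1, ⟨q.1, h1, rfl⟩, ⟨h1, rfl⟩, ⟨h2, h4.symm⟩, h3⟩
    · rintro ⟨ℓ, -, ⟨h1, h2⟩, ⟨h3, h4⟩, h5⟩
      exact ⟨⟨h1, h3, h5⟩, h2.trans h4.symm⟩
  · intro ℓ _ ℓ' _ hne
    rw [Function.onFun, Finset.disjoint_left]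
    intro q hq hq'
    rw [Finset.mem_offDiag, Finset.mem_filter] at hq hq'
    exact hne (hq.1.2.symm.trans hq'.1.2)

/-- Second inequality: fourth moment of a polynomial with spectrum in the grid. -/
theorem lineB {Λ₁ Λ₂ : Type*} [DecidableEq Λ₁] [DecidableEq Λ₂] (a : (G →ₜ+ ZMod 2) → ℂ)
    (S : Finset (G →ₜ+ ZMod 2)) (p₁ : (G →ₜ+ ZMod 2) → Λ₁) (p₂ : (G →ₜ+ ZMod 2) → Λ₂)
    (h12 : ∀ s ∈ S, ∀ t ∈ S, p₁ s = p₁ t → p₂ s = p₂ t → s = t)
    (hs : ∀ s ∈ S, ∀ t ∈ S, ∀ u ∈ S, ∀ v ∈ S, s + t = u + v → s ≠ t →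
      (s = u ∧ t = v) ∨ (s = v ∧ t = u) ∨ (p₁ s = p₁ t ∧ p₁ u = p₁ v ∧ p₁ s = p₁ u) ∨
      (p₂ s = p₂ t ∧ p₂ u = p₂ v ∧ p₂ s = p₂ u)) :
    ∫ x, sq a S x ^ 2 ∂μ ≤ 4 * (3 * ms a S ^ 2
      + ∑ ℓ ∈ S.image p₁, ∫ x, sq a (S.filter (fun s => p₁ s = ℓ)) x ^ 2 ∂μ
      + ∑ ℓ ∈ S.image p₂, ∫ x, sq a (S.filter (fun s => p₂ s = ℓ)) x ^ 2 ∂μ) := by
  classical
  set D₁ := S.offDiag.filter (fun q => p₁ q.1 = p₁ q.2) with hD₁
  set D₂ := S.offDiag.filter (fun q => p₂ q.1 = p₂ q.2) with hD₂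
  set D₃ := S.offDiag.filter (fun q => p₁ q.1 ≠ p₁ q.2 ∧ p₂ q.1 ≠ p₂ q.2) with hD₃
  have dec : ∀ x, off a S.offDiag x = off a D₁ x + off a D₂ x + off a D₃ x := by
    intro x
    unfold off
    have d12 : Disjoint D₁ D₂ := by
      rw [Finset.disjoint_left]
      intro q h1 h2
      rw [hD₁, Finset.mem_filter, Finset.mem_offDiag] at h1
      rw [hD₂, Finset.mem_filter] at h2
      exact h1.1.2.2 (h12 _ h1.1.1 _ h1.1.2.1 h1.2 h2.2)
    have d3 : Disjoint (D₁ ∪ D₂) D₃ := by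
      rw [Finset.disjoint_left]
      intro q h1 h3
      rw [hD₃, Finset.mem_filter] at h3
      rw [Finset.mem_union, hD₁, hD₂, Finset.mem_filter, Finset.mem_filter] at h1
      rcases h1 with h1 | h1
      · exact h3.2.1 h1.2
      · exact h3.2.2 h1.2
    rw [← Finset.sum_union d12, ← Finset.sum_union d3]
    refine Finset.sum_congr ?_ fun _ _ => rfl
    ext q
    simp only [hD₁, hD₂, hD₃, Finset.mem_union, Finset.mem_filter]
    tauto
  -- the three pieces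
  set H₁ : G → ℝ := fun x => ∑ ℓ ∈ S.image p₁, hh a (S.filter (fun s => p₁ s = ℓ)) x with hH₁
  set H₂ : G → ℝ := fun x => ∑ ℓ ∈ S.image p₂, hh a (S.filter (fun s => p₂ s = ℓ)) x with hH₂
  have cH₁ : Continuous H₁ := continuous_finsetSum _ fun ℓ _ => continuous_hh a _
  have cH₂ : Continuous H₂ := continuous_finsetSum _ fun ℓ _ => continuous_hh a _
  have e1 : ∀ x, (H₁ x : ℂ) = off a D₁ x := by
    intro x
    rw [hH₁, hD₁, off_lines]
    push_cast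
    exact Finset.sum_congr rfl fun ℓ _ => hh_eq a _ x
  have e2 : ∀ x, (H₂ x : ℂ) = off a D₂ x := by
    intro x
    rw [hH₂, hD₂, off_lines]
    push_cast
    exact Finset.sum_congr rfl fun ℓ _ => hh_eq a _ x
  set H₃ : G → ℝ := fun x => sq a S x - ms a S - H₁ x - H₂ x with hH₃
  have e3 : ∀ x, (H₃ x : ℂ) = off a D₃ x := by
    intro x
    simp only [hH₃]
    push_cast
    rw [sq_eq, dec, e1, e2]
    ring
  have cH₃ : Continuous H₃ := (((continuous_sq a S).sub continuous_const).sub cH₁).sub cH₂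
  have i1 : Integrable (fun x => H₁ x ^ 2) μ := integrable_of_cont μ _ (cH₁.pow 2)
  have i2 : Integrable (fun x => H₂ x ^ 2) μ := integrable_of_cont μ _ (cH₂.pow 2)
  have i3 : Integrable (fun x => H₃ x ^ 2) μ := integrable_of_cont μ _ (cH₃.pow 2)
  -- lines are orthogonal
  have b1 : ∫ x, H₁ x ^ 2 ∂μ ≤
      ∑ ℓ ∈ S.image p₁, ∫ x, sq a (S.filter (fun s => p₁ s = ℓ)) x ^ 2 ∂μ := by
    rw [hH₁, integral_sum_hh_sq μ a (S.image p₁) (fun ℓ => S.filter (fun s => p₁ s = ℓ))]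
    · exact Finset.sum_le_sum fun ℓ _ => integral_hh_sq_le μ a _
    · intro ℓ _ ℓ' _ hne s hs' t ht u hu v hv hst he
      rw [Finset.mem_filter] at hs' ht hu hv
      rcases hs s hs'.1 t ht.1 u hu.1 v hv.1 he hst with h | h | h | h
      · exact hne (by rw [← hs'.2, h.1, hu.2])
      · exact hne (by rw [← hs'.2, h.1, hv.2])
      · exact hne (by rw [← hs'.2, h.2.2, hu.2])
      · exact hst (h12 _ hs'.1 _ ht.1 (hs'.2.trans ht.2.symm) h.1)
  have b2 : ∫ x, H₂ x ^ 2 ∂μ ≤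
      ∑ ℓ ∈ S.image p₂, ∫ x, sq a (S.filter (fun s => p₂ s = ℓ)) x ^ 2 ∂μ := by
    rw [hH₂, integral_sum_hh_sq μ a (S.image p₂) (fun ℓ => S.filter (fun s => p₂ s = ℓ))]
    · exact Finset.sum_le_sum fun ℓ _ => integral_hh_sq_le μ a _
    · intro ℓ _ ℓ' _ hne s hs' t ht u hu v hv hst he
      rw [Finset.mem_filter] at hs' ht hu hv
      rcases hs s hs'.1 t ht.1 u hu.1 v hv.1 he hst with h | h | h | h
      · exact hne (by rw [← hs'.2, h.1, hu.2])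
      · exact hne (by rw [← hs'.2, h.1, hv.2])
      · exact hst (h12 _ hs'.1 _ ht.1 h.1 (hs'.2.trans ht.2.symm))
      · exact hne (by rw [← hs'.2, h.2.2, hu.2])
  -- the generic part
  have b3 : ∫ x, H₃ x ^ 2 ∂μ ≤ 2 * ms a S ^ 2 := by
    have q1 : ((∫ x, H₃ x ^ 2 ∂μ : ℝ) : ℂ) = ∑ q ∈ D₃, ∑ q' ∈ D₃,
        (a q.1 * conj (a q.2)) * conj (a q'.1 * conj (a q'.2)) *
          (if q.1 + q.2 = q'.1 + q'.2 then 1 else 0) := by
      rw [← integral_complex_ofReal, ← integral_off_off μ a a D₃ D₃]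
      congr 1
      ext x
      rw [← e3 x, Complex.conj_ofReal]
      push_cast
      ring
    have q2 : ∫ x, H₃ x ^ 2 ∂μ ≤ ∑ q ∈ D₃, ∑ q' ∈ D₃, ‖a q.1‖ * ‖a q.2‖ * (‖a q'.1‖ * ‖a q'.2‖) *
          (if q.1 + q.2 = q'.1 + q'.2 then 1 else 0) := by
      have : ∫ x, H₃ x ^ 2 ∂μ ≤ ‖((∫ x, H₃ x ^ 2 ∂μ : ℝ) : ℂ)‖ := by
        rw [Complex.norm_real]
        exact le_abs_self _
      refine this.trans ?_
      rw [q1]
      refine (norm_sum_le _ _).trans (Finset.sum_le_sum fun q _ => ?_)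
      refine (norm_sum_le _ _).trans (Finset.sum_le_sum fun q' _ => ?_)
      split_ifs with h
      · simp
      · simp
    have q3 : ∀ q ∈ D₃, ∑ q' ∈ D₃, ‖a q.1‖ * ‖a q.2‖ * (‖a q'.1‖ * ‖a q'.2‖) *
          (if q.1 + q.2 = q'.1 + q'.2 then (1 : ℝ) else 0) ≤ 2 * (‖a q.1‖ ^ 2 * ‖a q.2‖ ^ 2) := by
      intro q hq
      rw [hD₃, Finset.mem_filter, Finset.mem_offDiag] at hq
      have : ∀ q' ∈ D₃, ‖a q.1‖ * ‖a q.2‖ * (‖a q'.1‖ * ‖a q'.2‖) *
          (if q.1 + q.2 = q'.1 + q'.2 then (1 : ℝ) else 0)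
          ≤ (if q' = q then ‖a q.1‖ ^ 2 * ‖a q.2‖ ^ 2 else 0)
            + (if q' = q.swap then ‖a q.1‖ ^ 2 * ‖a q.2‖ ^ 2 else 0) := by
        intro q' hq'
        rw [hD₃, Finset.mem_filter, Finset.mem_offDiag] at hq'
        split_ifs with h1 h2 h3 h4 h5 h6
        · subst h2; nlinarith [norm_nonneg (a q'.1), norm_nonneg (a q'.2),
            mul_nonneg (sq_nonneg ‖a q'.1‖) (sq_nonneg ‖a q'.2‖)]
        · subst h2; apply le_of_eq; ring
        · subst h4; apply le_of_eq; simp only [Prod.fst_swap, Prod.snd_swap]; ring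
        · exfalso
          rcases hs _ hq.1.1 _ hq.1.2.1 _ hq'.1.1 _ hq'.1.2.1 h1 hq.1.2.2 with h | h | h | h
          · exact h2 (Prod.ext h.1.symm h.2.symm)
          · exact h4 (Prod.ext h.2.symm h.1.symm)
          · exact hq.2.1 h.1
          · exact hq.2.2 h.1
        all_goals (rw [mul_zero]; positivity)
      refine (Finset.sum_le_sum this).trans ?_
      rw [Finset.sum_add_distrib]
      have z1 : ∑ q' ∈ D₃, (if q' = q then ‖a q.1‖ ^ 2 * ‖a q.2‖ ^ 2 else 0)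
          ≤ ‖a q.1‖ ^ 2 * ‖a q.2‖ ^ 2 := by
        rw [Finset.sum_ite_eq']
        split_ifs
        · exact le_refl _
        · positivity
      have z2 : ∑ q' ∈ D₃, (if q' = q.swap then ‖a q.1‖ ^ 2 * ‖a q.2‖ ^ 2 else 0)
          ≤ ‖a q.1‖ ^ 2 * ‖a q.2‖ ^ 2 := by
        rw [Finset.sum_ite_eq']
        split_ifs
        · exact le_refl _
        · positivity
      linarith
    refine q2.trans ((Finset.sum_le_sum q3).trans ?_)
    rw [← Finset.mul_sum]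
    have q4 : ∑ q ∈ D₃, ‖a q.1‖ ^ 2 * ‖a q.2‖ ^ 2 ≤ ms a S ^ 2 := by
      calc ∑ q ∈ D₃, ‖a q.1‖ ^ 2 * ‖a q.2‖ ^ 2
          ≤ ∑ q ∈ S ×ˢ S, ‖a q.1‖ ^ 2 * ‖a q.2‖ ^ 2 := by
            apply Finset.sum_le_sum_of_subset_of_nonneg
            · intro q hq
              rw [hD₃, Finset.mem_filter, Finset.mem_offDiag] at hq
              exact Finset.mem_product.2 ⟨hq.1.1, hq.1.2.1⟩
            · intro q _ _; positivity
        _ = ms a S ^ 2 := by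
            rw [pow_two, ms, Finset.sum_mul_sum, Finset.sum_product]
    linarith
  -- conclusion
  have fin : ∀ x, sq a S x ^ 2 ≤ 4 * (ms a S ^ 2 + H₁ x ^ 2 + H₂ x ^ 2 + H₃ x ^ 2) := by
    intro x
    have : sq a S x = ms a S + H₁ x + H₂ x + H₃ x := by rw [hH₃]; ring
    rw [this]
    nlinarith [sq_nonneg (ms a S - H₁ x), sq_nonneg (ms a S - H₂ x), sq_nonneg (ms a S - H₃ x),
      sq_nonneg (H₁ x - H₂ x), sq_nonneg (H₁ x - H₃ x), sq_nonneg (H₂ x - H₃ x)]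
  have i0 : Integrable (fun _ : G => ms a S ^ 2) μ := integrable_const _
  have i01 : Integrable (fun x => ms a S ^ 2 + H₁ x ^ 2) μ := i0.add i1
  have i012 : Integrable (fun x => ms a S ^ 2 + H₁ x ^ 2 + H₂ x ^ 2) μ := i01.add i2
  have i0123 : Integrable (fun x => ms a S ^ 2 + H₁ x ^ 2 + H₂ x ^ 2 + H₃ x ^ 2) μ := i012.add i3
  calc ∫ x, sq a S x ^ 2 ∂μ
      ≤ ∫ x, 4 * (ms a S ^ 2 + H₁ x ^ 2 + H₂ x ^ 2 + H₃ x ^ 2) ∂μ := by
        apply integral_mono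
        · exact integrable_of_cont μ _ ((continuous_sq a S).pow 2)
        · exact i0123.const_mul 4
        · exact fin
    _ = 4 * (ms a S ^ 2 + ∫ x, H₁ x ^ 2 ∂μ + ∫ x, H₂ x ^ 2 ∂μ + ∫ x, H₃ x ^ 2 ∂μ) := by
        rw [integral_const_mul, integral_add i012 i3, integral_add i01 i2, integral_add i0 i1]
        simp
    _ ≤ _ := by linarith

end Pool.Agent.H209.Cx
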