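import Pool.Agent.H209.Cx.PropM

/-!
# Multipliers of `L⁴(G)`
-/

namespace Pool.Agent.H209.Cx

open MeasureTheory
open scoped ENNReal ComplexConjugate

set_option linter.unusedSectionVars false

section Defs

universe u

variable {G : Type u} [AddCommGroup G] [TopologicalSpace G] [IsTopologicalAddGroup G]
  [MeasurableSpace G] [BorelSpace G] (μ : Measure G) [μ.IsAddLeftInvariant]
  (p : ℝ≥0∞) [Fact (1 ≤ p)]

/-- Translation by `a` on `L^p(G)`: the class of `f` goes to the class of `x ↦ f (x + a)`. -/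
noncomputable def translation (a : G) : Lp ℂ p μ →L[ℂ] Lp ℂ p μ :=
  (Lp.compMeasurePreservingₗᵢ ℂ (fun x => x + a)
    (measurePreserving_add_right μ a)).toContinuousLinearMap

/-- The multiplier algebra `M(L^p(G))`: the bounded operators on `L^p(G)` commuting with all
translations, with composition and the operator norm. -/
noncomputable def Multipliers : Subalgebra ℂ (Lp ℂ p μ →L[ℂ] Lp ℂ p μ) :=
  Subalgebra.centralizer ℂ (Set.range (translation μ p))

end Defs

instance fact4 : Fact ((1 : ℝ≥0∞) ≤ 4) := ⟨by norm_num⟩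

variable {G : Type*} [AddCommGroup G] [TopologicalSpace G]
  [IsTopologicalAddGroup G] [CompactSpace G] [MeasurableSpace G] [BorelSpace G]
  (μ : Measure G) [IsProbabilityMeasure μ] [μ.IsAddLeftInvariant]

/-- character as a continuous map -/
noncomputable def cC (s : G →ₜ+ ZMod 2) : C(G, ℂ) := ⟨chi s, continuous_chi s⟩

/-- evaluation of a finitely supported function as a trigonometric polynomial -/
noncomputable def evC : ((G →ₜ+ ZMod 2) →₀ ℂ) →ₗ[ℂ] C(G, ℂ) := Finsupp.linearCombination ℂ cC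

lemma evC_apply (a : (G →ₜ+ ZMod 2) →₀ ℂ) (x : G) : evC a x = tp a a.support x := by
  unfold evC tp
  rw [Finsupp.linearCombination_apply, Finsupp.sum, ContinuousMap.sum_apply]
  rfl

/-- trigonometric polynomial in `L⁴` -/
noncomputable def evL : ((G →ₜ+ ZMod 2) →₀ ℂ) →ₗ[ℂ] Lp ℂ 4 μ :=
  (ContinuousMap.toLp 4 μ ℂ).toLinearMap ∘ₗ evC

/-- character in `L⁴` -/
noncomputable def cL (s : G →ₜ+ ZMod 2) : Lp ℂ 4 μ := ContinuousMap.toLp 4 μ ℂ (cC s)

lemma evC_single (s : G →ₜ+ ZMod 2) (c : ℂ) : evC (Finsupp.single s c) = c • cC s := by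
  unfold evC
  rw [Finsupp.linearCombination_single]

lemma evL_single (s : G →ₜ+ ZMod 2) (c : ℂ) : evL μ (Finsupp.single s c) = c • cL μ s := by
  unfold evL cL
  rw [LinearMap.comp_apply, evC_single]
  simp

lemma norm_toLp_pow (f : C(G, ℂ)) : ‖ContinuousMap.toLp 4 μ ℂ f‖ ^ 4 = ∫ x, ‖f x‖ ^ 4 ∂μ := by
  have h1 : MemLp f 4 μ := ContinuousMap.memLp μ ℂ f
  have h2 := h1.eLpNorm_eq_integral_rpow_norm (by norm_num) (by norm_num)
  have h3 : ‖ContinuousMap.toLp 4 μ ℂ f‖ = (∫ x, ‖f x‖ ^ (4 : ℝ) ∂μ) ^ (4 : ℝ)⁻¹ := by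
    rw [Lp.norm_def, eLpNorm_congr_ae (ContinuousMap.coeFn_toLp μ f), h2, ENNReal.toReal_ofReal]
    · norm_num
    · positivity
  have h4 : (0 : ℝ) ≤ ∫ x, ‖f x‖ ^ (4 : ℝ) ∂μ := integral_nonneg fun x => by positivity
  rw [h3, ← Real.rpow_natCast, ← Real.rpow_mul h4]
  norm_num

lemma norm_evL_pow (a : (G →ₜ+ ZMod 2) →₀ ℂ) : ‖evL μ a‖ ^ 4 = I4 μ a a.support := by
  unfold evL
  rw [LinearMap.comp_apply]
  show ‖ContinuousMap.toLp 4 μ ℂ (evC a)‖ ^ 4 = _
  rw [norm_toLp_pow]
  unfold I4 sq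
  refine integral_congr_ae (Filter.Eventually.of_forall fun x => ?_)
  show ‖evC a x‖ ^ 4 = (‖tp a a.support x‖ ^ 2) ^ 2
  rw [evC_apply]
  ring

lemma tp_support (a : (G →ₜ+ ZMod 2) →₀ ℂ) (S : Finset (G →ₜ+ ZMod 2)) (h : a.support ⊆ S)
    (x : G) : tp a S x = tp a a.support x := by
  unfold tp
  symm
  refine Finset.sum_subset h fun s _ hs => ?_
  rw [Finsupp.notMem_support_iff.1 hs, zero_mul]

lemma norm_evL_pow' (a : (G →ₜ+ ZMod 2) →₀ ℂ) (S : Finset (G →ₜ+ ZMod 2)) (h : a.support ⊆ S) :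
    ‖evL μ a‖ ^ 4 = I4 μ a S := by
  rw [norm_evL_pow]
  unfold I4 sq
  refine integral_congr_ae (Filter.Eventually.of_forall fun x => ?_)
  show (‖tp a a.support x‖ ^ 2) ^ 2 = (‖tp a S x‖ ^ 2) ^ 2
  rw [tp_support a S h]

lemma norm_cL (s : G →ₜ+ ZMod 2) : ‖cL μ s‖ = 1 := by
  have h1 := norm_evL_pow μ (Finsupp.single s (1 : ℂ))
  rw [evL_single, one_smul, Finsupp.support_single _ one_ne_zero, I4_singleton] at h1
  simp at h1
  exact (pow_eq_one_iff_of_nonneg (norm_nonneg _) (by norm_num)).1 h1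

lemma cL_ne_zero (s : G →ₜ+ ZMod 2) : cL μ s ≠ 0 := by
  intro h
  have := norm_cL μ s
  rw [h, norm_zero] at this
  exact zero_ne_one this

/-- pointwise multiplication of the coefficients -/
noncomputable def mulF (m : (G →ₜ+ ZMod 2) → ℂ) :
    ((G →ₜ+ ZMod 2) →₀ ℂ) →ₗ[ℂ] ((G →ₜ+ ZMod 2) →₀ ℂ) where
  toFun a := Finsupp.onFinset a.support (fun s => m s * a s) (by
    intro s hs
    rw [Finsupp.mem_support_iff]
    intro h
    exact hs (by rw [h, mul_zero]))
  map_add' a b := by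
    ext s
    simp [mul_add]
  map_smul' c a := by
    ext s
    simp
    ring

lemma mulF_apply (m : (G →ₜ+ ZMod 2) → ℂ) (a : (G →ₜ+ ZMod 2) →₀ ℂ) (s : G →ₜ+ ZMod 2) :
    mulF m a s = m s * a s := rfl

lemma coe_mulF (m : (G →ₜ+ ZMod 2) → ℂ) (a : (G →ₜ+ ZMod 2) →₀ ℂ) :
    ⇑(mulF m a) = m * ⇑a := rfl

lemma mulF_support (m : (G →ₜ+ ZMod 2) → ℂ) (a : (G →ₜ+ ZMod 2) →₀ ℂ) :
    (mulF m a).support ⊆ a.support := by
  intro s hs
  rw [Finsupp.mem_support_iff] at hs ⊢
  intro h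
  exact hs (by rw [mulF_apply, h, mul_zero])

lemma mulF_single (m : (G →ₜ+ ZMod 2) → ℂ) (s : G →ₜ+ ZMod 2) (c : ℂ) :
    mulF m (Finsupp.single s c) = Finsupp.single s (m s * c) := by
  classical
  ext t
  rw [mulF_apply, Finsupp.single_apply, Finsupp.single_apply]
  split_ifs with h
  · rw [h]
  · rw [mul_zero]

lemma mulF_mulF (m m' : (G →ₜ+ ZMod 2) → ℂ) (a : (G →ₜ+ ZMod 2) →₀ ℂ) :
    mulF m (mulF m' a) = mulF (m * m') a := by
  ext s
  simp [mulF_apply]
  ring

lemma translation_toLp (g : G) (f : C(G, ℂ)) :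
    translation μ 4 g (ContinuousMap.toLp 4 μ ℂ f)
      = ContinuousMap.toLp 4 μ ℂ (f.comp ⟨fun x => x + g, by fun_prop⟩) := by
  apply Lp.ext
  have h1 := ContinuousMap.coeFn_toLp (p := 4) (𝕜 := ℂ) μ (f.comp ⟨fun x => x + g, by fun_prop⟩)
  have h2 := ContinuousMap.coeFn_toLp (p := 4) (𝕜 := ℂ) μ f
  have h3 := Lp.coeFn_compMeasurePreserving (ContinuousMap.toLp 4 μ ℂ f)
    (measurePreserving_add_right μ g)
  have h4 : translation μ 4 g (ContinuousMap.toLp 4 μ ℂ f)
      = Lp.compMeasurePreserving (fun x => x + g) (measurePreserving_add_right μ g)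
        (ContinuousMap.toLp 4 μ ℂ f) := rfl
  rw [h4]
  refine h3.trans (((measurePreserving_add_right μ g).quasiMeasurePreserving.ae_eq_comp h2).trans ?_)
  exact h1.symm

lemma translation_evL (g : G) (a : (G →ₜ+ ZMod 2) →₀ ℂ) :
    translation μ 4 g (evL μ a) = evL μ (mulF (fun s => chi s g) a) := by
  show translation μ 4 g (ContinuousMap.toLp 4 μ ℂ (evC a)) = ContinuousMap.toLp 4 μ ℂ (evC _)
  rw [translation_toLp]
  congr 1
  ext x
  show evC a (x + g) = _
  rw [evC_apply, evC_apply, ← tp_support _ a.support (mulF_support _ a)]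
  unfold tp
  refine Finset.sum_congr rfl fun s _ => ?_
  rw [mulF_apply, chi_arg_add]
  ring

lemma norm_translation (g : G) (f : Lp ℂ 4 μ) : ‖translation μ 4 g f‖ = ‖f‖ :=
  Lp.norm_compMeasurePreserving f (measurePreserving_add_right μ g)

lemma translation_cL (g : G) (s : G →ₜ+ ZMod 2) :
    translation μ 4 g (cL μ s) = chi s g • cL μ s := by
  have := translation_evL μ g (Finsupp.single s 1)
  rwa [mulF_single, evL_single, evL_single, one_smul, mul_one] at this

/-- Joint eigenvectors of the translations. -/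
lemma eigen_aux (s : G →ₜ+ ZMod 2) (f : Lp ℂ 4 μ)
    (hf : ∀ g, translation μ 4 g f = chi s g • f) (n : ℕ) :
    ∀ a : (G →ₜ+ ZMod 2) →₀ ℂ, a.support.card ≤ n →
      ∃ c : ℂ, ‖f - c • cL μ s‖ ≤ ‖f - evL μ a‖ := by
  classical
  induction n with
  | zero =>
    intro a ha
    have : a = 0 := by
      rw [← Finsupp.support_eq_empty, ← Finset.card_eq_zero]
      omega
    exact ⟨0, by rw [this]; simp⟩
  | succ n ih =>
    intro a ha
    by_cases hs : a.support ⊆ {s}
    · have : a = Finsupp.single s (a s) := Finsupp.support_subset_singleton.1 hs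
      exact ⟨a s, by rw [this, evL_single]; simp⟩
    · obtain ⟨t, ht, hts⟩ := Finset.not_subset.1 hs
      rw [Finset.mem_singleton] at hts
      have hg : ∃ g : G, s g ≠ t g := by
        by_contra hc
        push Not at hc
        exact hts (by ext x; exact (hc x).symm)
      obtain ⟨g, hg⟩ := hg
      have hst : chi s g * chi t g = -1 := by
        rw [← chi_add]
        apply sgn_ne_one
        show s g + t g ≠ 0
        intro h
        apply hg
        have h2 := zmod2_add_self (t g)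
        calc s g = s g + (t g + t g) := by rw [h2, add_zero]
          _ = t g := by rw [← add_assoc, h, zero_add]
      obtain ⟨c, hc⟩ := ih (mulF (fun u => (1 + chi s g * chi u g) / 2) a) (by
        have h1 : (mulF (fun u => (1 + chi s g * chi u g) / 2) a).support ⊆ a.support.erase t := by
          intro u hu
          rw [Finset.mem_erase]
          refine ⟨?_, mulF_support _ a hu⟩
          rintro rfl
          rw [Finsupp.mem_support_iff, mulF_apply, hst] at hu
          exact hu (by simp)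
        have h2 := Finset.card_le_card h1
        rw [Finset.card_erase_of_mem ht] at h2
        omega)
      refine ⟨c, hc.trans ?_⟩
      have h1 : f - evL μ (mulF (fun u => (1 + chi s g * chi u g) / 2) a)
          = (1 / 2 : ℂ) • (f - evL μ a) + (chi s g / 2) • translation μ 4 g (f - evL μ a) := by
        rw [map_sub, hf, translation_evL]
        have h2 : evL μ (mulF (fun u => (1 + chi s g * chi u g) / 2) a)
            = (1 / 2 : ℂ) • evL μ a + (chi s g / 2) • evL μ (mulF (fun u => chi u g) a) := by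
          rw [← map_smul, ← map_smul, ← map_add]
          congr 1
          ext u
          simp only [mulF_apply, Finsupp.add_apply, Finsupp.smul_apply, smul_eq_mul]
          ring
        rw [h2, smul_sub, smul_sub, smul_smul]
        have h3 : chi s g / 2 * chi s g = (1 / 2 : ℂ) := by
          have := chi_mul_self s g
          linear_combination this / 2
        rw [h3]
        have h4 : (1 / 2 : ℂ) • f + (1 / 2 : ℂ) • f = f := by
          rw [← add_smul]; norm_num
        nth_rewrite 1 [← h4]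
        abel
      rw [h1]
      refine (norm_add_le _ _).trans ?_
      rw [norm_smul, norm_smul, norm_translation, norm_div, norm_div, norm_chi]
      norm_num
      linarith

lemma eigen (hd : DenseRange (evL μ)) (s : G →ₜ+ ZMod 2) (f : Lp ℂ 4 μ)
    (hf : ∀ g, translation μ 4 g f = chi s g • f) : ∃ c : ℂ, f = c • cL μ s := by
  have h1 : f ∈ closure ((Submodule.span ℂ {cL μ s} : Submodule ℂ (Lp ℂ 4 μ)) : Set (Lp ℂ 4 μ)) := by
    rw [Metric.mem_closure_iff]
    intro ε hε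
    obtain ⟨a, ha⟩ := hd.exists_dist_lt f hε
    obtain ⟨c, hc⟩ := eigen_aux μ s f hf _ a le_rfl
    refine ⟨c • cL μ s, Submodule.smul_mem _ _ (Submodule.mem_span_singleton_self _), ?_⟩
    rw [dist_eq_norm] at ha ⊢
    exact lt_of_le_of_lt hc ha
  have h2 : IsClosed ((Submodule.span ℂ {cL μ s} : Submodule ℂ (Lp ℂ 4 μ)) : Set (Lp ℂ 4 μ)) :=
    Submodule.closed_of_finiteDimensional _
  rw [h2.closure_eq] at h1
  obtain ⟨c, hc⟩ := Submodule.mem_span_singleton.1 h1
  exact ⟨c, hc.symm⟩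

lemma mem_multipliers (T : Lp ℂ 4 μ →L[ℂ] Lp ℂ 4 μ) :
    T ∈ Multipliers μ 4 ↔ ∀ g f, translation μ 4 g (T f) = T (translation μ 4 g f) := by
  unfold Multipliers
  rw [Subalgebra.mem_centralizer_iff]
  constructor
  · intro h g f
    have := h _ ⟨g, rfl⟩
    exact congrArg (fun S : Lp ℂ 4 μ →L[ℂ] Lp ℂ 4 μ => S f) this
  · rintro h _ ⟨g, rfl⟩
    ext1 f
    exact h g f

lemma exists_symbol (hd : DenseRange (evL μ)) (T : Multipliers μ 4) :
    ∃ m : (G →ₜ+ ZMod 2) → ℂ, ∀ a, (T : Lp ℂ 4 μ →L[ℂ] Lp ℂ 4 μ) (evL μ a) = evL μ (mulF m a) := by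
  have h := (mem_multipliers μ T.1).1 T.2
  have h1 : ∀ s, ∃ c : ℂ, T.1 (cL μ s) = c • cL μ s := by
    intro s
    apply eigen μ hd
    intro g
    rw [h, translation_cL, map_smul]
  choose m hm using h1
  refine ⟨m, fun a => ?_⟩
  induction a using Finsupp.induction_linear with
  | zero => simp
  | add a b ha hb => rw [map_add, map_add, ha, hb, map_add, map_add]
  | single s c =>
    rw [evL_single, map_smul, hm, mulF_single, evL_single, smul_smul, mul_comm]

/-- The symbol of a multiplier. -/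
noncomputable def sym (hd : DenseRange (evL μ)) (T : Multipliers μ 4) : (G →ₜ+ ZMod 2) → ℂ :=
  Classical.choose (exists_symbol μ hd T)

lemma sym_spec (hd : DenseRange (evL μ)) (T : Multipliers μ 4) (a : (G →ₜ+ ZMod 2) →₀ ℂ) :
    (T : Lp ℂ 4 μ →L[ℂ] Lp ℂ 4 μ) (evL μ a) = evL μ (mulF (sym μ hd T) a) :=
  Classical.choose_spec (exists_symbol μ hd T) a

lemma sym_unique (hd : DenseRange (evL μ)) (T : Multipliers μ 4) (m : (G →ₜ+ ZMod 2) → ℂ)
    (h : ∀ s, (T : Lp ℂ 4 μ →L[ℂ] Lp ℂ 4 μ) (cL μ s) = m s • cL μ s) : sym μ hd T = m := by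
  ext s
  have h1 := sym_spec μ hd T (Finsupp.single s 1)
  rw [mulF_single, evL_single, evL_single, one_smul, mul_one, h] at h1
  exact (smul_left_injective ℂ (cL_ne_zero μ s) h1).symm

lemma sym_cL (hd : DenseRange (evL μ)) (T : Multipliers μ 4) (s : G →ₜ+ ZMod 2) :
    (T : Lp ℂ 4 μ →L[ℂ] Lp ℂ 4 μ) (cL μ s) = sym μ hd T s • cL μ s := by
  have h1 := sym_spec μ hd T (Finsupp.single s 1)
  rwa [mulF_single, evL_single, evL_single, one_smul, mul_one] at h1

lemma ext_evL (hd : DenseRange (evL μ)) (S T : Lp ℂ 4 μ →L[ℂ] Lp ℂ 4 μ)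
    (h : ∀ a, S (evL μ a) = T (evL μ a)) : S = T := by
  have : (S : Lp ℂ 4 μ → Lp ℂ 4 μ) = T :=
    hd.equalizer S.continuous T.continuous (funext h)
  exact ContinuousLinearMap.coeFn_injective this

lemma sym_ext (hd : DenseRange (evL μ)) (S T : Multipliers μ 4) (h : sym μ hd S = sym μ hd T) :
    S = T := by
  apply Subtype.ext
  apply ext_evL μ hd
  intro a
  rw [sym_spec μ hd, sym_spec μ hd, h]

lemma sym_mul (hd : DenseRange (evL μ)) (S T : Multipliers μ 4) :
    sym μ hd (S * T) = sym μ hd S * sym μ hd T := by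
  apply sym_unique
  intro s
  show S.1 (T.1 (cL μ s)) = _
  rw [sym_cL μ hd T, map_smul, sym_cL μ hd S, smul_smul, Pi.mul_apply, mul_comm]

lemma sym_add (hd : DenseRange (evL μ)) (S T : Multipliers μ 4) :
    sym μ hd (S + T) = sym μ hd S + sym μ hd T := by
  apply sym_unique
  intro s
  show S.1 (cL μ s) + T.1 (cL μ s) = _
  rw [sym_cL μ hd T, sym_cL μ hd S, Pi.add_apply, add_smul]

lemma sym_algebraMap (hd : DenseRange (evL μ)) (c : ℂ) :
    sym μ hd (algebraMap ℂ (Multipliers μ 4) c) = fun _ => c := by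
  apply sym_unique
  intro s
  rfl

lemma sym_one (hd : DenseRange (evL μ)) : sym μ hd (1 : Multipliers μ 4) = 1 := by
  apply sym_unique
  intro s
  simp

lemma norm_sym_le (hd : DenseRange (evL μ)) (T : Multipliers μ 4) (s : G →ₜ+ ZMod 2) :
    ‖sym μ hd T s‖ ≤ ‖T‖ := by
  have h1 : ‖(T : Lp ℂ 4 μ →L[ℂ] Lp ℂ 4 μ) (cL μ s)‖ ≤ ‖T‖ * ‖cL μ s‖ :=
    ContinuousLinearMap.le_opNorm _ _
  rw [sym_cL μ hd, norm_smul, norm_cL, mul_one, mul_one] at h1
  exact h1

lemma mult_comm (hd : DenseRange (evL μ)) (S T : Multipliers μ 4) : S * T = T * S := by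
  apply sym_ext μ hd
  rw [sym_mul, sym_mul, mul_comm]

/-- Existence of multipliers with given symbols. -/
lemma exists_mult (hd : DenseRange (evL μ)) (m : (G →ₜ+ ZMod 2) → ℂ) (C : ℝ)
    (hC : ∀ a, ‖evL μ (mulF m a)‖ ≤ C * ‖evL μ a‖) :
    ∃ T : Multipliers μ 4, sym μ hd T = m := by
  set T : Lp ℂ 4 μ →L[ℂ] Lp ℂ 4 μ := (evL μ ∘ₗ mulF m).extendOfNorm (evL μ) with hT
  have h1 : ∀ a, T (evL μ a) = evL μ (mulF m a) := fun a =>
    LinearMap.extendOfNorm_eq hd ⟨C, hC⟩ a
  have h2 : T ∈ Multipliers μ 4 := by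
    rw [mem_multipliers]
    intro g f
    have : ∀ f, ((translation μ 4 g).comp T) f = (T.comp (translation μ 4 g)) f := by
      intro f
      have h3 : (translation μ 4 g).comp T = T.comp (translation μ 4 g) := by
        apply ext_evL μ hd
        intro a
        show translation μ 4 g (T (evL μ a)) = T (translation μ 4 g (evL μ a))
        rw [h1, translation_evL, translation_evL, h1, mulF_mulF, mulF_mulF, mul_comm]
      rw [h3]
    exact this f
  refine ⟨⟨T, h2⟩, ?_⟩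
  apply sym_unique
  intro s
  show T (cL μ s) = _
  have h3 := h1 (Finsupp.single s 1)
  rwa [mulF_single, evL_single, evL_single, one_smul, mul_one] at h3

lemma norm_le_of_bound (hd : DenseRange (evL μ)) (T : Multipliers μ 4) (C : ℝ) (hC0 : 0 ≤ C)
    (hC : ∀ a, ‖evL μ (mulF (sym μ hd T) a)‖ ≤ C * ‖evL μ a‖) : ‖T‖ ≤ C := by
  show ‖(T : Lp ℂ 4 μ →L[ℂ] Lp ℂ 4 μ)‖ ≤ C
  refine ContinuousLinearMap.opNorm_le_bound _ hC0 fun f => ?_
  refine hd.induction_on (p := fun f => ‖(T : Lp ℂ 4 μ →L[ℂ] Lp ℂ 4 μ) f‖ ≤ C * ‖f‖) f ?_ ?_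
  · exact isClosed_le (by fun_prop) (by fun_prop)
  · intro a
    rw [sym_spec μ hd]
    exact hC a

lemma le_norm_bound (hd : DenseRange (evL μ)) (T : Multipliers μ 4)
    (a : (G →ₜ+ ZMod 2) →₀ ℂ) : ‖evL μ (mulF (sym μ hd T) a)‖ ≤ ‖T‖ * ‖evL μ a‖ := by
  rw [← sym_spec μ hd]
  exact ContinuousLinearMap.le_opNorm _ _

end Pool.Agent.H209.Cx
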