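import Pool.Agent.H209.Cx.Concrete

/-!
# The multipliers
-/

namespace Pool.Agent.H209.Cx

open MeasureTheory
open scoped ENNReal ComplexConjugate

set_option linter.unusedSectionVars false

section General

variable {G : Type*} [AddCommGroup G] [TopologicalSpace G]
  [IsTopologicalAddGroup G] [CompactSpace G] [MeasurableSpace G] [BorelSpace G]
  (μ : Measure G) [IsProbabilityMeasure μ] [μ.IsAddLeftInvariant]

lemma Grid.symm {Λ₁ Λ₂ : Type*} {E : Set (G →ₜ+ ZMod 2)} {p₁ : (G →ₜ+ ZMod 2) → Λ₁}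
    {p₂ : (G →ₜ+ ZMod 2) → Λ₂} (h : Grid E p₁ p₂) : Grid E p₂ p₁ where
  inj s hs t ht h1 h2 := h.inj s hs t ht h2 h1
  quad s hs t ht u hu v hv he hne := by
    rcases h.quad s hs t ht u hu v hv he hne with h | h | h | h
    · exact Or.inl h
    · exact Or.inr (Or.inl h)
    · exact Or.inr (Or.inr (Or.inr h))
    · exact Or.inr (Or.inr (Or.inl h))
  cl₁ := h.cl₂
  cl₂ := h.cl₁

lemma I4_congr (a b : (G →ₜ+ ZMod 2) → ℂ) (T : Finset (G →ₜ+ ZMod 2)) (h : ∀ s ∈ T, a s = b s) :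
    I4 μ a T = I4 μ b T := by
  unfold I4 sq tp
  refine integral_congr_ae (Filter.Eventually.of_forall fun x => ?_)
  show (‖∑ s ∈ T, a s * chi s x‖ ^ 2) ^ 2 = (‖∑ s ∈ T, b s * chi s x‖ ^ 2) ^ 2
  rw [Finset.sum_congr rfl fun s hs => by rw [h s hs]]

/-- restriction of a function to a finite set -/
noncomputable def rs (a : (G →ₜ+ ZMod 2) → ℂ) (T : Finset (G →ₜ+ ZMod 2)) :
    (G →ₜ+ ZMod 2) →₀ ℂ := by
  classical
  exact Finsupp.onFinset T (fun s => if s ∈ T then a s else 0) (by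
    intro s hs
    by_contra h
    exact hs (if_neg h))

lemma rs_apply_mem (a : (G →ₜ+ ZMod 2) → ℂ) (T : Finset (G →ₜ+ ZMod 2)) (s : G →ₜ+ ZMod 2)
    (h : s ∈ T) : rs a T s = a s := by
  classical
  unfold rs
  rw [Finsupp.onFinset_apply, if_pos h]

lemma rs_apply_notMem (a : (G →ₜ+ ZMod 2) → ℂ) (T : Finset (G →ₜ+ ZMod 2)) (s : G →ₜ+ ZMod 2)
    (h : s ∉ T) : rs a T s = 0 := by
  classical
  unfold rs
  rw [Finsupp.onFinset_apply, if_neg h]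

lemma rs_support (a : (G →ₜ+ ZMod 2) → ℂ) (T : Finset (G →ₜ+ ZMod 2)) :
    (rs a T).support ⊆ T := by
  intro s hs
  by_contra h
  rw [Finsupp.mem_support_iff] at hs
  exact hs (rs_apply_notMem a T s h)

lemma norm_evL_rs (a : (G →ₜ+ ZMod 2) → ℂ) (T : Finset (G →ₜ+ ZMod 2)) :
    ‖evL μ (rs a T)‖ ^ 4 = I4 μ a T := by
  rw [norm_evL_pow' μ _ T (rs_support a T)]
  exact I4_congr μ _ _ _ fun s hs => rs_apply_mem a T s hs

lemma mulF_rs (m a : (G →ₜ+ ZMod 2) → ℂ) (T : Finset (G →ₜ+ ZMod 2)) :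
    mulF m (rs a T) = rs (m * a) T := by
  ext s
  rw [mulF_apply]
  by_cases h : s ∈ T
  · rw [rs_apply_mem _ _ _ h, rs_apply_mem _ _ _ h]; rfl
  · rw [rs_apply_notMem _ _ _ h, rs_apply_notMem _ _ _ h, mul_zero]

lemma of_I4 (b a : (G →ₜ+ ZMod 2) →₀ ℂ) (c : ℝ) (hc : 0 ≤ c)
    (h : ‖evL μ b‖ ^ 4 ≤ c ^ 4 * ‖evL μ a‖ ^ 4) : ‖evL μ b‖ ≤ c * ‖evL μ a‖ := by
  rw [← mul_pow] at h
  exact le_of_pow_le_pow_left₀ (by norm_num) (by positivity) h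

/-- indicator symbol -/
noncomputable def ind (Q : (G →ₜ+ ZMod 2) → Prop) [DecidablePred Q] (s : G →ₜ+ ZMod 2) : ℂ :=
  if Q s then 1 else 0

lemma conv_aux {Λ : Type*} (E : Set (G →ₜ+ ZMod 2)) (m : (G →ₜ+ ZMod 2) → ℂ) (c : ℝ)
    (p : (G →ₜ+ ZMod 2) → Λ)
    (h : ∀ a : (G →ₜ+ ZMod 2) →₀ ℂ, (∀ s ∈ a.support, s ∈ E) →
      (∀ s ∈ a.support, ∀ t ∈ a.support, p s = p t) →
      ‖evL μ (mulF m a)‖ ≤ c * ‖evL μ a‖)
    (T : Finset (G →ₜ+ ZMod 2)) (hT1 : ∀ s ∈ T, s ∈ E) (hT2 : ∀ s ∈ T, ∀ t ∈ T, p s = p t)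
    (a : (G →ₜ+ ZMod 2) → ℂ) : I4 μ (m * a) T ≤ c ^ 4 * I4 μ a T := by
  rw [← norm_evL_rs, ← norm_evL_rs, ← mulF_rs, ← mul_pow]
  have := h (rs a T) (fun s hs => hT1 s (rs_support a T hs))
    (fun s hs t ht => hT2 s (rs_support a T hs) t (rs_support a T ht))
  gcongr

open Classical in
theorem propM' {Λ₁ Λ₂ : Type*} (E : Set (G →ₜ+ ZMod 2))
    (p₁ : (G →ₜ+ ZMod 2) → Λ₁) (p₂ : (G →ₜ+ ZMod 2) → Λ₂) (hE : Grid E p₁ p₂)
    (m : (G →ₜ+ ZMod 2) → ℂ) (c : ℝ) (hc : 0 ≤ c)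
    (h₁ : ∀ a : (G →ₜ+ ZMod 2) →₀ ℂ, (∀ s ∈ a.support, s ∈ E) →
      (∀ s ∈ a.support, ∀ t ∈ a.support, p₁ s = p₁ t) →
      ‖evL μ (mulF m a)‖ ≤ c * ‖evL μ a‖)
    (h₂ : ∀ a : (G →ₜ+ ZMod 2) →₀ ℂ, (∀ s ∈ a.support, s ∈ E) →
      (∀ s ∈ a.support, ∀ t ∈ a.support, p₂ s = p₂ t) →
      ‖evL μ (mulF m a)‖ ≤ c * ‖evL μ a‖)
    (a : (G →ₜ+ ZMod 2) →₀ ℂ) :
    ‖evL μ (mulF (ind (· ∈ E) * m) a)‖ ≤ 3 * c * ‖evL μ a‖ := by
  have h1 := propM μ E p₁ p₂ hE m c hc (conv_aux μ E m c p₁ h₁)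
    (conv_aux μ E m c p₂ h₂) a a.support
  have h2 : ‖evL μ (mulF (ind (· ∈ E) * m) a)‖ ^ 4 = I4 μ (m * a) (a.support.filter (· ∈ E)) := by
    rw [norm_evL_pow' μ _ (a.support.filter (· ∈ E))]
    · refine I4_congr μ _ _ _ fun s hs => ?_
      rw [mulF_apply, Pi.mul_apply, Pi.mul_apply, ind, if_pos (Finset.mem_filter.1 hs).2, one_mul]
    · intro s hs
      refine Finset.mem_filter.2 ⟨mulF_support _ _ hs, ?_⟩
      by_contra h
      rw [Finsupp.mem_support_iff, mulF_apply, Pi.mul_apply, ind, if_neg h, zero_mul,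
        zero_mul] at hs
      exact hs rfl
  apply of_I4 μ _ _ _ (by positivity)
  rw [h2, norm_evL_pow]
  refine h1.trans ?_
  have := I4_nonneg μ a a.support
  have h3 : 36 * c ^ 4 ≤ (3 * c) ^ 4 := by
    rw [mul_pow]
    have : 0 ≤ c ^ 4 := by positivity
    linarith
  gcongr

open Classical in
theorem line_mult {Λ₁ Λ₂ : Type*} (E : Set (G →ₜ+ ZMod 2))
    (p₁ : (G →ₜ+ ZMod 2) → Λ₁) (p₂ : (G →ₜ+ ZMod 2) → Λ₂) (hE : Grid E p₁ p₂) (ℓ : Λ₁)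
    (a : (G →ₜ+ ZMod 2) →₀ ℂ) :
    ‖evL μ (mulF (ind (fun s => s ∈ E ∧ p₁ s = ℓ)) a)‖ ≤ 2 * ‖evL μ a‖ := by
  have h1 := lineA_I4 μ E p₁ hE.cl₁ (by
    intro s hs t ht u hu v hv hst huv he hne
    rcases hE.quad s hs t ht u hu v hv he hne with h | h | h | h
    · rw [h.1]
    · rw [h.1, huv]
    · exact h.2.2
    · exact absurd (hE.inj s hs t ht hst h.1) hne) a a.support {ℓ}
  rw [Finset.sum_singleton] at h1
  have h2 : ‖evL μ (mulF (ind (fun s => s ∈ E ∧ p₁ s = ℓ)) a)‖ ^ 4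
      = I4 μ a ((a.support.filter (· ∈ E)).filter (fun s => p₁ s = ℓ)) := by
    rw [norm_evL_pow' μ _ ((a.support.filter (· ∈ E)).filter (fun s => p₁ s = ℓ))]
    · refine I4_congr μ _ _ _ fun s hs => ?_
      rw [Finset.mem_filter, Finset.mem_filter] at hs
      rw [mulF_apply, ind, if_pos ⟨hs.1.2, hs.2⟩, one_mul]
    · intro s hs
      have h3 : s ∈ E ∧ p₁ s = ℓ := by
        by_contra h
        rw [Finsupp.mem_support_iff, mulF_apply, ind, if_neg h, zero_mul] at hs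
        exact hs rfl
      exact Finset.mem_filter.2 ⟨Finset.mem_filter.2 ⟨mulF_support _ _ hs, h3.1⟩, h3.2⟩
  apply of_I4 μ _ _ _ (by positivity)
  rw [h2, norm_evL_pow]
  refine h1.trans ?_
  have := I4_nonneg μ a a.support
  nlinarith

/-- averages of translations -/
noncomputable def avg (aa : ℂ) (N : ℕ) (u : ℕ → G) (s : G →ₜ+ ZMod 2) : ℂ :=
  (N : ℂ)⁻¹ * ∑ i ∈ Finset.range N, (1 - chi s (u i)) / 2 - aa

lemma avg_bound (aa : ℂ) (N : ℕ) (u : ℕ → G) (a : (G →ₜ+ ZMod 2) →₀ ℂ) :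
    ‖evL μ (mulF (avg aa N u) a)‖ ≤ (1 + ‖aa‖) * ‖evL μ a‖ := by
  have h1 : mulF (avg aa N u) a = (N : ℂ)⁻¹ • ∑ i ∈ Finset.range N,
      (1 / 2 : ℂ) • (a - mulF (fun s => chi s (u i)) a) - aa • a := by
    ext s
    simp only [mulF_apply, avg, Finsupp.sub_apply, Finsupp.smul_apply, smul_eq_mul,
      Finsupp.finsetSum_apply]
    rw [sub_mul, mul_assoc, Finset.sum_mul]
    congr 2
    refine Finset.sum_congr rfl fun i _ => ?_
    ring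
  rw [h1, map_sub, map_smul, map_smul, map_sum]
  refine (norm_sub_le _ _).trans ?_
  rw [norm_smul, norm_smul, add_mul, one_mul]
  gcongr
  have h2 : ∀ i ∈ Finset.range N, ‖evL μ ((1 / 2 : ℂ) • (a - mulF (fun s => chi s (u i)) a))‖
      ≤ ‖evL μ a‖ := by
    intro i _
    rw [map_smul, map_sub, ← translation_evL, norm_smul]
    have := norm_sub_le (evL μ a) (translation μ 4 (u i) (evL μ a))
    rw [norm_translation] at this
    have h3 : ‖(1 / 2 : ℂ)‖ = 1 / 2 := by simp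
    rw [h3]
    linarith
  have h3 := norm_sum_le_of_le _ h2
  rw [Finset.sum_const, Finset.card_range, nsmul_eq_mul] at h3
  have h4 : ‖(N : ℂ)⁻¹‖ = (N : ℝ)⁻¹ := by simp
  rw [h4]
  have h5 : (N : ℝ)⁻¹ * N ≤ 1 := by
    rcases Nat.eq_zero_or_pos N with h | h
    · subst h; simp
    · rw [inv_mul_cancel₀ (by positivity)]
  have h6 := norm_nonneg (evL μ a)
  calc (N : ℝ)⁻¹ * _ ≤ (N : ℝ)⁻¹ * (N * ‖evL μ a‖) := by gcongr
    _ = ((N : ℝ)⁻¹ * N) * ‖evL μ a‖ := by ring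
    _ ≤ 1 * ‖evL μ a‖ := by gcongr
    _ = ‖evL μ a‖ := one_mul _

lemma mulF_congr (m m' : (G →ₜ+ ZMod 2) → ℂ) (a : (G →ₜ+ ZMod 2) →₀ ℂ)
    (h : ∀ s ∈ a.support, m s = m' s) : mulF m a = mulF m' a := by
  ext s
  rw [mulF_apply, mulF_apply]
  by_cases hs : s ∈ a.support
  · rw [h s hs]
  · rw [Finsupp.notMem_support_iff.1 hs, mul_zero, mul_zero]

end General

/-- weight of a vector -/
def wt {N : ℕ} (v : Fin N → ZMod 2) : ℕ := (Finset.univ.filter fun i => v i ≠ 0).card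

open Classical in
/-- the index of a bi-affine character -/
noncomputable def idx (s : CG →ₜ+ ZMod 2) : ℕ := if h : s ∈ EE then Classical.choose h else 0

lemma idx_eC (N : ℕ) (v w : Fin N → ZMod 2) : idx (eC N v w) = N := by
  have h : eC N v w ∈ EE := eC_mem N v w
  unfold idx
  rw [dif_pos h]
  obtain ⟨v', w', h'⟩ := Classical.choose_spec h
  have h2 : p₁ (eC N v w) = p₁ (eC (Classical.choose h) v' w') := by rw [← h']
  exact (p₁_eq h2).symm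

/-- the symbol of the first multiplier -/
noncomputable def X₁ (aa : ℂ) (s : CG →ₜ+ ZMod 2) : ℂ := avg aa (idx s) (fun i => uu (idx s) (i + 1) 0) s

/-- the symbol of the second multiplier -/
noncomputable def X₂ (aa : ℂ) (s : CG →ₜ+ ZMod 2) : ℂ := avg aa (idx s) (fun i => uu (idx s) 0 (i + 1)) s

lemma sum_sgn {N : ℕ} (v : Fin N → ZMod 2) :
    ∑ i ∈ Finset.range N, (1 - sgn (ex v (i + 1))) / 2 = (wt v : ℂ) := by
  rw [Finset.sum_range, wt, Finset.card_filter, Nat.cast_sum]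
  refine Finset.sum_congr rfl fun i _ => ?_
  rw [ex_succ]
  rcases zz (v i) with h | h
  · rw [h, sgn_zero]; simp
  · rw [h, sgn_one]; simp

lemma X₁_eC (aa : ℂ) (N : ℕ) (v w : Fin N → ZMod 2) :
    X₁ aa (eC N v w) = (N : ℂ)⁻¹ * wt v - aa := by
  unfold X₁ avg
  rw [idx_eC, ← sum_sgn v]
  congr 2
  refine Finset.sum_congr rfl fun i _ => ?_
  unfold chi
  rw [eC_uu, if_pos rfl, ex_zero, mul_one]

lemma X₂_eC (aa : ℂ) (N : ℕ) (v w : Fin N → ZMod 2) :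
    X₂ aa (eC N v w) = (N : ℂ)⁻¹ * wt w - aa := by
  unfold X₂ avg
  rw [idx_eC, ← sum_sgn w]
  congr 2
  refine Finset.sum_congr rfl fun i _ => ?_
  unfold chi
  rw [eC_uu, if_pos rfl, ex_zero, one_mul]

lemma idx_of_p₁ {s t : CG →ₜ+ ZMod 2} (hs : s ∈ EE) (ht : t ∈ EE) (h : p₁ s = p₁ t) :
    idx s = idx t := by
  obtain ⟨N, v, w, rfl⟩ := hs
  obtain ⟨M, v', w', rfl⟩ := ht
  rw [idx_eC, idx_eC]
  exact p₁_eq h

lemma idx_of_p₂ {s t : CG →ₜ+ ZMod 2} (hs : s ∈ EE) (ht : t ∈ EE) (h : p₂ s = p₂ t) :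
    idx s = idx t := by
  obtain ⟨N, v, w, rfl⟩ := hs
  obtain ⟨M, v', w', rfl⟩ := ht
  rw [idx_eC, idx_eC]
  exact p₂_eq h

section CG

variable [MeasurableSpace CG] [BorelSpace CG] (μ : Measure CG) [IsProbabilityMeasure μ]
  [μ.IsAddLeftInvariant]

lemma idx_bound (aa : ℂ) (u : ℕ → ℕ → CG) (a : (CG →ₜ+ ZMod 2) →₀ ℂ)
    (h : ∀ s ∈ a.support, ∀ t ∈ a.support, idx s = idx t) :
    ‖evL μ (mulF (fun s => avg aa (idx s) (u (idx s)) s) a)‖ ≤ (1 + ‖aa‖) * ‖evL μ a‖ := by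
  rcases a.support.eq_empty_or_nonempty with h0 | ⟨t, ht⟩
  · rw [Finsupp.support_eq_empty] at h0
    subst h0
    simp
  · rw [mulF_congr _ (avg aa (idx t) (u (idx t))) a (fun s hs => by rw [h s hs t ht])]
    exact avg_bound μ aa _ _ a

open Classical in
lemma X_bound (aa : ℂ) (u : ℕ → ℕ → CG) (a : (CG →ₜ+ ZMod 2) →₀ ℂ) :
    ‖evL μ (mulF (ind (· ∈ EE) * (fun s => avg aa (idx s) (u (idx s)) s)) a)‖
      ≤ 3 * (1 + ‖aa‖) * ‖evL μ a‖ := by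
  refine propM' μ EE p₁ p₂ grid_EE _ _ (by positivity) ?_ ?_ a
  · intro a h1 h2
    exact idx_bound μ aa u a fun s hs t ht => idx_of_p₁ (h1 s hs) (h1 t ht) (h2 s hs t ht)
  · intro a h1 h2
    exact idx_bound μ aa u a fun s hs t ht => idx_of_p₂ (h1 s hs) (h1 t ht) (h2 s hs t ht)

open Classical in
lemma exists_x₁ (aa : ℂ) : ∃ T : Multipliers μ 4,
    sym μ (dense_evL μ) T = ind (· ∈ EE) * X₁ aa :=
  exists_mult μ (dense_evL μ) _ _ (X_bound μ aa fun N i => uu N (i + 1) 0)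

open Classical in
lemma exists_x₂ (aa : ℂ) : ∃ T : Multipliers μ 4,
    sym μ (dense_evL μ) T = ind (· ∈ EE) * X₂ aa :=
  exists_mult μ (dense_evL μ) _ _ (X_bound μ aa fun N i => uu N 0 (i + 1))

open Classical in
lemma exists_e : ∃ T : Multipliers μ 4, sym μ (dense_evL μ) T = ind (· ∈ EE) ∧ ‖T‖ ≤ 3 := by
  have h : ∀ a, ‖evL μ (mulF (ind (· ∈ EE)) a)‖ ≤ 3 * ‖evL μ a‖ := by
    intro a
    have := propM' μ EE p₁ p₂ grid_EE 1 1 zero_le_one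
      (fun a _ _ => by
        rw [one_mul]
        apply le_of_eq
        congr 2
        ext s
        rw [mulF_apply, Pi.one_apply, one_mul])
      (fun a _ _ => by
        rw [one_mul]
        apply le_of_eq
        congr 2
        ext s
        rw [mulF_apply, Pi.one_apply, one_mul]) a
    rwa [mul_one, mul_one] at this
  obtain ⟨T, hT⟩ := exists_mult μ (dense_evL μ) _ _ h
  refine ⟨T, hT, norm_le_of_bound μ (dense_evL μ) T 3 (by norm_num) ?_⟩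
  rw [hT]
  exact h

open Classical in
lemma exists_line {Λ₁ Λ₂ : Type*} (p₁ : (CG →ₜ+ ZMod 2) → Λ₁) (p₂ : (CG →ₜ+ ZMod 2) → Λ₂)
    (hE : Grid EE p₁ p₂) (ℓ : Λ₁) : ∃ T : Multipliers μ 4,
    sym μ (dense_evL μ) T = ind (fun s => s ∈ EE ∧ p₁ s = ℓ) ∧ ‖T‖ ≤ 2 := by
  have h := line_mult μ EE p₁ p₂ hE ℓ
  obtain ⟨T, hT⟩ := exists_mult μ (dense_evL μ) _ _ h
  refine ⟨T, hT, norm_le_of_bound μ (dense_evL μ) T 2 (by norm_num) ?_⟩
  rw [hT]
  exact h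

end CG

end Pool.Agent.H209.Cx
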