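import Pool.Agent.H209.Cx.Func

/-!
# The three multipliers generate a proper ideal
-/

namespace Pool.Agent.H209.Cx

open MeasureTheory
open scoped ENNReal ComplexConjugate

set_option linter.unusedSectionVars false

/-- rows -/
def ln (N : ℕ) (w : Fin N → ZMod 2) (i : ℕ) : CG →ₜ+ ZMod 2 where
  toFun x := ∑ j ∈ Finset.range (N + 1), ex w j * x (code N i j)
  map_zero' := by simp
  map_add' x y := by
    simp only [Pi.add_apply, mul_add, Finset.sum_add_distrib]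
  continuous_toFun := by
    refine continuous_finsetSum _ fun j _ => ?_
    exact (continuous_of_discreteTopology (f := fun z : ZMod 2 => ex w j * z)).comp
      (continuous_apply (code N i j))

/-- columns -/
def ln' (N : ℕ) (v : Fin N → ZMod 2) (j : ℕ) : CG →ₜ+ ZMod 2 where
  toFun x := ∑ i ∈ Finset.range (N + 1), ex v i * x (code N i j)
  map_zero' := by simp
  map_add' x y := by
    simp only [Pi.add_apply, mul_add, Finset.sum_add_distrib]
  continuous_toFun := by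
    refine continuous_finsetSum _ fun i _ => ?_
    exact (continuous_of_discreteTopology (f := fun z : ZMod 2 => ex v i * z)).comp
      (continuous_apply (code N i j))

lemma ln_apply (N : ℕ) (w : Fin N → ZMod 2) (i : ℕ) (x : CG) :
    ln N w i x = ∑ j ∈ Finset.range (N + 1), ex w j * x (code N i j) := rfl

lemma ln'_apply (N : ℕ) (v : Fin N → ZMod 2) (j : ℕ) (x : CG) :
    ln' N v j x = ∑ i ∈ Finset.range (N + 1), ex v i * x (code N i j) := rfl

lemma eC_row (N : ℕ) (v w : Fin N → ZMod 2) (x : CG) :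
    eC N v w x = ln N w 0 x + ∑ i : Fin N, v i * ln N w (i + 1) x := by
  have h : eC N v w x = ∑ i ∈ Finset.range (N + 1), ex v i * ln N w i x := by
    rw [eC_apply]
    refine Finset.sum_congr rfl fun i _ => ?_
    rw [ln_apply, Finset.mul_sum]
    refine Finset.sum_congr rfl fun j _ => ?_
    ring
  rw [h, Finset.sum_range_succ', ex_zero, one_mul, add_comm, Finset.sum_range]
  congr 1
  refine Finset.sum_congr rfl fun i _ => ?_
  rw [ex_succ]

lemma eC_col (N : ℕ) (v w : Fin N → ZMod 2) (x : CG) :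
    eC N v w x = ln' N v 0 x + ∑ j : Fin N, w j * ln' N v (j + 1) x := by
  have h : eC N v w x = ∑ j ∈ Finset.range (N + 1), ex w j * ln' N v j x := by
    rw [eC_apply, Finset.sum_comm]
    refine Finset.sum_congr rfl fun j _ => ?_
    rw [ln'_apply, Finset.mul_sum]
    refine Finset.sum_congr rfl fun i _ => ?_
    ring
  rw [h, Finset.sum_range_succ', ex_zero, one_mul, add_comm, Finset.sum_range]
  congr 1
  refine Finset.sum_congr rfl fun i _ => ?_
  rw [ex_succ]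

lemma inj_row (N : ℕ) (w : Fin N → ZMod 2) : Function.Injective fun v => eC N v w := by
  intro v v' h
  exact p₂_eq' (congrArg p₂ h)

lemma inj_col (N : ℕ) (v : Fin N → ZMod 2) : Function.Injective fun w => eC N v w := by
  intro w w' h
  exact p₁_eq' (congrArg p₁ h)

/-- the two-variable polynomial of a symbol -/
noncomputable def PP (r : (CG →ₜ+ ZMod 2) → ℂ) (N : ℕ) (s t : ℂ) : ℂ :=
  ∑ v : Fin N → ZMod 2, ∑ w : Fin N → ZMod 2, r (eC N v w) * bw (1 - s) s v * bw (1 - t) t w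

lemma differentiable_PP (r : (CG →ₜ+ ZMod 2) → ℂ) (N : ℕ) :
    Differentiable ℂ fun q : ℂ × ℂ => PP r N q.1 q.2 := by
  unfold PP
  simp only [bw_eq]
  fun_prop

lemma sum_norm_bw {N : ℕ} (x y : ℂ) :
    ∑ v : Fin N → ZMod 2, ‖bw x y v‖ = (‖x‖ + ‖y‖) ^ N := by
  have h : ∀ v : Fin N → ZMod 2, ‖bw x y v‖ = ∏ i, (if v i = 0 then ‖x‖ else ‖y‖) := by
    intro v
    unfold bw
    rw [norm_prod]
    refine Finset.prod_congr rfl fun i _ => ?_
    split_ifs <;> rfl
  simp_rw [h]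
  rw [sum_prod (fun _ => ‖x‖) (fun _ => ‖y‖), Finset.prod_const, Finset.card_univ,
    Fintype.card_fin]

lemma th_real (l : ℂ) (hl : l.re = 0) : ‖1 - th l‖ + ‖th l‖ = 1 := by
  have h1 : l = (l.im : ℂ) * Complex.I := by
    apply Complex.ext <;> simp [hl]
  have h2 : th l = ((1 / 2 - 4 / 17 * Real.cos l.im : ℝ) : ℂ) := by
    unfold th
    rw [h1, Complex.cosh_mul_I]
    simp
  have h3 := Real.cos_le_one l.im
  have h4 := Real.neg_one_le_cos l.im
  have h5 : (1 : ℂ) - th l = ((1 / 2 + 4 / 17 * Real.cos l.im : ℝ) : ℂ) := by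
    rw [h2]
    push_cast
    ring
  rw [h5, h2, Complex.norm_real, Complex.norm_real, Real.norm_of_nonneg (by linarith),
    Real.norm_of_nonneg (by linarith)]
  ring

variable [MeasurableSpace CG] [BorelSpace CG] (μ : Measure CG) [IsProbabilityMeasure μ]
  [μ.IsAddLeftInvariant]

lemma PP_bound (T : Multipliers μ 4) (ρ : ℝ) (hρ : 0 < ρ) (hT : ‖T‖ ≤ ρ) (N : ℕ) (s t : ℂ)
    (hs : ‖s - 1 / 2‖ ≤ 4 / 51) (ht : ‖t - 1 / 2‖ ≤ 4 / 51) :
    ‖PP (sym μ (dense_evL μ) T) N s t‖ ≤ ρ := by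
  refine cross _ (differentiable_PP _ N) ρ ?_ ?_ s t hs ht
  · intro l₁ l₂ h1 h2
    unfold PP
    rw [Finset.sum_comm]
    have h3 : ∀ w ∈ (Finset.univ : Finset (Fin N → ZMod 2)),
        ‖∑ v : Fin N → ZMod 2, sym μ (dense_evL μ) T (eC N v w) * bw (1 - th l₁) (th l₁) v
          * bw (1 - th l₂) (th l₂) w‖ ≤ ρ * ‖bw (1 - th l₂) (th l₂) w‖ := by
      intro w _
      rw [← Finset.sum_mul, norm_mul]
      gcongr
      exact line_func μ (ln N w 0) (fun i => ln N w (i + 1)) (fun v => eC N v w)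
        (fun v x => eC_row N v w x) (inj_row N w) (dense_evL μ) T ρ hρ hT l₁ h1
    refine (norm_sum_le_of_le _ h3).trans ?_
    rw [← Finset.mul_sum, sum_norm_bw, th_real l₂ h2, one_pow, mul_one]
  · intro l₁ l₂ h1 h2
    unfold PP
    have h3 : ∀ v ∈ (Finset.univ : Finset (Fin N → ZMod 2)),
        ‖∑ w : Fin N → ZMod 2, sym μ (dense_evL μ) T (eC N v w) * bw (1 - th l₁) (th l₁) v
          * bw (1 - th l₂) (th l₂) w‖ ≤ ρ * ‖bw (1 - th l₁) (th l₁) v‖ := by
      intro v _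
      have h4 : ∑ w : Fin N → ZMod 2, sym μ (dense_evL μ) T (eC N v w) * bw (1 - th l₁) (th l₁) v
          * bw (1 - th l₂) (th l₂) w = (∑ w : Fin N → ZMod 2, sym μ (dense_evL μ) T (eC N v w)
          * bw (1 - th l₂) (th l₂) w) * bw (1 - th l₁) (th l₁) v := by
        rw [Finset.sum_mul]
        refine Finset.sum_congr rfl fun w _ => ?_
        ring
      rw [h4, norm_mul]
      gcongr
      exact line_func μ (ln' N v 0) (fun i => ln' N v (i + 1)) (fun w => eC N v w)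
        (fun w x => eC_col N v w x) (inj_col N v) (dense_evL μ) T ρ hρ hT l₂ h2
    refine (norm_sum_le_of_le _ h3).trans ?_
    rw [← Finset.mul_sum, sum_norm_bw, th_real l₁ h1, one_pow, mul_one]

/-- the base point -/
noncomputable def aa : ℂ := 1 / 2 + (2 / 51 : ℝ) * Complex.I

lemma aa_sub : aa - 1 / 2 = (2 / 51 : ℝ) * Complex.I := by unfold aa; ring

lemma norm_aa_sub : ‖aa - 1 / 2‖ = 2 / 51 := by
  rw [aa_sub, norm_mul, Complex.norm_I, Complex.norm_real, Real.norm_of_nonneg (by norm_num),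
    mul_one]

lemma norm_aa : ‖aa‖ ≤ 1 := by
  have h := norm_add_le (aa - 1 / 2) (1 / 2)
  rw [sub_add_cancel, norm_aa_sub] at h
  have h2 : ‖(1 / 2 : ℂ)‖ = 1 / 2 := by simp
  rw [h2] at h
  linarith

lemma norm_one_sub_aa : ‖1 - aa‖ ≤ 1 := by
  have h := norm_sub_le (1 / 2 : ℂ) (aa - 1 / 2)
  rw [norm_aa_sub] at h
  have h2 : ‖(1 / 2 : ℂ)‖ = 1 / 2 := by simp
  have h3 : (1 / 2 : ℂ) - (aa - 1 / 2) = 1 - aa := by ring
  rw [h2, h3] at h
  linarith

/-- derivative of the weights -/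
noncomputable def dbw {N : ℕ} (v : Fin N → ZMod 2) (a : ℂ) : ℂ :=
  wt v * a ^ (wt v - 1) * (1 - a) ^ (N - wt v)
    + a ^ wt v * (-((N - wt v : ℕ) * (1 - a) ^ (N - wt v - 1)))

lemma hasDerivAt_bw {N : ℕ} (v : Fin N → ZMod 2) (a : ℂ) :
    HasDerivAt (fun t => bw (1 - t) t v) (dbw v a) a := by
  have h : (fun t : ℂ => bw (1 - t) t v) = fun t => t ^ wt v * (1 - t) ^ (N - wt v) := by
    ext t
    rw [bw_eq]
  rw [h]
  have h1 : HasDerivAt (fun t : ℂ => t ^ wt v) (wt v * a ^ (wt v - 1)) a := hasDerivAt_pow _ _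
  have h2 : HasDerivAt (fun t : ℂ => (1 - t)) (-1) a := by
    simpa using (hasDerivAt_id a).const_sub 1
  have h3 := h2.pow (N - wt v)
  have h4 := h1.mul h3
  refine h4.congr_deriv ?_
  have h5 : ((fun t : ℂ => 1 - t) ^ (N - wt v)) a = (1 - a) ^ (N - wt v) := rfl
  rw [h5]
  unfold dbw
  ring

lemma dbw_identity {N : ℕ} (hN : 0 < N) (v : Fin N → ZMod 2) (a : ℂ) :
    ((N : ℂ)⁻¹ * wt v - a) * bw (1 - a) a v = (N : ℂ)⁻¹ * (a * (1 - a)) * dbw v a := by
  have hk := wt_le v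
  rw [bw_eq]
  unfold dbw
  set k := wt v with hkdef
  obtain ⟨l, hl⟩ : ∃ l, N = k + l := ⟨N - k, by omega⟩
  have hl' : N - k = l := by omega
  rw [hl']
  have hN0 : (N : ℂ) ≠ 0 := by exact_mod_cast hN.ne'
  have hNc : (N : ℂ) = k + l := by rw [hl]; push_cast; ring
  have e1 : (k : ℂ) * a ^ (k - 1) * a = k * a ^ k := by
    rcases Nat.eq_zero_or_pos k with h | h
    · rw [h]; simp
    · rw [mul_assoc, ← pow_succ, Nat.sub_add_cancel h]
  have e2 : (l : ℂ) * (1 - a) ^ (l - 1) * (1 - a) = l * (1 - a) ^ l := by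
    rcases Nat.eq_zero_or_pos l with h | h
    · rw [h]; simp
    · rw [mul_assoc, ← pow_succ, Nat.sub_add_cancel h]
  have e3 : (N : ℂ)⁻¹ * N = 1 := inv_mul_cancel₀ hN0
  have : (N : ℂ)⁻¹ * (a * (1 - a)) * (k * a ^ (k - 1) * (1 - a) ^ l
      + a ^ k * (-(l * (1 - a) ^ (l - 1))))
      = (N : ℂ)⁻¹ * ((k * a ^ (k - 1) * a) * (1 - a) ^ l * (1 - a)
        - a ^ k * a * (l * (1 - a) ^ (l - 1) * (1 - a))) := by ring
  rw [this, e1, e2]
  linear_combination (a * (a ^ k * (1 - a) ^ l)) * e3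
    - ((N : ℂ)⁻¹ * a * (a ^ k * (1 - a) ^ l)) * hNc

lemma deriv_PP₁ (r : (CG →ₜ+ ZMod 2) → ℂ) (N : ℕ) (a : ℂ) :
    deriv (fun t => PP r N t a) a
      = ∑ v : Fin N → ZMod 2, ∑ w : Fin N → ZMod 2, r (eC N v w) * dbw v a * bw (1 - a) a w := by
  refine HasDerivAt.deriv ?_
  unfold PP
  refine HasDerivAt.fun_sum fun v _ => HasDerivAt.fun_sum fun w _ => ?_
  exact ((hasDerivAt_bw v a).const_mul (r (eC N v w))).mul_const _

lemma deriv_PP₂ (r : (CG →ₜ+ ZMod 2) → ℂ) (N : ℕ) (a : ℂ) :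
    deriv (fun t => PP r N a t) a
      = ∑ v : Fin N → ZMod 2, ∑ w : Fin N → ZMod 2, r (eC N v w) * bw (1 - a) a v * dbw w a := by
  refine HasDerivAt.deriv ?_
  unfold PP
  refine HasDerivAt.fun_sum fun v _ => HasDerivAt.fun_sum fun w _ => ?_
  exact (hasDerivAt_bw w a).const_mul (r (eC N v w) * bw (1 - a) a v)

lemma norm_deriv_PP₁ (T : Multipliers μ 4) (ρ : ℝ) (hρ : 0 < ρ) (hT : ‖T‖ ≤ ρ) (N : ℕ) :
    ‖deriv (fun t => PP (sym μ (dense_evL μ) T) N t aa) aa‖ ≤ ρ / (2 / 51) := by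
  refine Complex.norm_deriv_le_of_forall_mem_sphere_norm_le (by norm_num) ?_ ?_
  · have : (fun t => PP (sym μ (dense_evL μ) T) N t aa)
      = (fun q : ℂ × ℂ => PP (sym μ (dense_evL μ) T) N q.1 q.2) ∘ fun t => (t, aa) := rfl
    rw [this]
    exact ((differentiable_PP _ N).comp (by fun_prop)).diffContOnCl
  · intro t ht
    rw [mem_sphere_iff_norm] at ht
    refine PP_bound μ T ρ hρ hT N t aa ?_ ?_
    · have h := norm_add_le (t - aa) (aa - 1 / 2)
      rw [sub_add_sub_cancel, ht, norm_aa_sub] at h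
      linarith
    · rw [norm_aa_sub]; norm_num

lemma norm_deriv_PP₂ (T : Multipliers μ 4) (ρ : ℝ) (hρ : 0 < ρ) (hT : ‖T‖ ≤ ρ) (N : ℕ) :
    ‖deriv (fun t => PP (sym μ (dense_evL μ) T) N aa t) aa‖ ≤ ρ / (2 / 51) := by
  refine Complex.norm_deriv_le_of_forall_mem_sphere_norm_le (by norm_num) ?_ ?_
  · have : (fun t => PP (sym μ (dense_evL μ) T) N aa t)
      = (fun q : ℂ × ℂ => PP (sym μ (dense_evL μ) T) N q.1 q.2) ∘ fun t => (aa, t) := rfl
    rw [this]
    exact ((differentiable_PP _ N).comp (by fun_prop)).diffContOnCl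
  · intro t ht
    rw [mem_sphere_iff_norm] at ht
    refine PP_bound μ T ρ hρ hT N aa t ?_ ?_
    · rw [norm_aa_sub]; norm_num
    · have h := norm_add_le (t - aa) (aa - 1 / 2)
      rw [sub_add_sub_cancel, ht, norm_aa_sub] at h
      linarith

/-- **Main lemma**: no Bezout identity for the two coordinate symbols. -/
theorem no_bezout (R₁ R₂ : Multipliers μ 4)
    (h : ∀ N, ∀ v w : Fin N → ZMod 2,
      ((N : ℂ)⁻¹ * wt v - aa) * sym μ (dense_evL μ) R₁ (eC N v w)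
      + ((N : ℂ)⁻¹ * wt w - aa) * sym μ (dense_evL μ) R₂ (eC N v w) = 1) : False := by
  set ρ : ℝ := ‖R₁‖ + ‖R₂‖ + 1 with hρdef
  have hn1 := norm_nonneg R₁
  have hn2 := norm_nonneg R₂
  have hρ : 0 < ρ := by positivity
  obtain ⟨N, hN⟩ := exists_nat_gt (51 * ρ)
  have hNpos : 0 < N := by
    have : (0 : ℝ) < N := lt_trans (by positivity) hN
    exact_mod_cast this
  have hNr : (0 : ℝ) < N := by exact_mod_cast hNpos
  have key : (1 : ℂ) = (N : ℂ)⁻¹ * (aa * (1 - aa)) *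
      (deriv (fun t => PP (sym μ (dense_evL μ) R₁) N t aa) aa
        + deriv (fun t => PP (sym μ (dense_evL μ) R₂) N aa t) aa) := by
    have h1 : (1 : ℂ) = ∑ v : Fin N → ZMod 2, ∑ w : Fin N → ZMod 2,
        bw (1 - aa) aa v * bw (1 - aa) aa w := by
      rw [← Finset.sum_mul_sum, sum_bw, sub_add_cancel, one_pow, one_mul]
    refine h1.trans ?_
    rw [deriv_PP₁, deriv_PP₂, mul_add, Finset.mul_sum, Finset.mul_sum,
      ← Finset.sum_add_distrib]
    refine Finset.sum_congr rfl fun v _ => ?_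
    rw [Finset.mul_sum, Finset.mul_sum, ← Finset.sum_add_distrib]
    refine Finset.sum_congr rfl fun w _ => ?_
    have h2 := h N v w
    have h3 := dbw_identity hNpos v aa
    have h4 := dbw_identity hNpos w aa
    linear_combination (-(bw (1 - aa) aa v * bw (1 - aa) aa w)) * h2
      + (sym μ (dense_evL μ) R₁ (eC N v w) * bw (1 - aa) aa w) * h3
      + (sym μ (dense_evL μ) R₂ (eC N v w) * bw (1 - aa) aa v) * h4
  have h1 := norm_deriv_PP₁ μ R₁ ρ hρ (by rw [hρdef]; linarith) N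
  have h2 := norm_deriv_PP₂ μ R₂ ρ hρ (by rw [hρdef]; linarith) N
  have h3 := norm_add_le (deriv (fun t => PP (sym μ (dense_evL μ) R₁) N t aa) aa)
    (deriv (fun t => PP (sym μ (dense_evL μ) R₂) N aa t) aa)
  have h4 : (1 : ℝ) = ‖(N : ℂ)⁻¹ * (aa * (1 - aa)) *
      (deriv (fun t => PP (sym μ (dense_evL μ) R₁) N t aa) aa
        + deriv (fun t => PP (sym μ (dense_evL μ) R₂) N aa t) aa)‖ := by
    rw [← key, norm_one]
  rw [norm_mul, norm_mul, norm_mul, norm_inv, Complex.norm_natCast] at h4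
  have h5 : ‖aa‖ * ‖1 - aa‖ ≤ 1 := mul_le_one₀ norm_aa (norm_nonneg _) norm_one_sub_aa
  have h6 : (N : ℝ)⁻¹ * (‖aa‖ * ‖1 - aa‖) ≤ (N : ℝ)⁻¹ := by
    have : 0 ≤ (N : ℝ)⁻¹ := by positivity
    nlinarith
  have h7 : (1 : ℝ) ≤ (N : ℝ)⁻¹ * (51 * ρ) := by
    calc (1 : ℝ) = _ := h4
      _ ≤ (N : ℝ)⁻¹ * (51 * ρ) := by
        gcongr
        linarith
  have h8 : (N : ℝ)⁻¹ * (51 * ρ) < 1 := by
    rw [inv_mul_lt_iff₀ hNr, mul_one]
    exact hN
  linarith

end Pool.Agent.H209.Cx
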