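import Pool.Agent.H209.Cx.Grid2

/-!
# Multipliers supported on a grid
-/

namespace Pool.Agent.H209.Cx

open MeasureTheory
open scoped ENNReal ComplexConjugate

set_option linter.unusedSectionVars false

variable {G : Type*} [AddCommGroup G] [TopologicalSpace G]
  [IsTopologicalAddGroup G] [CompactSpace G] [MeasurableSpace G] [BorelSpace G]
  (μ : Measure G) [IsProbabilityMeasure μ] [μ.IsAddLeftInvariant]

/-- A set of characters with two systems of lines. -/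
structure Grid {G : Type*} [AddCommGroup G] [TopologicalSpace G] {Λ₁ Λ₂ : Type*}
    (E : Set (G →ₜ+ ZMod 2)) (p₁ : (G →ₜ+ ZMod 2) → Λ₁) (p₂ : (G →ₜ+ ZMod 2) → Λ₂) : Prop where
  inj : ∀ s ∈ E, ∀ t ∈ E, p₁ s = p₁ t → p₂ s = p₂ t → s = t
  quad : ∀ s ∈ E, ∀ t ∈ E, ∀ u ∈ E, ∀ v ∈ E, s + t = u + v → s ≠ t →
      (s = u ∧ t = v) ∨ (s = v ∧ t = u) ∨ (p₁ s = p₁ t ∧ p₁ u = p₁ v ∧ p₁ s = p₁ u) ∨
      (p₂ s = p₂ t ∧ p₂ u = p₂ v ∧ p₂ s = p₂ u)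
  cl₁ : ∀ s ∈ E, ∀ t ∈ E, ∀ u ∈ E, p₁ s = p₁ t → p₁ t = p₁ u →
      s + t + u ∈ E ∧ p₁ (s + t + u) = p₁ s
  cl₂ : ∀ s ∈ E, ∀ t ∈ E, ∀ u ∈ E, p₂ s = p₂ t → p₂ t = p₂ u →
      s + t + u ∈ E ∧ p₂ (s + t + u) = p₂ s

/-- fourth moment -/
noncomputable def I4 (a : (G →ₜ+ ZMod 2) → ℂ) (T : Finset (G →ₜ+ ZMod 2)) : ℝ :=
  ∫ x, sq a T x ^ 2 ∂μ

lemma I4_nonneg (a : (G →ₜ+ ZMod 2) → ℂ) (T : Finset (G →ₜ+ ZMod 2)) : 0 ≤ I4 μ a T :=
  integral_nonneg fun _ => sq_nonneg _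

lemma I4_singleton (a : (G →ₜ+ ZMod 2) → ℂ) (s : G →ₜ+ ZMod 2) : I4 μ a {s} = ‖a s‖ ^ 4 := by
  unfold I4 sq tp
  simp only [Finset.sum_singleton, norm_mul, norm_chi, mul_one]
  simp
  ring

theorem lineA_I4 {Λ : Type*} [DecidableEq (G →ₜ+ ZMod 2)] [DecidableEq Λ]
    (E : Set (G →ₜ+ ZMod 2)) [DecidablePred (· ∈ E)]
    (p : (G →ₜ+ ZMod 2) → Λ)
    (hcl : ∀ s ∈ E, ∀ t ∈ E, ∀ u ∈ E, p s = p t → p t = p u → s + t + u ∈ E ∧ p (s + t + u) = p s)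
    (hor : ∀ s ∈ E, ∀ t ∈ E, ∀ u ∈ E, ∀ v ∈ E, p s = p t → p u = p v → s + t = u + v → s ≠ t →
      p s = p u)
    (a : (G →ₜ+ ZMod 2) → ℂ) (S : Finset (G →ₜ+ ZMod 2)) (L : Finset Λ) :
    ∑ ℓ ∈ L, I4 μ a ((S.filter (· ∈ E)).filter (fun s => p s = ℓ)) ≤ 3 * I4 μ a S := by
  apply lineA μ a S L (fun ℓ => (S.filter (· ∈ E)).filter (fun s => p s = ℓ))
  · intro ℓ _
    exact (Finset.filter_subset _ _).trans (Finset.filter_subset _ _)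
  · intro ℓ _ ℓ' _ hne
    rw [Finset.disjoint_left]
    intro s h1 h2
    rw [Finset.mem_filter] at h1 h2
    exact hne (h1.2.symm.trans h2.2)
  · intro ℓ _ s hs t ht u hu hS
    simp only [Finset.mem_filter] at hs ht hu ⊢
    obtain ⟨h1, h2⟩ := hcl s hs.1.2 t ht.1.2 u hu.1.2 (hs.2.trans ht.2.symm) (ht.2.trans hu.2.symm)
    exact ⟨⟨hS, h1⟩, h2.trans hs.2⟩
  · intro ℓ _ ℓ' _ hne s hs t ht u hu v hv hst he
    simp only [Finset.mem_filter] at hs ht hu hv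
    have := hor s hs.1.2 t ht.1.2 u hu.1.2 v hv.1.2 (hs.2.trans ht.2.symm) (hu.2.trans hv.2.symm)
      he hst
    exact hne (by rw [← hs.2, this, hu.2])

theorem propM {Λ₁ Λ₂ : Type*} [DecidableEq (G →ₜ+ ZMod 2)] [DecidableEq Λ₁] [DecidableEq Λ₂]
    (E : Set (G →ₜ+ ZMod 2)) [DecidablePred (· ∈ E)]
    (p₁ : (G →ₜ+ ZMod 2) → Λ₁) (p₂ : (G →ₜ+ ZMod 2) → Λ₂) (hE : Grid E p₁ p₂)
    (m : (G →ₜ+ ZMod 2) → ℂ) (c : ℝ) (hc : 0 ≤ c)
    (h₁ : ∀ T : Finset (G →ₜ+ ZMod 2), (∀ s ∈ T, s ∈ E) → (∀ s ∈ T, ∀ t ∈ T, p₁ s = p₁ t) →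
      ∀ a : (G →ₜ+ ZMod 2) → ℂ, I4 μ (m * a) T ≤ c ^ 4 * I4 μ a T)
    (h₂ : ∀ T : Finset (G →ₜ+ ZMod 2), (∀ s ∈ T, s ∈ E) → (∀ s ∈ T, ∀ t ∈ T, p₂ s = p₂ t) →
      ∀ a : (G →ₜ+ ZMod 2) → ℂ, I4 μ (m * a) T ≤ c ^ 4 * I4 μ a T)
    (a : (G →ₜ+ ZMod 2) → ℂ) (S : Finset (G →ₜ+ ZMod 2)) :
    I4 μ (m * a) (S.filter (· ∈ E)) ≤ 36 * c ^ 4 * I4 μ a S := by
  set U := S.filter (· ∈ E) with hU
  have hUE : ∀ s ∈ U, s ∈ E := fun s hs => (Finset.mem_filter.1 hs).2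
  have hm : ∀ s ∈ U, ‖m s‖ ≤ c := by
    intro s hs
    have := h₁ {s} (by simpa using hUE s hs) (by simp) 1
    rw [I4_singleton, I4_singleton] at this
    simp only [Pi.mul_apply, Pi.one_apply, mul_one, norm_one, one_pow] at this
    exact le_of_pow_le_pow_left₀ (by norm_num) hc this
  have hms : ms (m * a) U ≤ c ^ 2 * ms a S := by
    unfold ms
    rw [Finset.mul_sum]
    refine (Finset.sum_le_sum (fun s hs => ?_)).trans
      (Finset.sum_le_sum_of_subset_of_nonneg (Finset.filter_subset _ _) fun s _ _ => by positivity)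
    rw [Pi.mul_apply, norm_mul, mul_pow]
    have := hm s hs
    gcongr
  have hms2 : ms (m * a) U ^ 2 ≤ c ^ 4 * I4 μ a S := by
    have h1 := ms_sq_le μ a S
    calc ms (m * a) U ^ 2 ≤ (c ^ 2 * ms a S) ^ 2 := by
          have := ms_nonneg (m * a) U
          gcongr
      _ = c ^ 4 * ms a S ^ 2 := by ring
      _ ≤ c ^ 4 * I4 μ a S := by
          unfold I4
          gcongr
  have hB := lineB μ (m * a) U p₁ p₂ (fun s hs t ht => hE.inj s (hUE s hs) t (hUE t ht))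
    (fun s hs t ht u hu v hv => hE.quad s (hUE s hs) t (hUE t ht) u (hUE u hu) v (hUE v hv))
  have e₁ : ∑ ℓ ∈ U.image p₁, I4 μ (m * a) (U.filter (fun s => p₁ s = ℓ)) ≤
      c ^ 4 * (3 * I4 μ a S) := by
    calc ∑ ℓ ∈ U.image p₁, I4 μ (m * a) (U.filter (fun s => p₁ s = ℓ))
        ≤ ∑ ℓ ∈ U.image p₁, c ^ 4 * I4 μ a (U.filter (fun s => p₁ s = ℓ)) := by
          refine Finset.sum_le_sum fun ℓ _ => h₁ _ ?_ ?_ a
          · intro s hs; exact hUE s (Finset.mem_filter.1 hs).1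
          · intro s hs t ht
            exact (Finset.mem_filter.1 hs).2.trans (Finset.mem_filter.1 ht).2.symm
      _ = c ^ 4 * ∑ ℓ ∈ U.image p₁, I4 μ a (U.filter (fun s => p₁ s = ℓ)) := by
          rw [Finset.mul_sum]
      _ ≤ c ^ 4 * (3 * I4 μ a S) := by
          refine mul_le_mul_of_nonneg_left (lineA_I4 μ E p₁ hE.cl₁ ?_ a S _) (by positivity)
          intro s hs t ht u hu v hv hst huv he hne
          rcases hE.quad s hs t ht u hu v hv he hne with h | h | h | h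
          · rw [h.1]
          · rw [h.1, huv]
          · exact h.2.2
          · exact absurd (hE.inj s hs t ht hst h.1) hne
  have e₂ : ∑ ℓ ∈ U.image p₂, I4 μ (m * a) (U.filter (fun s => p₂ s = ℓ)) ≤
      c ^ 4 * (3 * I4 μ a S) := by
    calc ∑ ℓ ∈ U.image p₂, I4 μ (m * a) (U.filter (fun s => p₂ s = ℓ))
        ≤ ∑ ℓ ∈ U.image p₂, c ^ 4 * I4 μ a (U.filter (fun s => p₂ s = ℓ)) := by
          refine Finset.sum_le_sum fun ℓ _ => h₂ _ ?_ ?_ a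
          · intro s hs; exact hUE s (Finset.mem_filter.1 hs).1
          · intro s hs t ht
            exact (Finset.mem_filter.1 hs).2.trans (Finset.mem_filter.1 ht).2.symm
      _ = c ^ 4 * ∑ ℓ ∈ U.image p₂, I4 μ a (U.filter (fun s => p₂ s = ℓ)) := by
          rw [Finset.mul_sum]
      _ ≤ c ^ 4 * (3 * I4 μ a S) := by
          refine mul_le_mul_of_nonneg_left (lineA_I4 μ E p₂ hE.cl₂ ?_ a S _) (by positivity)
          intro s hs t ht u hu v hv hst huv he hne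
          rcases hE.quad s hs t ht u hu v hv he hne with h | h | h | h
          · rw [h.1]
          · rw [h.1, huv]
          · exact absurd (hE.inj s hs t ht h.1 hst) hne
          · exact h.2.2
  have hB' : I4 μ (m * a) U ≤ 4 * (3 * ms (m * a) U ^ 2
      + ∑ ℓ ∈ U.image p₁, I4 μ (m * a) (U.filter (fun s => p₁ s = ℓ))
      + ∑ ℓ ∈ U.image p₂, I4 μ (m * a) (U.filter (fun s => p₂ s = ℓ))) := hB
  linarith

end Pool.Agent.H209.Cx
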