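import Mathlib

/-!
# Making an embedding of commutative Banach algebras isometric
-/

namespace Pool.Agent.H209.Cx

set_option linter.unusedSectionVars false

section Renorm

variable {A B₀ : Type} [NormedCommRing A] [NormOneClass A] [NormedAlgebra ℂ A]
  [NormedCommRing B₀] [NormedAlgebra ℂ B₀] (J : A →ₐ[ℂ] B₀) (C : ℝ) (hC : ∀ a, ‖J a‖ ≤ C * ‖a‖)

/-- the embedding as a continuous linear map -/
noncomputable def JL : A →L[ℂ] B₀ := J.toLinearMap.mkContinuous C hC

/-- module norm -/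
noncomputable def Mn (z : B₀) : ℝ := ‖(ContinuousLinearMap.mul ℂ B₀ z).comp (JL J C hC)‖

lemma Mn_nonneg (z : B₀) : 0 ≤ Mn J C hC z := norm_nonneg _

lemma Mn_zero : Mn J C hC 0 = 0 := by
  unfold Mn; simp

lemma Mn_neg (z : B₀) : Mn J C hC (-z) = Mn J C hC z := by
  unfold Mn
  rw [map_neg, ContinuousLinearMap.neg_comp, norm_neg]

lemma Mn_add (z w : B₀) : Mn J C hC (z + w) ≤ Mn J C hC z + Mn J C hC w := by
  unfold Mn
  rw [map_add, ContinuousLinearMap.add_comp]
  exact norm_add_le _ _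

lemma Mn_smul (c : ℂ) (z : B₀) : Mn J C hC (c • z) = ‖c‖ * Mn J C hC z := by
  unfold Mn
  rw [map_smul, ContinuousLinearMap.smul_comp, norm_smul]

lemma le_Mn (z : B₀) (a : A) : ‖z * J a‖ ≤ Mn J C hC z * ‖a‖ :=
  ((ContinuousLinearMap.mul ℂ B₀ z).comp (JL J C hC)).le_opNorm a

lemma norm_le_Mn (z : B₀) : ‖z‖ ≤ Mn J C hC z := by
  have := le_Mn J C hC z 1
  rwa [map_one, mul_one, norm_one, mul_one] at this

lemma Mn_le (z : B₀) (c : ℝ) (hc : 0 ≤ c) (h : ∀ a, ‖z * J a‖ ≤ c * ‖a‖) : Mn J C hC z ≤ c :=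
  ContinuousLinearMap.opNorm_le_bound _ hc h

include J hC in
lemma C_nonneg : 0 ≤ C := by
  have := hC 1
  rw [norm_one, mul_one] at this
  exact (norm_nonneg _).trans this

lemma Mn_le_norm (z : B₀) : Mn J C hC z ≤ C * ‖z‖ := by
  have := C_nonneg J C hC
  refine Mn_le J C hC z _ (by positivity) fun a => ?_
  calc ‖z * J a‖ ≤ ‖z‖ * ‖J a‖ := norm_mul_le _ _
    _ ≤ ‖z‖ * (C * ‖a‖) := by gcongr; exact hC a
    _ = C * ‖z‖ * ‖a‖ := by ring

lemma Mn_J_mul (a : A) (z : B₀) : Mn J C hC (J a * z) ≤ ‖a‖ * Mn J C hC z := by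
  have h0 := Mn_nonneg J C hC z
  refine Mn_le J C hC _ _ (by positivity) fun x => ?_
  calc ‖J a * z * J x‖ = ‖z * J (a * x)‖ := by rw [map_mul]; ring_nf
    _ ≤ Mn J C hC z * ‖a * x‖ := le_Mn J C hC z _
    _ ≤ Mn J C hC z * (‖a‖ * ‖x‖) := by gcongr; exact norm_mul_le _ _
    _ = _ := by ring

lemma Mn_mul (z w : B₀) : Mn J C hC (z * w) ≤ Mn J C hC z * Mn J C hC w := by
  have h0 := Mn_nonneg J C hC z
  have h1 := Mn_nonneg J C hC w
  refine Mn_le J C hC _ _ (by positivity) fun x => ?_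
  calc ‖z * w * J x‖ = ‖w * (z * J x)‖ := by ring_nf
    _ ≤ ‖w‖ * ‖z * J x‖ := norm_mul_le _ _
    _ ≤ Mn J C hC w * (Mn J C hC z * ‖x‖) := by
        gcongr
        · exact norm_le_Mn J C hC w
        · exact le_Mn J C hC z x
    _ = _ := by ring

variable (K : ℝ)

/-- the set whose infimum is the new norm -/
def NnSet (b : B₀) : Set ℝ := Set.range fun a : A => ‖a‖ + K * Mn J C hC (b - J a)

/-- new norm -/
noncomputable def Nn (b : B₀) : ℝ := ⨅ a : A, (‖a‖ + K * Mn J C hC (b - J a))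

variable (hK1 : 1 ≤ K)

include hK1 in
lemma Nn_bdd (b : B₀) : BddBelow (Set.range fun a : A => ‖a‖ + K * Mn J C hC (b - J a)) := by
  refine ⟨0, ?_⟩
  rintro _ ⟨a, rfl⟩
  have := Mn_nonneg J C hC (b - J a)
  positivity

include hK1 in
lemma Nn_le (b : B₀) (a : A) : Nn J C hC K b ≤ ‖a‖ + K * Mn J C hC (b - J a) :=
  ciInf_le (Nn_bdd J C hC K hK1 b) a

lemma le_Nn (b : B₀) (c : ℝ) (h : ∀ a : A, c ≤ ‖a‖ + K * Mn J C hC (b - J a)) :
    c ≤ Nn J C hC K b := le_ciInf h

include hK1 in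
lemma Nn_nonneg (b : B₀) : 0 ≤ Nn J C hC K b := by
  refine le_Nn J C hC K b 0 fun a => ?_
  have := Mn_nonneg J C hC (b - J a)
  positivity

include hK1 in
lemma Nn_le_Mn (b : B₀) : Nn J C hC K b ≤ K * Mn J C hC b := by
  have := Nn_le J C hC K hK1 b 0
  simpa using this

include hK1 in
lemma Nn_zero : Nn J C hC K 0 = 0 := by
  refine le_antisymm ?_ (Nn_nonneg J C hC K hK1 0)
  have := Nn_le_Mn J C hC K hK1 0
  rwa [Mn_zero, mul_zero] at this

include hK1 in
lemma exists_Nn (b : B₀) (ε : ℝ) (hε : 0 < ε) :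
    ∃ a : A, ‖a‖ + K * Mn J C hC (b - J a) < Nn J C hC K b + ε :=
  exists_lt_of_ciInf_lt (by unfold Nn; linarith)

include hK1 in
lemma Nn_add (b c : B₀) : Nn J C hC K (b + c) ≤ Nn J C hC K b + Nn J C hC K c := by
  refine le_of_forall_pos_le_add fun ε hε => ?_
  obtain ⟨a, ha⟩ := exists_Nn J C hC K hK1 b (ε / 2) (by positivity)
  obtain ⟨a', ha'⟩ := exists_Nn J C hC K hK1 c (ε / 2) (by positivity)
  have h1 := Nn_le J C hC K hK1 (b + c) (a + a')
  have h2 : Mn J C hC (b + c - J (a + a')) ≤ Mn J C hC (b - J a) + Mn J C hC (c - J a') := by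
    have : b + c - J (a + a') = (b - J a) + (c - J a') := by rw [map_add]; ring
    rw [this]
    exact Mn_add J C hC _ _
  have h3 := norm_add_le a a'
  nlinarith

include hK1 in
lemma Nn_neg_le (b : B₀) : Nn J C hC K (-b) ≤ Nn J C hC K b := by
  refine le_Nn J C hC K b _ fun a => ?_
  have h1 := Nn_le J C hC K hK1 (-b) (-a)
  have : -b - J (-a) = -(b - J a) := by rw [map_neg]; ring
  rwa [norm_neg, this, Mn_neg] at h1

include hK1 in
lemma Nn_neg (b : B₀) : Nn J C hC K (-b) = Nn J C hC K b := by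
  refine le_antisymm (Nn_neg_le J C hC K hK1 b) ?_
  have := Nn_neg_le J C hC K hK1 (-b)
  rwa [neg_neg] at this

include hK1 in
lemma Nn_smul_le (c : ℂ) (b : B₀) : Nn J C hC K (c • b) ≤ ‖c‖ * Nn J C hC K b := by
  rcases eq_or_ne c 0 with rfl | hc
  · rw [zero_smul, Nn_zero J C hC K hK1, norm_zero, zero_mul]
  have hc' : 0 < ‖c‖ := norm_pos_iff.2 hc
  rw [← div_le_iff₀' hc']
  refine le_Nn J C hC K b _ fun a => ?_
  rw [div_le_iff₀' hc']
  have h1 := Nn_le J C hC K hK1 (c • b) (c • a)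
  have : c • b - J (c • a) = c • (b - J a) := by rw [map_smul, smul_sub]
  rw [this, Mn_smul, norm_smul] at h1
  linarith

include hK1 in
lemma Nn_mul (b c : B₀) : Nn J C hC K (b * c) ≤ Nn J C hC K b * Nn J C hC K c := by
  have key : ∀ a a' : A, Nn J C hC K (b * c) ≤
      (‖a‖ + K * Mn J C hC (b - J a)) * (‖a'‖ + K * Mn J C hC (c - J a')) := by
    intro a a'
    set z := b - J a with hz
    set w := c - J a' with hw
    have h1 := Nn_le J C hC K hK1 (b * c) (a * a')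
    have e : b * c - J (a * a') = (J a * w + J a' * z) + z * w := by
      rw [map_mul, hz, hw]; ring
    rw [e] at h1
    have h2 := Mn_add J C hC (J a * w + J a' * z) (z * w)
    have h3 := Mn_add J C hC (J a * w) (J a' * z)
    have h4 := Mn_J_mul J C hC a w
    have h5 := Mn_J_mul J C hC a' z
    have h6 := Mn_mul J C hC z w
    have h7 := norm_mul_le a a'
    have hz0 := Mn_nonneg J C hC z
    have hw0 := Mn_nonneg J C hC w
    have hK0 : 0 ≤ K := by linarith
    have h8 : K * Mn J C hC (J a * w + J a' * z + z * w) ≤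
        K * (‖a‖ * Mn J C hC w + ‖a'‖ * Mn J C hC z + Mn J C hC z * Mn J C hC w) := by
      gcongr
      linarith
    have h9 : K * (Mn J C hC z * Mn J C hC w) ≤ K * (K * (Mn J C hC z * Mn J C hC w)) :=
      mul_le_mul_of_nonneg_left (le_mul_of_one_le_left (by positivity) hK1) hK0
    nlinarith
  -- pass to the infimum in both variables
  have k1 : ∀ a : A, Nn J C hC K (b * c) ≤ (‖a‖ + K * Mn J C hC (b - J a)) * Nn J C hC K c := by
    intro a
    have hp : 0 ≤ ‖a‖ + K * Mn J C hC (b - J a) := by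
      have := Mn_nonneg J C hC (b - J a)
      positivity
    rcases hp.eq_or_lt with hp | hp
    · have := key a 0
      rw [← hp, zero_mul] at this ⊢
      exact this
    · rw [← div_le_iff₀' hp]
      refine le_Nn J C hC K c _ fun a' => ?_
      rw [div_le_iff₀' hp]
      exact key a a'
  rcases (Nn_nonneg J C hC K hK1 c).eq_or_lt with hp | hp
  · have := k1 0
    rw [← hp, mul_zero] at this ⊢
    exact this
  · rw [← div_le_iff₀ hp]
    refine le_Nn J C hC K b _ fun a => ?_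
    rw [div_le_iff₀ hp]
    exact k1 a

include hK1 in
lemma Nn_J (hK : ∀ a, ‖a‖ ≤ K * ‖J a‖) (a : A) : Nn J C hC K (J a) = ‖a‖ := by
  refine le_antisymm ?_ ?_
  · have := Nn_le J C hC K hK1 (J a) a
    rwa [sub_self, Mn_zero, mul_zero, add_zero] at this
  · refine le_Nn J C hC K _ _ fun a' => ?_
    have h1 : ‖a - a'‖ ≤ K * ‖J (a - a')‖ := hK _
    have h2 : ‖J (a - a')‖ ≤ Mn J C hC (J a - J a') := by
      rw [map_sub]; exact norm_le_Mn J C hC _
    have h3 : ‖a‖ ≤ ‖a'‖ + ‖a - a'‖ := by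
      have := norm_add_le a' (a - a')
      rwa [add_sub_cancel] at this
    have h4 : K * ‖J (a - a')‖ ≤ K * Mn J C hC (J a - J a') := by gcongr
    linarith

include hK1 in
lemma norm_le_Nn (b : B₀) : ‖b‖ ≤ (C + 1) * Nn J C hC K b := by
  have hC0 := C_nonneg J C hC
  have hpos : 0 < C + 1 := by linarith
  rw [← div_le_iff₀' hpos]
  refine le_Nn J C hC K b _ fun a => ?_
  rw [div_le_iff₀' hpos]
  have h1 : ‖b‖ ≤ ‖J a‖ + ‖b - J a‖ := by
    have := norm_add_le (J a) (b - J a)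
    rwa [add_sub_cancel] at this
  have h2 := hC a
  have h3 := norm_le_Mn J C hC (b - J a)
  have h4 := Mn_nonneg J C hC (b - J a)
  have h5 := norm_nonneg a
  nlinarith [mul_nonneg hC0 h4, mul_nonneg (by linarith : (0 : ℝ) ≤ K - 1) h4,
    mul_nonneg hC0 (mul_nonneg (by linarith : (0 : ℝ) ≤ K) h4)]

/-- type synonym carrying the new norm -/
def Bt (_J : A →ₐ[ℂ] B₀) (C : ℝ) (_hC : ∀ a, ‖_J a‖ ≤ C * ‖a‖) (K : ℝ) (_hK1 : 1 ≤ K) : Type := B₀

noncomputable instance instCRBt : CommRing (Bt J C hC K hK1) := (inferInstance : CommRing B₀)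

noncomputable instance instAlgBt : Algebra ℂ (Bt J C hC K hK1) := (inferInstance : Algebra ℂ B₀)

/-- the new norm as a ring norm -/
noncomputable def rnBt (hpos : ∀ b, Nn J C hC K b = 0 → b = 0) : RingNorm (Bt J C hC K hK1) where
  toFun := Nn (B₀ := B₀) J C hC K
  map_zero' := Nn_zero (B₀ := B₀) J C hC K hK1
  add_le' := Nn_add (B₀ := B₀) J C hC K hK1
  neg' := Nn_neg (B₀ := B₀) J C hC K hK1
  mul_le' := Nn_mul (B₀ := B₀) J C hC K hK1
  eq_zero_of_map_eq_zero' := hpos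

include hK1 in
lemma Nn_pos (b : B₀) (hb : Nn J C hC K b = 0) : b = 0 := by
  have := norm_le_Nn J C hC K hK1 b
  rw [hb, mul_zero] at this
  exact norm_le_zero_iff.1 this

noncomputable instance instBt : NormedCommRing (Bt J C hC K hK1) :=
  { (rnBt J C hC K hK1 (Nn_pos J C hC K hK1)).toNormedRing with
    mul_comm := mul_comm }

lemma norm_Bt (b : Bt J C hC K hK1) : ‖b‖ = Nn (B₀ := B₀) J C hC K b := rfl

noncomputable instance : NormedAlgebra ℂ (Bt J C hC K hK1) :=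
  { instAlgBt J C hC K hK1 with
    norm_smul_le := fun c b => Nn_smul_le (B₀ := B₀) J C hC K hK1 c b }

/-- the identity from the old to the new algebra -/
noncomputable def toBt : B₀ →ₐ[ℂ] Bt J C hC K hK1 where
  toFun b := b
  map_one' := rfl
  map_mul' _ _ := rfl
  map_zero' := rfl
  map_add' _ _ := rfl
  commutes' _ := rfl

/-- the identity from the new to the old algebra -/
noncomputable def ofBt : Bt J C hC K hK1 →ₐ[ℂ] B₀ where
  toFun b := b
  map_one' := rfl
  map_mul' _ _ := rfl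
  map_zero' := rfl
  map_add' _ _ := rfl
  commutes' _ := rfl

lemma norm_toBt (b : B₀) : ‖toBt J C hC K hK1 b‖ = Nn (B₀ := B₀) J C hC K b := rfl

lemma toBt_ofBt (b : Bt J C hC K hK1) : toBt J C hC K hK1 (ofBt J C hC K hK1 b) = b := rfl

lemma complete_Bt [CompleteSpace B₀] : CompleteSpace (Bt J C hC K hK1) := by
  have hC0 := C_nonneg J C hC
  refine Metric.complete_of_cauchySeq_tendsto fun u hu => ?_
  have h1 : CauchySeq (fun n => ofBt J C hC K hK1 (u n)) := by
    rw [Metric.cauchySeq_iff] at hu ⊢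
    intro ε hε
    obtain ⟨N, hN⟩ := hu (ε / (C + 1)) (by positivity)
    refine ⟨N, fun m hm n hn => ?_⟩
    have h2 := hN m hm n hn
    rw [dist_eq_norm, norm_Bt, lt_div_iff₀ (by positivity)] at h2
    rw [dist_eq_norm, ← map_sub]
    have h3 := norm_le_Nn J C hC K hK1 (ofBt J C hC K hK1 (u m - u n))
    have h4 : Nn J C hC K (ofBt J C hC K hK1 (u m - u n)) = Nn J C hC K (u m - u n) := rfl
    rw [h4] at h3
    linarith
  obtain ⟨x, hx⟩ := cauchySeq_tendsto_of_complete h1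
  refine ⟨toBt J C hC K hK1 x, ?_⟩
  rw [Metric.tendsto_atTop] at hx ⊢
  intro ε hε
  obtain ⟨N, hN⟩ := hx (ε / (K * C + 1)) (by positivity)
  refine ⟨N, fun n hn => ?_⟩
  have h2 := hN n hn
  rw [dist_eq_norm, lt_div_iff₀ (by positivity)] at h2
  rw [dist_eq_norm, ← toBt_ofBt J C hC K hK1 (u n), ← map_sub, norm_toBt]
  have h3 := Nn_le_Mn J C hC K hK1 (ofBt J C hC K hK1 (u n) - x)
  have h4 := Mn_le_norm J C hC (ofBt J C hC K hK1 (u n) - x)
  have h5 : K * Mn J C hC (ofBt J C hC K hK1 (u n) - x)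
      ≤ K * (C * ‖ofBt J C hC K hK1 (u n) - x‖) := by gcongr
  have h6 := norm_nonneg (ofBt J C hC K hK1 (u n) - x)
  nlinarith

end Renorm

/-- A commutative Banach algebra with a homomorphism bounded above and below from `A` can be
replaced by one in which `A` sits isometrically. -/
theorem exists_isometric {A B₀ : Type} [NormedCommRing A] [NormOneClass A] [NormedAlgebra ℂ A]
    [NormedCommRing B₀] [NormedAlgebra ℂ B₀] [CompleteSpace B₀] (J : A →ₐ[ℂ] B₀) (C K : ℝ)
    (hC : ∀ a, ‖J a‖ ≤ C * ‖a‖) (hK1 : 1 ≤ K) (hK : ∀ a, ‖a‖ ≤ K * ‖J a‖) :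
    ∃ (B : Type) (_ : NormedCommRing B) (_ : NormedAlgebra ℂ B) (_ : CompleteSpace B)
      (ι : A →ₐ[ℂ] B) (e : B₀ →ₐ[ℂ] B), Isometry ι ∧ (∀ a, e (J a) = ι a) := by
  refine ⟨Bt J C hC K hK1, inferInstance, inferInstance, complete_Bt J C hC K hK1,
    (toBt J C hC K hK1).comp J, toBt J C hC K hK1, ?_, fun a => rfl⟩
  refine AddMonoidHomClass.isometry_of_norm _ fun a => ?_
  show ‖toBt J C hC K hK1 (J a)‖ = ‖a‖
  rw [norm_toBt]
  exact Nn_J J C hC K hK1 hK a

end Pool.Agent.H209.Cx
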