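import Pool.Agent.H209.Cx.Renorm

/-!
# The superalgebra
-/

namespace Pool.Agent.H209.Cx

open scoped ENNReal

section
variable {A : Type} [NormedCommRing A] [NormOneClass A] [NormedAlgebra ℂ A] {I : Type}

/-- a bounded family -/
def mkl (f : I → A) (D : ℝ) (hf : ∀ i, ‖f i‖ ≤ D) : lp (fun _ : I => A) ∞ :=
  ⟨f, memℓp_infty ⟨D, by rintro _ ⟨i, rfl⟩; exact hf i⟩⟩

lemma mkl_apply (f : I → A) (D : ℝ) (hf : ∀ i, ‖f i‖ ≤ D) (i : I) : mkl f D hf i = f i := rfl

variable (π : I → (A →ₐ[ℂ] A)) (C : ℝ) (hC : ∀ i a, ‖π i a‖ ≤ C * ‖a‖)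

/-- the family of representations -/
noncomputable def JJ : A →ₐ[ℂ] lp (fun _ : I => A) ∞ where
  toFun a := mkl (fun i => π i a) (C * ‖a‖) fun i => hC i a
  map_one' := by
    apply lp.ext
    funext i
    show π i 1 = _
    rw [map_one]
    rfl
  map_mul' a b := by
    apply lp.ext
    funext i
    show π i (a * b) = _
    rw [map_mul]
    rfl
  map_zero' := by
    apply lp.ext
    funext i
    show π i 0 = _
    rw [map_zero]
    rfl
  map_add' a b := by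
    apply lp.ext
    funext i
    show π i (a + b) = _
    rw [map_add]
    rfl
  commutes' c := by
    apply lp.ext
    funext i
    show π i (algebraMap ℂ A c) = _
    rw [AlgHom.commutes]
    rfl

lemma JJ_apply (a : A) (i : I) : JJ π C hC a i = π i a := rfl

end

theorem super {A : Type} [NormedCommRing A] [NormOneClass A] [NormedAlgebra ℂ A] [CompleteSpace A]
    {I : Type} (π : I → (A →ₐ[ℂ] A)) (C K : ℝ) (hC0 : 0 ≤ C) (hK1 : 1 ≤ K)
    (hC : ∀ i a, ‖π i a‖ ≤ C * ‖a‖)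
    (hK : ∀ a c, 0 ≤ c → (∀ i, ‖π i a‖ ≤ c) → ‖a‖ ≤ K * c)
    (x : Fin 3 → A) (b : Fin 3 → I → A) (D : ℝ) (hb : ∀ j i, ‖b j i‖ ≤ D)
    (h1 : ∀ i, ∑ j, π i (x j) * b j i = 1) :
    ∃ (B : Type) (_ : NormedCommRing B) (_ : NormedAlgebra ℂ B) (_ : CompleteSpace B)
      (ι : A →ₐ[ℂ] B), Isometry ι ∧ ∃ y : Fin 3 → B, ∑ j, ι (x j) * y j = 1 := by
  obtain ⟨B, i1, i2, i3, ι, e, h2, h3⟩ := exists_isometric (JJ π C hC) C K
    (fun a => lp.norm_le_of_forall_le (by positivity) fun i => hC i a) hK1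
    (fun a => hK a _ (norm_nonneg _) fun i =>
      lp.norm_apply_le_norm (by simp) (JJ π C hC a) i)
  refine ⟨B, i1, i2, i3, ι, h2, fun j => e (mkl (b j) D (hb j)), ?_⟩
  have h4 : ∑ j, JJ π C hC (x j) * mkl (b j) D (hb j) = 1 := by
    apply lp.ext
    funext i
    have h5 := h1 i
    rw [Fin.sum_univ_three] at h5 ⊢
    exact h5
  rw [← map_one e, ← h4, map_sum]
  refine Finset.sum_congr rfl fun j _ => ?_
  rw [map_mul, h3]

end Pool.Agent.H209.Cx
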