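import Mathlib

/-!
# Characters of order two of a compact group: orthogonality
-/

namespace Pool.Agent.H209.Cx

open MeasureTheory
open scoped ENNReal ComplexConjugate

set_option linter.unusedSectionVars false

/-- The sign of an element of `ZMod 2`. -/
noncomputable def sgn (a : ZMod 2) : ℂ := if a = 0 then 1 else -1

lemma sgn_zero : sgn 0 = 1 := by simp [sgn]

lemma sgn_one : sgn 1 = -1 := by simp [sgn]

lemma sgn_add (a b : ZMod 2) : sgn (a + b) = sgn a * sgn b := by
  have h : ∀ a b : ZMod 2, (a = 0 ∧ b = 0) ∨ (a = 0 ∧ b = 1) ∨ (a = 1 ∧ b = 0) ∨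
      (a = 1 ∧ b = 1) := by decide
  have h2 : (1 : ZMod 2) + 1 = 0 := by decide
  rcases h a b with ⟨rfl, rfl⟩ | ⟨rfl, rfl⟩ | ⟨rfl, rfl⟩ | ⟨rfl, rfl⟩ <;> simp [sgn, h2]

lemma sgn_sum {ι : Type*} (s : Finset ι) (f : ι → ZMod 2) :
    sgn (∑ i ∈ s, f i) = ∏ i ∈ s, sgn (f i) := by
  classical
  induction s using Finset.induction_on with
  | empty => simp [sgn_zero]
  | insert a s ha ih => rw [Finset.sum_insert ha, Finset.prod_insert ha, sgn_add, ih]

lemma conj_sgn (a : ZMod 2) : conj (sgn a) = sgn a := by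
  unfold sgn; split_ifs <;> simp

lemma norm_sgn (a : ZMod 2) : ‖sgn a‖ = 1 := by
  unfold sgn; split_ifs <;> simp

lemma sgn_mul_self (a : ZMod 2) : sgn a * sgn a = 1 := by
  unfold sgn; split_ifs <;> simp

lemma sgn_ne_one {a : ZMod 2} (h : a ≠ 0) : sgn a = -1 := by simp [sgn, h]

lemma zmod2_add_self (a : ZMod 2) : a + a = 0 := by
  revert a; decide

section

variable {G : Type*} [AddCommGroup G] [TopologicalSpace G]

/-- The character of a continuous homomorphism to `ZMod 2`. -/
noncomputable def chi (s : G →ₜ+ ZMod 2) (x : G) : ℂ := sgn (s x)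

lemma chi_zero (x : G) : chi (0 : G →ₜ+ ZMod 2) x = 1 := by
  show sgn 0 = 1
  exact sgn_zero

lemma chi_add (s t : G →ₜ+ ZMod 2) (x : G) : chi (s + t) x = chi s x * chi t x := by
  show sgn (s x + t x) = _
  exact sgn_add _ _

lemma chi_arg_add (s : G →ₜ+ ZMod 2) (x y : G) : chi s (x + y) = chi s x * chi s y := by
  unfold chi
  rw [map_add, sgn_add]

lemma conj_chi (s : G →ₜ+ ZMod 2) (x : G) : conj (chi s x) = chi s x := conj_sgn _

lemma norm_chi (s : G →ₜ+ ZMod 2) (x : G) : ‖chi s x‖ = 1 := norm_sgn _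

lemma chi_mul_self (s : G →ₜ+ ZMod 2) (x : G) : chi s x * chi s x = 1 := sgn_mul_self _

lemma continuous_chi (s : G →ₜ+ ZMod 2) : Continuous (chi s) := by
  have h : Continuous sgn := continuous_of_discreteTopology
  exact h.comp s.continuous_toFun

lemma add_self (s : G →ₜ+ ZMod 2) : s + s = 0 := by
  ext x
  exact zmod2_add_self _

lemma sub_eq_add' (s t : G →ₜ+ ZMod 2) : s - t = s + t := by
  rw [sub_eq_add_neg, neg_eq_of_add_eq_zero_left (add_self t)]

lemma add_eq_zero_iff (s t : G →ₜ+ ZMod 2) : s + t = 0 ↔ s = t := by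
  rw [← sub_eq_add', sub_eq_zero]

variable [IsTopologicalAddGroup G] [CompactSpace G] [MeasurableSpace G] [BorelSpace G]
  (μ : Measure G) [IsProbabilityMeasure μ] [μ.IsAddLeftInvariant]

lemma integral_chi (s : G →ₜ+ ZMod 2) [Decidable (s = 0)] :
    ∫ x, chi s x ∂μ = if s = 0 then 1 else 0 := by
  split_ifs with h
  · subst h
    simp [chi_zero]
  · have : ∃ g : G, s g ≠ 0 := by
      by_contra hc
      push Not at hc
      exact h (by ext x; exact hc x)
    obtain ⟨g, hg⟩ := this
    have h1 : ∫ x, chi s (g + x) ∂μ = ∫ x, chi s x ∂μ := integral_add_left_eq_self _ g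
    simp_rw [chi_arg_add] at h1
    rw [integral_const_mul] at h1
    have h2 : chi s g = -1 := sgn_ne_one hg
    rw [h2] at h1
    linear_combination (-1/2 : ℂ) * h1

lemma integrable_of_cont {X : Type*} [NormedAddCommGroup X] (f : G → X) (hf : Continuous f) :
    Integrable f μ :=
  hf.integrable_of_hasCompactSupport (HasCompactSupport.of_compactSpace f)

/-- The basic orthogonality relation. -/
lemma integral_sum_sum {I J : Type*} (A : Finset I) (B : Finset J) (c : I → ℂ) (d : J → ℂ)
    (φ : I → (G →ₜ+ ZMod 2)) (ψ : J → (G →ₜ+ ZMod 2)) [DecidableEq (G →ₜ+ ZMod 2)] :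
    ∫ x, (∑ i ∈ A, c i * chi (φ i) x) * conj (∑ j ∈ B, d j * chi (ψ j) x) ∂μ
      = ∑ i ∈ A, ∑ j ∈ B, c i * conj (d j) * (if φ i = ψ j then 1 else 0) := by
  have h1 : ∀ x, (∑ i ∈ A, c i * chi (φ i) x) * conj (∑ j ∈ B, d j * chi (ψ j) x)
      = ∑ i ∈ A, ∑ j ∈ B, c i * conj (d j) * chi (φ i + ψ j) x := by
    intro x
    rw [map_sum, Finset.sum_mul_sum]
    refine Finset.sum_congr rfl fun i _ => Finset.sum_congr rfl fun j _ => ?_
    rw [map_mul, conj_chi, chi_add]
    ring
  simp_rw [h1]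
  rw [integral_finsetSum]
  · refine Finset.sum_congr rfl fun i _ => ?_
    rw [integral_finsetSum]
    · refine Finset.sum_congr rfl fun j _ => ?_
      rw [integral_const_mul, integral_chi]
      congr 1
      simp only [add_eq_zero_iff]
    · intro j _
      exact (integrable_of_cont μ _ (continuous_chi _)).const_mul _
  · intro i _
    apply integrable_finsetSum
    intro j _
    exact (integrable_of_cont μ _ (continuous_chi _)).const_mul _

end

end Pool.Agent.H209.Cx
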